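import Pool.Agent.H674.AchF.StageDefs

open Filter Topology
set_option autoImplicit false
set_option relaxedAutoImplicit false

namespace Ach
namespace Stage

theorem be_choose (K N : ℕ) (c : ℕ → ℕ) (hc : ∀ r, c r ≤ N) :
    ∃ T : Finset (Fin K × Fin N), ∀ f : ℕ → ℤ,
      ∑ x ∈ T, f x.1 = ∑ r ∈ Finset.range K, (c r : ℤ) * f r := by
  classical
  refine ⟨Finset.univ.filter (fun x => (x.2 : ℕ) < c x.1), fun f => ?_⟩
  rw [Finset.sum_filter, Fintype.sum_prod_type, ← Fin.sum_univ_eq_sum_range (fun r => (c r : ℤ) * f r)]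
  refine Finset.sum_congr rfl fun r _ => ?_
  have h1 : ∑ y : Fin N, (if ((r, y).2 : ℕ) < c ((r, y).1 : ℕ) then f ((r, y).1 : ℕ) else 0) =
      ∑ y ∈ Finset.range N, (if y < c r then f r else 0) :=
    Fin.sum_univ_eq_sum_range (fun y => if y < c r then f r else 0) N
  rw [h1, ← Finset.sum_filter, Finset.sum_const]
  have h2 : (Finset.range N).filter (fun y => y < c r) = Finset.range (c r) := by
    ext y
    simp only [Finset.mem_filter, Finset.mem_range]
    constructor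
    · exact fun h => h.2
    · exact fun h => ⟨lt_of_lt_of_le h (hc r), h⟩
  rw [h2, Finset.card_range, nsmul_eq_mul]

theorem be_sum_zero (M : ℕ) : ∑ r ∈ Finset.range (2 * M + 1), ((r : ℤ) - M) = 0 := by
  have h : ∀ n : ℕ, 2 * ∑ r ∈ Finset.range n, (r : ℤ) = n * (n - 1) := by
    intro n
    induction n with
    | zero => simp
    | succ n ih =>
      rw [Finset.sum_range_succ, mul_add, ih]
      push_cast
      ring
  have h1 := h (2 * M + 1)
  rw [Finset.sum_sub_distrib, Finset.sum_const, Finset.card_range, nsmul_eq_mul]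
  push_cast at h1 ⊢
  nlinarith

theorem be_extra (M p0 : ℕ) (ρ : ℤ) (h : |ρ| ≤ M * p0) :
    ∃ c : ℕ → ℕ, (∀ r, c r ≤ p0) ∧
      ∑ r ∈ Finset.range (2 * M + 1), (c r : ℤ) = p0 ∧
      ∑ r ∈ Finset.range (2 * M + 1), (c r : ℤ) * ((r : ℤ) - M) = ρ := by
  obtain ⟨ha, hb⟩ := abs_le.1 h
  rcases Nat.eq_zero_or_pos p0 with h0 | h0
  · subst h0
    refine ⟨fun _ => 0, fun _ => le_rfl, by simp, ?_⟩
    simp at ha hb ⊢
    omega
  · obtain ⟨w, hw⟩ : ∃ w : ℕ, (w : ℤ) = ρ + M * p0 := ⟨(ρ + M * p0).toNat, by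
      rw [Int.toNat_of_nonneg]; linarith⟩
    have hw2 : w ≤ 2 * M * p0 := by
      have : (w : ℤ) ≤ 2 * M * p0 := by rw [hw]; linarith
      exact_mod_cast this
    set q0 := w / p0 with hq0
    set s := w % p0 with hs
    have hdiv : p0 * q0 + s = w := Nat.div_add_mod w p0
    have hslt : s < p0 := Nat.mod_lt _ h0
    have hq : q0 ≤ 2 * M := by
      rw [hq0]
      exact Nat.div_le_of_le_mul (by linarith [Nat.mul_comm (2 * M) p0])
    have hq' : q0 = 2 * M → s = 0 := by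
      intro e
      rw [e] at hdiv
      have : p0 * (2 * M) = 2 * M * p0 := by ring
      omega
    have key : ∀ (a b : ℕ) (f : ℕ → ℤ), (b < 2 * M + 1 ∨ a = 0) →
        ∑ r ∈ Finset.range (2 * M + 1), ((if r = b then a else 0 : ℕ) : ℤ) * f r = a * f b := by
      intro a b f hab
      rcases hab with hab | hab
      · rw [Finset.sum_eq_single b]
        · simp
        · intro r _ hr
          simp [hr]
        · intro hb
          exact absurd (Finset.mem_range.2 hab) hb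
      · subst hab
        simp
    have h1 : (q0 < 2 * M + 1 ∨ p0 - s = 0) := Or.inl (by omega)
    have h2 : (q0 + 1 < 2 * M + 1 ∨ s = 0) := by
      rcases Nat.lt_or_ge q0 (2 * M) with h | h
      · left; omega
      · right; exact hq' (le_antisymm hq h)
    have hz : (w : ℤ) = p0 * q0 + s := by exact_mod_cast hdiv.symm
    refine ⟨fun r => (if r = q0 then p0 - s else 0) + (if r = q0 + 1 then s else 0), ?_, ?_, ?_⟩
    · intro r
      by_cases h3 : r = q0
      · have h4 : r ≠ q0 + 1 := by omega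
        simp only [h3, if_true]
        rw [if_neg (by omega)]
        omega
      · simp only [if_neg h3]
        split_ifs <;> omega
    · have e1 := key (p0 - s) q0 (fun _ => 1) h1
      have e2 := key s (q0 + 1) (fun _ => 1) h2
      have e3 : ∀ r : ℕ, (((if r = q0 then p0 - s else 0) + (if r = q0 + 1 then s else 0) : ℕ) : ℤ) =
          ((if r = q0 then p0 - s else 0 : ℕ) : ℤ) * 1 + ((if r = q0 + 1 then s else 0 : ℕ) : ℤ) * 1 := by
        intro r
        push_cast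
        ring
      rw [Finset.sum_congr rfl (fun r _ => e3 r), Finset.sum_add_distrib, e1, e2]
      rw [Nat.cast_sub hslt.le]
      ring
    · have e1 := key (p0 - s) q0 (fun r => (r : ℤ) - M) h1
      have e2 := key s (q0 + 1) (fun r => (r : ℤ) - M) h2
      have e3 : ∀ r : ℕ, (((if r = q0 then p0 - s else 0) + (if r = q0 + 1 then s else 0) : ℕ) : ℤ)
          * ((r : ℤ) - M) =
          ((if r = q0 then p0 - s else 0 : ℕ) : ℤ) * ((r : ℤ) - M) +
            ((if r = q0 + 1 then s else 0 : ℕ) : ℤ) * ((r : ℤ) - M) := by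
        intro r
        push_cast
        ring
      rw [Finset.sum_congr rfl (fun r _ => e3 r), Finset.sum_add_distrib, e1, e2]
      rw [Nat.cast_sub hslt.le]
      push_cast
      linear_combination hw - hz

variable (s : Stage)

/-- the case `2 p ≤ P` -/
theorem be_half (p : ℕ) (ρ : ℤ) (hp : 2 * p ≤ s.P)
    (h1 : |ρ| ≤ s.M * p) (h3 : |ρ| ≤ s.M * (s.a' + 2)) :
    ∃ T : Finset (Fin (2 * s.M + 1) × Fin (8 * s.M)),
      (∑ _x ∈ T, (1 : ℤ) = p ∧ ∑ x ∈ T, ((x.1 : ℕ) - s.M : ℤ) = ρ) := by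
  have ha' : s.a' + 2 ≤ 2 * s.M := s.ha'
  -- choice of `g`, `p0`
  obtain ⟨g, p0, hg, hp0, hgp, hρ⟩ : ∃ g p0 : ℕ, g ≤ 4 * s.M ∧ p0 ≤ 4 * s.M ∧
      p = g * (2 * s.M + 1) + p0 ∧ |ρ| ≤ s.M * p0 := by
    rcases Nat.lt_or_ge (s.a' + 2) p with h | h
    · refine ⟨(p - (s.a' + 2)) / (2 * s.M + 1),
        p - (p - (s.a' + 2)) / (2 * s.M + 1) * (2 * s.M + 1), ?_, ?_, ?_, ?_⟩
      · apply Nat.div_le_of_le_mul
        have h5 : s.P = (2 * s.M + 1) * (8 * s.M) := rfl
        rw [h5] at hp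
        have : p ≤ (2 * s.M + 1) * (4 * s.M) := by nlinarith
        omega
      · have h6 := Nat.div_add_mod (p - (s.a' + 2)) (2 * s.M + 1)
        have h7 := Nat.mod_lt (p - (s.a' + 2)) (show 0 < 2 * s.M + 1 by omega)
        rw [Nat.mul_comm] at h6
        omega
      · have h6 := Nat.div_mul_le_self (p - (s.a' + 2)) (2 * s.M + 1)
        omega
      · have h6 := Nat.div_mul_le_self (p - (s.a' + 2)) (2 * s.M + 1)
        have h8 : s.a' + 2 ≤ p - (p - (s.a' + 2)) / (2 * s.M + 1) * (2 * s.M + 1) := by omega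
        refine h3.trans ?_
        have h9 : ((s.a' + 2 : ℕ) : ℤ) ≤
          ((p - (p - (s.a' + 2)) / (2 * s.M + 1) * (2 * s.M + 1) : ℕ) : ℤ) := by exact_mod_cast h8
        have h10 : (0 : ℤ) ≤ s.M := by positivity
        calc (s.M : ℤ) * (s.a' + 2) = (s.M : ℤ) * ((s.a' + 2 : ℕ) : ℤ) := by push_cast; ring
          _ ≤ _ := mul_le_mul_of_nonneg_left h9 h10
    · exact ⟨0, p, by omega, by omega, by omega, h1⟩
  obtain ⟨c, hc1, hc2, hc3⟩ := be_extra s.M p0 ρ hρ
  obtain ⟨T, hT⟩ := be_choose (2 * s.M + 1) (8 * s.M) (fun r => g + c r)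
    (fun r => by have := hc1 r; omega)
  refine ⟨T, ?_, ?_⟩
  · have h4 := hT (fun _ => 1)
    rw [h4]
    simp only [mul_one]
    push_cast
    rw [Finset.sum_add_distrib, hc2, Finset.sum_const, Finset.card_range, hgp]
    push_cast
    rw [nsmul_eq_mul]
    push_cast
    ring
  · have h4 := hT (fun r => (r : ℤ) - s.M)
    rw [h4]
    have h5 : ∀ r : ℕ, ((g + c r : ℕ) : ℤ) * ((r : ℤ) - s.M) =
        (g : ℤ) * ((r : ℤ) - s.M) + (c r : ℤ) * ((r : ℤ) - s.M) := by
      intro r; push_cast; ring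
    rw [Finset.sum_congr rfl (fun r _ => h5 r), Finset.sum_add_distrib, hc3, ← Finset.mul_sum,
      be_sum_zero]
    ring

/-- base elements -/
theorem base_exists (p ρ : ℤ) (hp : 0 ≤ p) (hp' : p ≤ s.P)
    (h1 : |ρ| ≤ s.M * p) (h2 : |ρ| ≤ s.M * (s.P - p)) (h3 : |ρ| ≤ s.M * (s.a' + 2)) :
    ∃ T : Finset (Fin (2 * s.M + 1) × Fin (8 * s.M)),
      ∑ x ∈ T, (s.val (Sum.inr (Sum.inr x)) : ℤ) = p * s.Q + ρ := by
  classical
  have hMQ : s.M ≤ s.Q := by
    have : s.Q = (2 * s.a' + 4) * s.M := rfl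
    rw [this]; nlinarith
  have hval : ∀ x : Fin (2 * s.M + 1) × Fin (8 * s.M),
      (s.val (Sum.inr (Sum.inr x)) : ℤ) = s.Q * 1 + (((x.1 : ℕ) : ℤ) - s.M) := by
    intro x
    have : s.val (Sum.inr (Sum.inr x)) = s.Q - s.M + (x.1 : ℕ) := rfl
    rw [this]
    push_cast [Nat.cast_sub hMQ]
    ring
  have hsum : ∀ T : Finset (Fin (2 * s.M + 1) × Fin (8 * s.M)),
      ∑ x ∈ T, (s.val (Sum.inr (Sum.inr x)) : ℤ) =
        s.Q * (∑ x ∈ T, (1 : ℤ)) + ∑ x ∈ T, (((x.1 : ℕ) : ℤ) - s.M) := by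
    intro T
    rw [Finset.sum_congr rfl (fun x _ => hval x), Finset.sum_add_distrib, Finset.mul_sum]
  obtain ⟨pn, rfl⟩ : ∃ n : ℕ, (n : ℤ) = p := ⟨p.toNat, Int.toNat_of_nonneg hp⟩
  have hpn : pn ≤ s.P := by exact_mod_cast hp'
  rcases le_or_gt (2 * pn) s.P with h | h
  · obtain ⟨T, e1, e2⟩ := s.be_half pn ρ h h1 h3
    refine ⟨T, ?_⟩
    rw [hsum, e1, e2]
    ring
  · obtain ⟨T, e1, e2⟩ := s.be_half (s.P - pn) (-ρ) (by omega)
      (by rw [abs_neg]; push_cast [Nat.cast_sub hpn]; exact h2) (by rw [abs_neg]; exact h3)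
    refine ⟨Tᶜ, ?_⟩
    have f1 := Finset.sum_add_sum_compl T (fun _ => (1 : ℤ))
    have f2 := Finset.sum_add_sum_compl T
      (fun x : Fin (2 * s.M + 1) × Fin (8 * s.M) => (((x.1 : ℕ) : ℤ) - s.M))
    have f3 : ∑ _x : Fin (2 * s.M + 1) × Fin (8 * s.M), (1 : ℤ) = s.P := by
      rw [Finset.sum_const, Finset.card_univ, Fintype.card_prod, Fintype.card_fin,
        Fintype.card_fin, nsmul_eq_mul, mul_one]
      rfl
    have f4 : ∑ x : Fin (2 * s.M + 1) × Fin (8 * s.M), (((x.1 : ℕ) : ℤ) - s.M) = 0 := by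
      rw [Fintype.sum_prod_type_right]
      apply Finset.sum_eq_zero
      intro y _
      have := be_sum_zero s.M
      rw [← Fin.sum_univ_eq_sum_range (fun r => ((r : ℤ) - s.M))] at this
      exact this
    rw [hsum]
    rw [f3, e1] at f1
    rw [f4, e2] at f2
    have f5 : ∑ x ∈ Tᶜ, (1 : ℤ) = pn := by
      push_cast [Nat.cast_sub hpn] at f1
      linarith
    have f6 : ∑ x ∈ Tᶜ, (((x.1 : ℕ) : ℤ) - s.M) = ρ := by linarith
    rw [f5, f6]
    ring

end Stage
end Ach
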