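import Pool.Agent.H674.AchF.Defs

/-! Achievement sets: glueing finite blocks. -/

open Filter Topology
set_option autoImplicit false
set_option relaxedAutoImplicit false

namespace Ach

theorem off_zero (ℓ : ℕ → ℕ) : off ℓ 0 = 0 := by
  simp [off]

theorem off_succ (ℓ : ℕ → ℕ) (k : ℕ) : off ℓ (k + 1) = off ℓ k + ℓ k := by
  simp [off, Finset.sum_range_succ]

theorem off_mono (ℓ : ℕ → ℕ) : Monotone (off ℓ) := by
  refine monotone_nat_of_le_succ fun n => ?_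
  rw [off_succ]
  exact Nat.le_add_right _ _

theorem le_off {ℓ : ℕ → ℕ} (hℓ : ∀ k, 1 ≤ ℓ k) (k : ℕ) : k ≤ off ℓ k := by
  induction k with
  | zero => exact Nat.zero_le _
  | succ k ih =>
    rw [off_succ]
    exact Nat.add_le_add ih (hℓ k)

theorem off_tendsto {ℓ : ℕ → ℕ} (hℓ : ∀ k, 1 ≤ ℓ k) : Tendsto (off ℓ) atTop atTop :=
  tendsto_atTop_mono (le_off hℓ) tendsto_id

/-- the block of the position `n` -/
theorem stg_spec {ℓ : ℕ → ℕ} (hℓ : ∀ k, 1 ≤ ℓ k) (n : ℕ) :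
    off ℓ (stg ℓ n) ≤ n ∧ n < off ℓ (stg ℓ n + 1) := by
  have h0 : off ℓ 0 ≤ n := by rw [off_zero]; exact Nat.zero_le _
  refine ⟨Nat.findGreatest_spec (P := fun k => off ℓ k ≤ n) (Nat.zero_le n) h0, ?_⟩
  by_contra hcon
  rw [not_lt] at hcon
  have h1 : stg ℓ n + 1 ≤ n := (le_off hℓ _).trans hcon
  have h2 : stg ℓ n + 1 ≤ stg ℓ n :=
    Nat.le_findGreatest (P := fun k => off ℓ k ≤ n) h1 hcon
  omega

theorem exists_off_add {ℓ : ℕ → ℕ} (hℓ : ∀ k, 1 ≤ ℓ k) (n : ℕ) :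
    ∃ k j, j < ℓ k ∧ n = off ℓ k + j := by
  obtain ⟨h1, h2⟩ := stg_spec hℓ n
  rw [off_succ] at h2
  exact ⟨stg ℓ n, n - off ℓ (stg ℓ n), by omega, by omega⟩

theorem off_add_inj {ℓ : ℕ → ℕ} {k k' j j' : ℕ} (hj : j < ℓ k) (hj' : j' < ℓ k')
    (h : off ℓ k + j = off ℓ k' + j') : k = k' ∧ j = j' := by
  have hk : k = k' := by
    rcases lt_trichotomy k k' with hlt | heq | hgt
    · exfalso
      have h1 : off ℓ (k + 1) ≤ off ℓ k' := off_mono ℓ hlt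
      rw [off_succ] at h1
      omega
    · exact heq
    · exfalso
      have h1 : off ℓ (k' + 1) ≤ off ℓ k := off_mono ℓ hgt
      rw [off_succ] at h1
      omega
  subst hk
  exact ⟨rfl, by omega⟩

theorem stg_off_add {ℓ : ℕ → ℕ} (hℓ : ∀ k, 1 ≤ ℓ k) (k j : ℕ) (hj : j < ℓ k) :
    stg ℓ (off ℓ k + j) = k := by
  obtain ⟨h1, h2⟩ := stg_spec hℓ (off ℓ k + j)
  rw [off_succ] at h2
  exact (off_add_inj (k := k) (j := j) (j' := off ℓ k + j - off ℓ (stg ℓ (off ℓ k + j))) hj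
    (by omega) (by omega)).1.symm

theorem glue_apply {E : Type*} {ℓ : ℕ → ℕ} (hℓ : ∀ k, 1 ≤ ℓ k) (f : ℕ → ℕ → E) (k j : ℕ)
    (hj : j < ℓ k) : glue ℓ f (off ℓ k + j) = f k j := by
  unfold glue
  rw [stg_off_add hℓ k j hj, Nat.add_sub_cancel_left]

/-- the sum over the first `k` blocks -/
theorem sum_off {E : Type*} [AddCommMonoid E] (ℓ : ℕ → ℕ) (g : ℕ → E) (k : ℕ) :
    ∑ i ∈ Finset.range (off ℓ k), g i =
      ∑ i ∈ Finset.range k, ∑ j ∈ Finset.range (ℓ i), g (off ℓ i + j) := by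
  induction k with
  | zero => simp [off_zero]
  | succ k ih => rw [off_succ, Finset.sum_range_add, ih, Finset.sum_range_succ]

theorem tendsto_of_blocks {E : Type*} [NormedAddCommGroup E] {ℓ : ℕ → ℕ} (hℓ : ∀ k, 1 ≤ ℓ k)
    (g : ℕ → E) (s : E)
    (h1 : Tendsto (fun k => ∑ i ∈ Finset.range (off ℓ k), g i) atTop (𝓝 s))
    (h2 : ∀ ε > 0, ∀ᶠ k in atTop, ∀ j ≤ ℓ k, ‖∑ i ∈ Finset.range j, g (off ℓ k + i)‖ ≤ ε) :
    Tendsto (fun n => ∑ i ∈ Finset.range n, g i) atTop (𝓝 s) := by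
  rw [Metric.tendsto_atTop] at h1 ⊢
  intro ε hε
  obtain ⟨K1, hK1⟩ := h1 (ε / 2) (by positivity)
  obtain ⟨K2, hK2⟩ := Filter.eventually_atTop.1 (h2 (ε / 4) (by positivity))
  refine ⟨off ℓ (max K1 K2), fun n hn => ?_⟩
  obtain ⟨k, j, hj, rfl⟩ := exists_off_add hℓ n
  have hk : max K1 K2 ≤ k := by
    by_contra hcon
    rw [not_le] at hcon
    have h3 : off ℓ (k + 1) ≤ off ℓ (max K1 K2) := off_mono ℓ hcon
    rw [off_succ] at h3
    omega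
  have e1 := hK1 k ((le_max_left _ _).trans hk)
  have e2 := hK2 k ((le_max_right _ _).trans hk) j hj.le
  rw [dist_eq_norm] at e1 ⊢
  rw [Finset.sum_range_add]
  calc ‖∑ x ∈ Finset.range (off ℓ k), g x + ∑ x ∈ Finset.range j, g (off ℓ k + x) - s‖
      = ‖(∑ x ∈ Finset.range (off ℓ k), g x - s) + ∑ x ∈ Finset.range j, g (off ℓ k + x)‖ := by
        congr 1; abel
    _ ≤ ‖∑ x ∈ Finset.range (off ℓ k), g x - s‖ + ‖∑ x ∈ Finset.range j, g (off ℓ k + x)‖ :=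
        norm_add_le _ _
    _ < ε / 2 + ε / 2 := by linarith
    _ = ε := by ring

end Ach
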