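import Pool.Agent.H674.AchF.StageDefs

/-! Achievement sets: carry elements and the decomposition of a sum. -/

open Filter Topology
set_option autoImplicit false
set_option relaxedAutoImplicit false

namespace Ach
namespace Stage
variable (s : Stage)

theorem M_pos : 1 ≤ s.M := Nat.one_le_two_pow

theorem M_le_Q : s.M ≤ s.Q := by
  unfold Q
  exact Nat.le_mul_of_pos_left _ (by omega)

theorem th_le (i : ℕ) : s.th i ≤ 2 * s.M := by
  unfold th
  have := Nat.div_le_self s.M (2 ^ (i + 1))
  omega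

theorem C_ge : 2 * s.M ≤ s.C := by
  unfold C P
  have h1 := s.M_pos
  have h2 := s.M_le_Q
  have h3 : 1 ≤ s.Q := le_trans h1 h2
  have : 2 * s.M ≤ (2 * s.M + 1) * (8 * s.M) := by nlinarith
  exact le_trans this (Nat.le_mul_of_pos_right _ h3)

theorem th_le_qC (i : ℕ) : s.th i ≤ s.q * s.C := by
  have h1 := s.th_le i
  have h2 := s.C_ge
  have h3 := s.hq
  exact le_trans (le_trans h1 h2) (Nat.le_mul_of_pos_left _ h3)

/-- the shift of a carry element -/
def shf (x : Fin s.a × Bool) : ℤ := if x.2 then (s.th x.1 : ℤ) else -(s.th x.1 : ℤ)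

theorem val_carry (x : Fin s.a × Bool) :
    (s.val (Sum.inr (Sum.inl x)) : ℤ) = s.q * s.C + s.shf x := by
  obtain ⟨i, b⟩ := x
  have h := s.th_le_qC i
  cases b
  · simp only [val, shf, Bool.false_eq_true, if_false]
    push_cast [Nat.cast_sub h]
    ring
  · simp only [val, shf, if_true]
    push_cast
    ring

theorem val_base (x : Fin (2 * s.M + 1) × Fin (8 * s.M)) :
    (s.val (Sum.inr (Sum.inr x)) : ℤ) = s.Q + ((x.1 : ℕ) - (s.M : ℤ)) := by
  obtain ⟨r, k⟩ := x
  have h := s.M_le_Q
  simp only [val]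
  push_cast [Nat.cast_sub h]
  ring

theorem sum_shf : ∑ x : Fin s.a × Bool, s.shf x = 0 := by
  rw [Fintype.sum_prod_type]
  apply Finset.sum_eq_zero
  intro i _
  simp [shf]

theorem sum_val_carry (T : Finset (Fin s.a × Bool)) :
    ∑ x ∈ T, (s.val (Sum.inr (Sum.inl x)) : ℤ) = T.card * (s.q * s.C) + ∑ x ∈ T, s.shf x := by
  rw [Finset.sum_congr rfl (fun x _ => s.val_carry x), Finset.sum_add_distrib, Finset.sum_const,
    nsmul_eq_mul]

theorem sum_th (j : ℕ) (hj : j ≤ s.e) :
    ∑ i ∈ Finset.range j, (s.th i : ℤ) = s.Dj j := by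
  induction j with
  | zero =>
    simp [Dj, M]
  | succ j ih =>
    rw [Finset.sum_range_succ, ih (by omega)]
    unfold Dj th
    obtain ⟨k, hk⟩ : ∃ k, s.e = j + 1 + k := ⟨s.e - (j + 1), by omega⟩
    have h1 : s.M / 2 ^ (j + 1) = 2 ^ k := by
      unfold M
      rw [hk, pow_add, Nat.mul_div_cancel_left _ (by positivity)]
    have h2 : s.e - j = k + 1 := by omega
    have h3 : s.e - (j + 1) = k := by omega
    rw [h1, h2, h3]
    push_cast
    ring

/-- the carry set -/
def cset (j : ℕ) (sg : Bool) : Finset (Fin s.a × Bool) :=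
  Finset.univ.filter (fun x => (x.1 : ℕ) < j ∧ x.2 = sg)

theorem sum_cset (j : ℕ) (hj : j ≤ s.a) (sg : Bool) (f : ℕ → ℤ) :
    ∑ x ∈ s.cset j sg, f x.1 = ∑ i ∈ Finset.range j, f i := by
  unfold cset
  symm
  refine Finset.sum_bij' (fun i hi => (⟨i, by have := Finset.mem_range.1 hi; omega⟩, sg))
    (fun x _ => (x.1 : ℕ)) ?_ ?_ ?_ ?_ ?_
  · intro i hi
    simp only [Finset.mem_filter, Finset.mem_univ, true_and, and_true]
    exact Finset.mem_range.1 hi
  · intro x hx
    simp only [Finset.mem_filter, Finset.mem_univ, true_and] at hx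
    exact Finset.mem_range.2 hx.1
  · intro i hi
    rfl
  · intro x hx
    simp only [Finset.mem_filter, Finset.mem_univ, true_and] at hx
    obtain ⟨x1, x2⟩ := x
    simp only at hx
    simp [hx.2]
  · intro i hi
    rfl

theorem card_cset (j : ℕ) (hj : j ≤ s.a) (sg : Bool) : ((s.cset j sg).card : ℤ) = j := by
  have := s.sum_cset j hj sg (fun _ => 1)
  simpa using this

theorem sum_shf_cset (j : ℕ) (hj : j ≤ s.a) (sg : Bool) :
    ∑ x ∈ s.cset j sg, s.shf x = if sg then s.Dj j else - s.Dj j := by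
  have h1 : ∑ x ∈ s.cset j sg, s.shf x = ∑ x ∈ s.cset j sg, (if sg then (s.th x.1 : ℤ) else -(s.th x.1 : ℤ)) := by
    apply Finset.sum_congr rfl
    intro x hx
    unfold cset at hx
    simp only [Finset.mem_filter, Finset.mem_univ, true_and] at hx
    unfold shf
    rw [hx.2]
  rw [h1, s.sum_cset j hj sg (fun i => if sg then (s.th i : ℤ) else -(s.th i : ℤ))]
  have h2 := s.sum_th j (le_trans hj s.ha)
  cases sg
  · simp only [Bool.false_eq_true, if_false, Finset.sum_neg_distrib, h2]
  · simp only [if_true, h2]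

/-- carry elements: both signs of the shift `Dj j` are available for `n = j` and `n = 2a - j`. -/
theorem carry_exists (j n : ℕ) (hj : j ≤ s.a) (hn : n = j ∨ n = 2 * s.a - j) (sg : Bool) :
    ∃ T : Finset (Fin s.a × Bool),
      ∑ x ∈ T, (s.val (Sum.inr (Sum.inl x)) : ℤ) =
        n * (s.q * s.C) + (if sg then s.Dj j else - s.Dj j) := by
  rcases hn with hn | hn
  · refine ⟨s.cset j sg, ?_⟩
    rw [sum_val_carry, card_cset _ _ hj, sum_shf_cset _ _ hj, hn]
  · refine ⟨(s.cset j (!sg))ᶜ, ?_⟩
    rw [sum_val_carry]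
    have h1 : ∑ x ∈ (s.cset j (!sg))ᶜ, s.shf x = if sg then s.Dj j else - s.Dj j := by
      have h := Finset.sum_add_sum_compl (s.cset j (!sg)) s.shf
      rw [sum_shf, sum_shf_cset _ _ hj] at h
      cases sg
      · simp only [Bool.not_false, if_true] at h
        simp only [Bool.false_eq_true, if_false, Bool.not_false]
        linarith
      · simp only [Bool.not_true, Bool.false_eq_true, if_false] at h
        simp only [if_true, Bool.not_true]
        linarith
    have h2 : (((s.cset j (!sg))ᶜ).card : ℤ) = n := by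
      have h := s.card_cset j hj (!sg)
      rw [Finset.card_compl, Fintype.card_prod, Fintype.card_fin, Fintype.card_bool]
      have h' : (s.cset j (!sg)).card = j := by exact_mod_cast h
      rw [h', hn, mul_comm]
    rw [h1, h2]

theorem nE_eq (T : Finset s.I) : s.nE T = T.toRight.toLeft.card := by
  unfold nE
  symm
  apply Finset.card_bij (fun y _ => (Sum.inr (Sum.inl y) : s.I))
  · intro y hy
    simp only [Finset.mem_toLeft, Finset.mem_toRight] at hy
    simp only [Finset.mem_filter]
    exact ⟨hy, y, rfl⟩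
  · intro y _ y' _ h
    simpa using h
  · intro x hx
    simp only [Finset.mem_filter] at hx
    obtain ⟨hx, y, rfl⟩ := hx
    exact ⟨y, by simpa using hx, rfl⟩

theorem nE_le (T : Finset s.I) : s.nE T ≤ 2 * s.a := by
  rw [nE_eq]
  have := Finset.card_le_univ T.toRight.toLeft
  rw [Fintype.card_prod, Fintype.card_fin, Fintype.card_bool] at this
  omega

theorem sum_split (T : Finset s.I) :
    ∑ x ∈ T, (s.val x : ℤ) = T.toLeft.card * s.C +
      (∑ x ∈ T.toRight.toLeft, (s.val (Sum.inr (Sum.inl x)) : ℤ) +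
       ∑ x ∈ T.toRight.toRight, (s.val (Sum.inr (Sum.inr x)) : ℤ)) := by
  conv_lhs => rw [← Finset.toLeft_disjSum_toRight (u := T), Finset.sum_disjSum]
  congr 1
  · simp [val]
  · conv_lhs => rw [← Finset.toLeft_disjSum_toRight (u := T.toRight), Finset.sum_disjSum]

theorem sum_base_shift : ∑ x : Fin (2 * s.M + 1) × Fin (8 * s.M), (((x.1 : ℕ) : ℤ) - (s.M : ℤ)) = 0 := by
  rw [Fintype.sum_prod_type]
  simp only [Finset.sum_const, Finset.card_univ, Fintype.card_fin, nsmul_eq_mul]
  rw [← Finset.mul_sum]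
  have : ∑ i : Fin (2 * s.M + 1), (((i : ℕ) : ℤ) - (s.M : ℤ)) = 0 := by
    rw [Finset.sum_sub_distrib]
    have h : ∑ i : Fin (2 * s.M + 1), ((i : ℕ) : ℤ) = ∑ i ∈ Finset.range (2 * s.M + 1), (i : ℤ) :=
      Fin.sum_univ_eq_sum_range (fun i => (i : ℤ)) (2 * s.M + 1)
    rw [h]
    have h2 : ∀ n : ℕ, ∑ i ∈ Finset.range (2 * n + 1), (i : ℤ) = n * (2 * n + 1) := by
      intro n
      induction n with
      | zero => simp
      | succ n ih =>
        rw [show 2 * (n + 1) + 1 = 2 * n + 1 + 1 + 1 by ring, Finset.sum_range_succ,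
          Finset.sum_range_succ, ih]
        push_cast
        ring
    rw [h2]
    simp only [Finset.sum_const, Finset.card_univ, Fintype.card_fin, nsmul_eq_mul]
    push_cast
    ring
  rw [this, mul_zero]

theorem total : ∑ x : s.I, s.val x = (s.m + 2 * s.a * s.q + 1) * s.C := by
  have h : (∑ x : s.I, (s.val x : ℤ)) = (s.m + 2 * s.a * s.q + 1) * s.C := by
    rw [sum_split]
    have h1 : (Finset.univ : Finset s.I).toLeft = Finset.univ := by ext; simp
    have h2 : (Finset.univ : Finset s.I).toRight.toLeft = Finset.univ := by ext; simp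
    have h3 : (Finset.univ : Finset s.I).toRight.toRight = Finset.univ := by ext; simp
    rw [h1, h2, h3, sum_val_carry, sum_shf, Finset.sum_congr rfl (fun x _ => s.val_base x),
      Finset.sum_add_distrib, sum_base_shift]
    simp only [Finset.sum_const, Finset.card_univ, Fintype.card_fin, nsmul_eq_mul,
      Fintype.card_prod, Fintype.card_bool]
    unfold C P
    push_cast
    ring
  exact_mod_cast h

theorem th_anti {i j : ℕ} (h : i ≤ j) : s.th j ≤ s.th i := by
  unfold th
  have : s.M / 2 ^ (j + 1) ≤ s.M / 2 ^ (i + 1) :=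
    Nat.div_le_div_left (Nat.pow_le_pow_right (by norm_num) (by omega)) (by positivity)
  omega

theorem sum_th_le (I : Finset ℕ) :
    ∑ i ∈ I, (s.th i : ℤ) ≤ ∑ i ∈ Finset.range I.card, (s.th i : ℤ) := by
  induction I using Finset.induction_on_max with
  | empty => simp
  | insert a I hlt ih =>
    have hna : a ∉ I := fun h => lt_irrefl _ (hlt a h)
    rw [Finset.sum_insert hna, Finset.card_insert_of_notMem hna, Finset.sum_range_succ]
    have hc : I.card ≤ a := by
      have : I ⊆ Finset.range a := fun x hx => Finset.mem_range.2 (hlt x hx)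
      simpa using Finset.card_le_card this
    have h1 : (s.th a : ℤ) ≤ s.th I.card := by exact_mod_cast s.th_anti hc
    linarith

theorem Dj_mono {i j : ℕ} (h : i ≤ j) (hj : j ≤ s.e) : s.Dj i ≤ s.Dj j := by
  rw [← s.sum_th i (by omega), ← s.sum_th j hj]
  apply Finset.sum_le_sum_of_subset_of_nonneg
  · intro x hx
    simp only [Finset.mem_range] at hx ⊢
    omega
  · intro x _ _
    positivity

theorem shf_part (T : Finset (Fin s.a × Bool)) (b : Bool) (hT : T.card ≤ s.a) :
    ∑ x ∈ T.filter (fun x => x.2 = b), (s.th x.1 : ℤ) ≤ s.Dj T.card := by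
  have h1 : ∑ x ∈ T.filter (fun x => x.2 = b), (s.th x.1 : ℤ)
      = ∑ i ∈ (T.filter (fun x => x.2 = b)).image (fun x => (x.1 : ℕ)), (s.th i : ℤ) := by
    rw [Finset.sum_image]
    intro x hx y hy hxy
    simp only [Finset.coe_filter, Set.mem_ofPred_eq] at hx hy
    obtain ⟨x1, x2⟩ := x
    obtain ⟨y1, y2⟩ := y
    simp only at hx hy hxy
    rw [Prod.mk.injEq]
    exact ⟨Fin.ext hxy, by rw [hx.2, hy.2]⟩
  rw [h1]
  have hc : ((T.filter (fun x => x.2 = b)).image (fun x => (x.1 : ℕ))).card ≤ T.card :=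
    le_trans Finset.card_image_le (Finset.card_filter_le _ _)
  refine le_trans (s.sum_th_le _) ?_
  rw [s.sum_th _ (le_trans hc (le_trans hT s.ha))]
  exact s.Dj_mono hc (le_trans hT s.ha)

theorem shf_bound (T : Finset (Fin s.a × Bool)) (hT : T.card ≤ s.a) :
    |∑ x ∈ T, s.shf x| ≤ s.Dj T.card := by
  have h := Finset.sum_filter_add_sum_filter_not T (fun x => x.2 = true) s.shf
  have h1 : ∑ x ∈ T.filter (fun x => x.2 = true), s.shf x
      = ∑ x ∈ T.filter (fun x => x.2 = true), (s.th x.1 : ℤ) := by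
    apply Finset.sum_congr rfl
    intro x hx
    simp only [Finset.mem_filter] at hx
    unfold shf
    rw [hx.2]
    simp
  have h2 : ∑ x ∈ T.filter (fun x => ¬ x.2 = true), s.shf x
      = - ∑ x ∈ T.filter (fun x => x.2 = false), (s.th x.1 : ℤ) := by
    rw [← Finset.sum_neg_distrib]
    have hf : T.filter (fun x => ¬ x.2 = true) = T.filter (fun x => x.2 = false) := by
      ext x
      simp
    rw [hf]
    apply Finset.sum_congr rfl
    intro x hx
    simp only [Finset.mem_filter] at hx
    unfold shf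
    rw [hx.2]
    simp
  have h3 := s.shf_part T true hT
  have h4 := s.shf_part T false hT
  have h5 : 0 ≤ ∑ x ∈ T.filter (fun x => x.2 = true), (s.th x.1 : ℤ) :=
    Finset.sum_nonneg (fun _ _ => by positivity)
  have h6 : 0 ≤ ∑ x ∈ T.filter (fun x => x.2 = false), (s.th x.1 : ℤ) :=
    Finset.sum_nonneg (fun _ _ => by positivity)
  rw [← h, h1, h2, abs_le]
  constructor <;> linarith

/-- decomposition of the sum over a set of elements: `n` carry elements with shift `θ`,
`i` copies of `C`, `p` base elements. -/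
theorem decomp (T : Finset s.I) : ∃ (i : ℕ) (θ r : ℤ) (p : ℕ), i ≤ s.m ∧ p ≤ s.P ∧
    |θ| ≤ s.Dj (min (s.nE T) (2 * s.a - s.nE T)) ∧ |r| ≤ s.M * p ∧ |r| ≤ s.M * (s.P - p) ∧
    ∑ x ∈ T, (s.val x : ℤ) = s.nE T * (s.q * s.C) + θ + i * s.C + p * s.Q + r := by
  have habs : ∀ B : Finset (Fin (2 * s.M + 1) × Fin (8 * s.M)),
      |∑ x ∈ B, (((x.1 : ℕ) : ℤ) - (s.M : ℤ))| ≤ s.M * B.card := by
    intro B
    refine le_trans (Finset.abs_sum_le_sum_abs _ _) ?_
    have : ∀ x ∈ B, |(((x.1 : ℕ) : ℤ) - (s.M : ℤ))| ≤ s.M := by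
      intro x _
      have := x.1.2
      rw [abs_le]
      constructor <;> omega
    refine le_trans (Finset.sum_le_sum this) ?_
    rw [Finset.sum_const, nsmul_eq_mul, mul_comm]
  have hcardP : Fintype.card (Fin (2 * s.M + 1) × Fin (8 * s.M)) = s.P := by
    rw [Fintype.card_prod, Fintype.card_fin, Fintype.card_fin]
    rfl
  refine ⟨T.toLeft.card, ∑ x ∈ T.toRight.toLeft, s.shf x,
    ∑ x ∈ T.toRight.toRight, (((x.1 : ℕ) : ℤ) - (s.M : ℤ)), T.toRight.toRight.card, ?_, ?_, ?_, ?_, ?_, ?_⟩
  · simpa using Finset.card_le_univ T.toLeft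
  · have := Finset.card_le_univ T.toRight.toRight
    rwa [hcardP] at this
  · rw [nE_eq]
    set E := T.toRight.toLeft with hE
    have hc := Finset.card_le_univ E
    rw [Fintype.card_prod, Fintype.card_fin, Fintype.card_bool] at hc
    rcases le_total E.card s.a with h | h
    · rw [min_eq_left (by omega)]
      exact s.shf_bound E h
    · rw [min_eq_right (by omega)]
      have h1 := Finset.sum_add_sum_compl E s.shf
      rw [sum_shf] at h1
      have h2 : ∑ x ∈ E, s.shf x = - ∑ x ∈ Eᶜ, s.shf x := by linarith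
      have h3 : Eᶜ.card = 2 * s.a - E.card := by
        rw [Finset.card_compl, Fintype.card_prod, Fintype.card_fin, Fintype.card_bool, mul_comm]
      rw [h2, abs_neg, ← h3]
      exact s.shf_bound _ (by omega)
  · exact habs _
  · set B := T.toRight.toRight with hB
    have h1 := Finset.sum_add_sum_compl B (fun x => (((x.1 : ℕ) : ℤ) - (s.M : ℤ)))
    rw [sum_base_shift] at h1
    have h2 : ∑ x ∈ B, (((x.1 : ℕ) : ℤ) - (s.M : ℤ)) = - ∑ x ∈ Bᶜ, (((x.1 : ℕ) : ℤ) - (s.M : ℤ)) := by
      linarith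
    rw [h2, abs_neg]
    refine le_trans (habs _) ?_
    have h3 : B.card ≤ s.P := by
      have := Finset.card_le_univ B
      rwa [hcardP] at this
    rw [Finset.card_compl, hcardP, Nat.cast_sub h3]
  · rw [sum_split, sum_val_carry, Finset.sum_congr rfl (fun x _ => s.val_base x),
      Finset.sum_add_distrib, Finset.sum_const, nsmul_eq_mul, nE_eq]
    ring

end Stage
end Ach
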