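import Pool.Agent.H674.AchF.Series

/-! Achievement sets: conditional convergence of the series of a `Dat`. -/

open Filter Topology MeasureTheory
set_option autoImplicit false
set_option relaxedAutoImplicit false

namespace Ach
namespace Dat
variable (D : Dat)

/-- total of the first kind in block `k` -/
noncomputable def ccT (k : ℕ) : ℝ := (∑ i, (D.val k i : ℝ)) * D.X (k + 1)

theorem ccT_nonneg (k : ℕ) : 0 ≤ D.ccT k :=
  mul_nonneg (Finset.sum_nonneg fun _ _ => Nat.cast_nonneg _) (D.X_pos _).le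

/-- enumeration of the elements of the first kind -/
noncomputable def cce (k : ℕ) : Fin (D.c k) ≃ D.ι k := (Fintype.equivFin (D.ι k)).symm

theorem cc_vec1 (k j : ℕ) (h : j < D.c k) :
    D.vec k j = ((D.val k (D.cce k ⟨j, h⟩) : ℝ) * D.X (k + 1), 0) := by
  unfold vec
  rw [dif_pos h]
  rfl

theorem cc_vec2 (k i : ℕ) (h : i < 2 * D.N k) :
    D.vec k (D.c k + i) = ((-1 : ℝ) ^ i) • ((D.X (k + 1), (D.M k : ℝ)⁻¹) : ℝ × ℝ) := by
  unfold vec
  rw [dif_neg (by omega), if_pos (by omega), Nat.add_sub_cancel_left]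
  rfl

theorem cc_vec3 (k i : ℕ) :
    D.vec k (D.c k + 2 * D.N k + i) = ((-1 : ℝ) ^ i) • ((0, (D.M k : ℝ)⁻¹) : ℝ × ℝ) := by
  unfold vec
  rw [dif_neg (by omega), if_neg (by omega), Nat.add_sub_cancel_left]
  ext <;> simp

theorem cc_sum1 (k : ℕ) : ∑ j ∈ Finset.range (D.c k), D.vec k j = (D.ccT k, 0) := by
  have h1 : ∀ j : Fin (D.c k), D.vec k (j : ℕ)
      = ((D.val k (D.cce k j) : ℝ) * D.X (k + 1), (0 : ℝ)) := by
    intro j
    exact D.cc_vec1 k j j.2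
  rw [Finset.sum_range, Finset.sum_congr rfl fun j _ => h1 j,
    (D.cce k).sum_comp
      (fun i => (((D.val k i : ℝ) * D.X (k + 1), (0 : ℝ)) : ℝ × ℝ))]
  ext
  · rw [Prod.fst_sum, ccT, Finset.sum_mul]
  · rw [Prod.snd_sum]; simp

theorem cc_norm1 (k : ℕ) : ∑ j ∈ Finset.range (D.c k), ‖D.vec k j‖ = D.ccT k := by
  have h1 : ∀ j : Fin (D.c k), ‖D.vec k (j : ℕ)‖
      = (D.val k (D.cce k j) : ℝ) * D.X (k + 1) := by
    intro j
    rw [D.cc_vec1 k j j.2, Prod.norm_def]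
    have h2 : 0 ≤ (D.val k (D.cce k j) : ℝ) * D.X (k + 1) :=
      mul_nonneg (Nat.cast_nonneg _) (D.X_pos _).le
    simp only [norm_zero]
    rw [Real.norm_of_nonneg h2]
    exact max_eq_left h2
  rw [Finset.sum_range, Finset.sum_congr rfl fun j _ => h1 j,
    (D.cce k).sum_comp
      (fun i => ((D.val k i : ℝ) * D.X (k + 1))), ccT, Finset.sum_mul]

theorem cc_alt (m : ℕ) : |∑ i ∈ Finset.range m, (-1 : ℝ) ^ i| ≤ 1 := by
  rw [neg_one_geom_sum]
  split_ifs <;> simp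

theorem cc_alt_even (m : ℕ) : ∑ i ∈ Finset.range (2 * m), (-1 : ℝ) ^ i = 0 := by
  rw [neg_one_geom_sum, if_pos (even_two_mul m)]

theorem cc_sum2 (k j : ℕ) (h : j ≤ 2 * D.N k) : ∑ i ∈ Finset.range (D.c k + j), D.vec k i
    = (D.ccT k, 0) + (∑ i ∈ Finset.range j, (-1 : ℝ) ^ i) •
      ((D.X (k + 1), (D.M k : ℝ)⁻¹) : ℝ × ℝ) := by
  rw [Finset.sum_range_add, cc_sum1, Finset.sum_smul]
  congr 1
  exact Finset.sum_congr rfl fun i hi => D.cc_vec2 k i (by
    have := Finset.mem_range.mp hi; omega)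

theorem cc_sum3 (k j : ℕ) : ∑ i ∈ Finset.range (D.c k + 2 * D.N k + j), D.vec k i
    = (D.ccT k, 0) + (∑ i ∈ Finset.range j, (-1 : ℝ) ^ i) • ((0, (D.M k : ℝ)⁻¹) : ℝ × ℝ) := by
  rw [Finset.sum_range_add, cc_sum2 D k _ le_rfl, cc_alt_even, zero_smul, add_zero,
    Finset.sum_smul]
  congr 1
  exact Finset.sum_congr rfl fun i _ => D.cc_vec3 k i

theorem cc_M_pos (k : ℕ) : (0 : ℝ) < D.M k := by exact_mod_cast D.hM k

theorem cc_bound (k j : ℕ) :
    ‖∑ i ∈ Finset.range j, D.vec k i‖ ≤ D.ccT k + D.X (k + 1) + (D.M k : ℝ)⁻¹ := by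
  have hX := D.X_pos (k + 1)
  have hM : 0 < (D.M k : ℝ)⁻¹ := inv_pos.mpr (D.cc_M_pos k)
  have hT := D.ccT_nonneg k
  have hT' : ‖((D.ccT k, 0) : ℝ × ℝ)‖ = D.ccT k := by
    rw [Prod.norm_def]
    simp only [norm_zero]
    rw [Real.norm_of_nonneg hT]
    exact max_eq_left hT
  rcases le_total j (D.c k) with h | h
  · calc ‖∑ i ∈ Finset.range j, D.vec k i‖ ≤ ∑ i ∈ Finset.range j, ‖D.vec k i‖ :=
          norm_sum_le _ _
      _ ≤ ∑ i ∈ Finset.range (D.c k), ‖D.vec k i‖ :=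
          Finset.sum_le_sum_of_subset_of_nonneg (Finset.range_mono h) fun _ _ _ => norm_nonneg _
      _ = D.ccT k := D.cc_norm1 k
      _ ≤ _ := by linarith
  rcases le_total j (D.c k + 2 * D.N k) with h' | h'
  · obtain ⟨m, rfl⟩ := Nat.exists_eq_add_of_le h
    rw [cc_sum2 D k m (by omega)]
    have h1 : ‖((D.X (k + 1), (D.M k : ℝ)⁻¹) : ℝ × ℝ)‖ ≤ D.X (k + 1) + (D.M k : ℝ)⁻¹ := by
      rw [Prod.norm_def]
      simp only
      rw [Real.norm_of_nonneg hX.le, Real.norm_of_nonneg hM.le]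
      exact max_le (by linarith) (by linarith)
    calc _ ≤ ‖((D.ccT k, 0) : ℝ × ℝ)‖ + ‖(∑ i ∈ Finset.range m, (-1 : ℝ) ^ i) •
          ((D.X (k + 1), (D.M k : ℝ)⁻¹) : ℝ × ℝ)‖ := norm_add_le _ _
      _ ≤ D.ccT k + 1 * (D.X (k + 1) + (D.M k : ℝ)⁻¹) := by
          rw [hT', norm_smul]
          have := mul_le_mul (cc_alt m) h1 (norm_nonneg _) zero_le_one
          rw [Real.norm_eq_abs]
          linarith
      _ = _ := by ring
  · obtain ⟨m, rfl⟩ := Nat.exists_eq_add_of_le h'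
    rw [cc_sum3 D k m]
    have h1 : ‖((0, (D.M k : ℝ)⁻¹) : ℝ × ℝ)‖ ≤ D.X (k + 1) + (D.M k : ℝ)⁻¹ := by
      rw [Prod.norm_def]
      simp only
      rw [norm_zero, Real.norm_of_nonneg hM.le]
      exact max_le (by linarith) (by linarith)
    calc _ ≤ ‖((D.ccT k, 0) : ℝ × ℝ)‖ + ‖(∑ i ∈ Finset.range m, (-1 : ℝ) ^ i) •
          ((0, (D.M k : ℝ)⁻¹) : ℝ × ℝ)‖ := norm_add_le _ _
      _ ≤ D.ccT k + 1 * (D.X (k + 1) + (D.M k : ℝ)⁻¹) := by
          rw [hT', norm_smul]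
          have := mul_le_mul (cc_alt m) h1 (norm_nonneg _) zero_le_one
          rw [Real.norm_eq_abs]
          linarith
      _ = _ := by ring

theorem cc_total (k : ℕ) : ∑ i ∈ Finset.range (D.ℓ k), D.vec k i = (D.ccT k, 0) := by
  have h := D.cc_sum3 k (2 * D.N' k)
  rw [cc_alt_even, zero_smul, add_zero] at h
  exact h

theorem cc_x (k i : ℕ) (hi : i < D.ℓ k) : D.x (off D.ℓ k + i) = D.vec k i :=
  glue_apply (fun k => D.one_le_ℓ k) D.vec k i hi

theorem cc_x_sum (k j : ℕ) (hj : j ≤ D.ℓ k) :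
    ∑ i ∈ Finset.range j, D.x (off D.ℓ k + i) = ∑ i ∈ Finset.range j, D.vec k i :=
  Finset.sum_congr rfl fun i hi => D.cc_x k i ((Finset.mem_range.mp hi).trans_le hj)

theorem cc_small (h : D.Small) :
    Tendsto (fun k => D.ccT k + D.X (k + 1) + (D.M k : ℝ)⁻¹) atTop (𝓝 0) := by
  have h1 : Tendsto (fun k => D.ccT k) atTop (𝓝 0) := h.tendsto_atTop_zero
  have h2 : Tendsto (fun k => D.X (k + 1)) atTop (𝓝 0) := by
    have h3 : Tendsto (fun k : ℕ => ((1 : ℝ) / 2) ^ (k + 1)) atTop (𝓝 0) :=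
      (tendsto_pow_atTop_nhds_zero_of_lt_one (by norm_num) (by norm_num)).comp
        (tendsto_add_atTop_nat 1)
    exact squeeze_zero (fun k => (D.X_pos _).le) (fun k => D.X_le _) h3
  have h4 : Tendsto (fun k => (D.M k : ℝ)⁻¹) atTop (𝓝 0) :=
    tendsto_inv_atTop_zero.comp (tendsto_natCast_atTop_atTop.comp D.hM')
  simpa using (h1.add h2).add h4

theorem cc_block_norm (k : ℕ) : 1 ≤ ∑ j ∈ Finset.range (D.ℓ k), ‖D.vec k j‖ := by
  have hM := D.cc_M_pos k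
  have h1 : ∑ j ∈ Finset.range (D.ℓ k), ‖D.vec k j‖
      = ∑ j ∈ Finset.range (D.c k + 2 * D.N k), ‖D.vec k j‖
        + ∑ j ∈ Finset.range (2 * D.N' k), ‖D.vec k (D.c k + 2 * D.N k + j)‖ := by
    rw [← Finset.sum_range_add]; rfl
  have h2 : ∀ j, ‖D.vec k (D.c k + 2 * D.N k + j)‖ = (D.M k : ℝ)⁻¹ := by
    intro j
    rw [cc_vec3, norm_smul, norm_pow, norm_neg, norm_one, one_pow, one_mul, Prod.norm_def]
    simp only
    rw [norm_zero, Real.norm_of_nonneg (inv_pos.mpr hM).le]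
    exact max_eq_right (inv_pos.mpr hM).le
  have h3 : ∑ j ∈ Finset.range (2 * D.N' k), ‖D.vec k (D.c k + 2 * D.N k + j)‖
      = (2 * D.N' k : ℕ) * (D.M k : ℝ)⁻¹ := by
    rw [Finset.sum_congr rfl fun j _ => h2 j, Finset.sum_const, Finset.card_range, nsmul_eq_mul]
  have h4 : (D.M k : ℝ) ≤ (2 * D.N' k : ℕ) := by
    have : D.M k ≤ 2 * D.N' k := by
      unfold N'
      have h5 : D.M k ≤ (k + 2 + ∑ i ∈ Finset.range (k + 1), D.N i) * D.M k :=
        Nat.le_mul_of_pos_left _ (by omega)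
      omega
    exact_mod_cast this
  have h5 : 0 ≤ ∑ j ∈ Finset.range (D.c k + 2 * D.N k), ‖D.vec k j‖ :=
    Finset.sum_nonneg fun _ _ => norm_nonneg _
  rw [h1, h3]
  have h6 : 1 ≤ ((2 * D.N' k : ℕ) : ℝ) * (D.M k : ℝ)⁻¹ := by
    rw [← div_eq_mul_inv, le_div_iff₀ hM, one_mul]; exact h4
  linarith

theorem condConv (h : D.Small) : CondConv D.x := by
  have hℓ : ∀ k, 1 ≤ D.ℓ k := fun k => D.one_le_ℓ k
  constructor
  · refine ⟨(∑' k, D.ccT k, 0), tendsto_of_blocks hℓ _ _ ?_ ?_⟩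
    · have h1 : ∀ k, ∑ i ∈ Finset.range (off D.ℓ k), D.x i
          = ((∑ i ∈ Finset.range k, D.ccT i, 0) : ℝ × ℝ) := by
        intro k
        rw [sum_off]
        have h2 : ∀ i, ∑ j ∈ Finset.range (D.ℓ i), D.x (off D.ℓ i + j) = (D.ccT i, 0) := by
          intro i
          rw [D.cc_x_sum i _ le_rfl, cc_total]
        rw [Finset.sum_congr rfl fun i _ => h2 i]
        ext
        · rw [Prod.fst_sum]
        · rw [Prod.snd_sum]; simp
      simp only [h1]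
      have h3 : Tendsto (fun k => ∑ i ∈ Finset.range k, D.ccT i) atTop (𝓝 (∑' k, D.ccT k)) :=
        (Summable.hasSum (f := D.ccT) h).tendsto_sum_nat
      exact h3.prodMk_nhds tendsto_const_nhds
    · intro ε hε
      have h1 := (D.cc_small h).eventually (ge_mem_nhds hε)
      filter_upwards [h1] with k hk j hj
      rw [D.cc_x_sum k j hj]
      exact (D.cc_bound k j).trans hk
  · refine tendsto_atTop_atTop_of_monotone ?_ ?_
    · intro a b hab
      exact Finset.sum_le_sum_of_subset_of_nonneg (Finset.range_mono hab) fun _ _ _ => norm_nonneg _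
    · intro b
      refine ⟨off D.ℓ ⌈b⌉₊, ?_⟩
      rw [sum_off]
      have h1 : ∀ i ∈ Finset.range ⌈b⌉₊, (1 : ℝ) ≤ ∑ j ∈ Finset.range (D.ℓ i), ‖D.x (off D.ℓ i + j)‖ := by
        intro i _
        have h2 : ∑ j ∈ Finset.range (D.ℓ i), ‖D.x (off D.ℓ i + j)‖
            = ∑ j ∈ Finset.range (D.ℓ i), ‖D.vec i j‖ :=
          Finset.sum_congr rfl fun j hj => by rw [D.cc_x i j (Finset.mem_range.mp hj)]
        rw [h2]
        exact D.cc_block_norm i
      have h3 := Finset.sum_le_sum h1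
      rw [Finset.sum_const, Finset.card_range, nsmul_eq_mul, mul_one] at h3
      exact (Nat.le_ceil b).trans h3

end Dat
end Ach
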