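import Mathlib

/-! Achievement sets of conditionally convergent planar series: definitions.  -/

open Filter Topology MeasureTheory
set_option autoImplicit false
set_option relaxedAutoImplicit false

namespace Ach

/-- the planar series `∑ x n` is conditionally convergent: it converges and `∑ ‖x n‖ = ∞`. -/
def CondConv (x : ℕ → ℝ × ℝ) : Prop :=
  (∃ s, Tendsto (fun n => ∑ i ∈ Finset.range n, x i) atTop (𝓝 s)) ∧
  Tendsto (fun n => ∑ i ∈ Finset.range n, ‖x i‖) atTop atTop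

/-- the sum range: all sums of convergent rearrangements. -/
def SumRange (x : ℕ → ℝ × ℝ) : Set (ℝ × ℝ) :=
  {s | ∃ σ : Equiv.Perm ℕ, Tendsto (fun n => ∑ i ∈ Finset.range n, x (σ i)) atTop (𝓝 s)}

/-- the achievement set: all sums of convergent subseries `∑_{n ∈ S} x n` (in the given order). -/
def AchSet (x : ℕ → ℝ × ℝ) : Set (ℝ × ℝ) :=
  {s | ∃ S : Set ℕ, Tendsto (fun n => ∑ i ∈ Finset.range n, S.indicator x i) atTop (𝓝 s)}

/-! ### glueing finite blocks -/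

/-- offset of the block `k` when block `i` has length `ℓ i` -/
def off (ℓ : ℕ → ℕ) (k : ℕ) : ℕ := ∑ i ∈ Finset.range k, ℓ i

/-- the block containing the position `n` -/
def stg (ℓ : ℕ → ℕ) (n : ℕ) : ℕ := Nat.findGreatest (fun k => off ℓ k ≤ n) n

/-- concatenation of the blocks `f k 0, …, f k (ℓ k - 1)` -/
def glue {E : Type*} (ℓ : ℕ → ℕ) (f : ℕ → ℕ → E) (n : ℕ) : E :=
  f (stg ℓ n) (n - off ℓ (stg ℓ n))

/-! ### the data of the construction -/

structure Dat where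
  C : ℕ → ℕ
  hC : ∀ k, 2 ≤ C k
  M : ℕ → ℕ
  hM : ∀ k, 1 ≤ M k
  hM' : Tendsto M atTop atTop
  ι : ℕ → Type
  fin : ∀ k, Fintype (ι k)
  val : ∀ k, ι k → ℕ

namespace Dat
variable (D : Dat)

instance (k : ℕ) : Fintype (D.ι k) := D.fin k

noncomputable def X (k : ℕ) : ℝ := (∏ i ∈ Finset.range k, (D.C i : ℝ))⁻¹

def N (k : ℕ) : ℕ := (k + 1) * D.M k * ∏ i ∈ Finset.range (k + 1), D.C i

def N' (k : ℕ) : ℕ := (k + 2 + ∑ i ∈ Finset.range (k + 1), D.N i) * D.M k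

/-- the first kind of elements has summable total -/
def Small : Prop := Summable (fun k => (∑ i, (D.val k i : ℝ)) * D.X (k + 1))

/-- the one-dimensional set -/
def U : Set ℝ := {u | ∃ (σ : ℕ → ℕ) (d : ℕ → ℤ),
  (∀ k, ∃ T : Finset (D.ι k), ∑ i ∈ T, D.val k i = σ k) ∧
  (∀ k, |d k| ≤ (D.N k : ℤ)) ∧
  Tendsto (fun k => (d k : ℝ) / D.M k) atTop (𝓝 0) ∧
  Tendsto (fun n => ∑ k ∈ Finset.range n, ((σ k : ℝ) + d k) * D.X (k + 1)) atTop (𝓝 u)}

/-- number of elements of the first kind in block `k` -/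
def c (k : ℕ) : ℕ := Fintype.card (D.ι k)

/-- length of block `k` -/
def ℓ (k : ℕ) : ℕ := D.c k + 2 * D.N k + 2 * D.N' k

/-- the `j`-th vector of block `k` -/
noncomputable def vec (k j : ℕ) : ℝ × ℝ :=
  if h : j < D.c k then ((D.val k ((Fintype.equivFin (D.ι k)).symm ⟨j, h⟩) : ℝ) * D.X (k + 1), 0)
  else if j < D.c k + 2 * D.N k then
    ((-1 : ℝ) ^ (j - D.c k) * D.X (k + 1), (-1 : ℝ) ^ (j - D.c k) * (D.M k : ℝ)⁻¹)
  else (0, (-1 : ℝ) ^ (j - (D.c k + 2 * D.N k)) * (D.M k : ℝ)⁻¹)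

/-- the series -/
noncomputable def x : ℕ → ℝ × ℝ := glue D.ℓ D.vec

end Dat
end Ach
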