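import Pool.Agent.H674.AchF.Series

/-! Achievement sets: first coordinates of achieved points. -/

open Filter Topology MeasureTheory
set_option autoImplicit false
set_option relaxedAutoImplicit false

namespace Ach
namespace Dat
variable (D : Dat)

open Classical in
theorem fmu_ind (S : Set ℕ) (k j : ℕ) (hj : j < D.ℓ k) :
    S.indicator D.x (off D.ℓ k + j) = if off D.ℓ k + j ∈ S then D.vec k j else 0 := by
  rw [Set.indicator_apply]
  have h : D.x (off D.ℓ k + j) = D.vec k j := glue_apply D.one_le_ℓ D.vec k j hj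
  rw [h]

open Classical in
theorem fmu_alt (a : ℕ → Prop) (n : ℕ) :
    |∑ i ∈ Finset.range (2 * n), (if a i then (-1 : ℤ) ^ i else 0)| ≤ (n : ℤ) := by
  induction n with
  | zero => simp
  | succ n ih =>
    rw [show 2 * (n + 1) = 2 * n + 1 + 1 by ring, Finset.sum_range_succ, Finset.sum_range_succ]
    have h1 : (-1 : ℤ) ^ (2 * n) = 1 := by rw [pow_mul]; simp
    have h2 : (-1 : ℤ) ^ (2 * n + 1) = -1 := by rw [pow_succ, h1]; simp
    rw [h1, h2]
    rw [abs_le] at ih ⊢
    push_cast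
    split_ifs <;> constructor <;> linarith [ih.1, ih.2]

/-- the selected elements of the first kind -/
noncomputable def fmuT (S : Set ℕ) (k : ℕ) : Finset (D.ι k) :=
  open Classical in
  Finset.univ.filter (fun i => off D.ℓ k + (Fintype.equivFin (D.ι k) i : ℕ) ∈ S)

/-- the sum of the selected elements of the first kind -/
noncomputable def fmuσ (S : Set ℕ) (k : ℕ) : ℕ := ∑ i ∈ D.fmuT S k, D.val k i

/-- the sum of the selected signs of the second kind -/
noncomputable def fmud (S : Set ℕ) (k : ℕ) : ℤ :=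
  open Classical in
  ∑ i ∈ Finset.range (2 * D.N k), (if off D.ℓ k + (D.c k + i) ∈ S then (-1 : ℤ) ^ i else 0)

open Classical in
theorem fmu_S1 (S : Set ℕ) (k : ℕ) :
    (∑ j ∈ Finset.range (D.c k), S.indicator D.x (off D.ℓ k + j)).1 =
      (D.fmuσ S k : ℝ) * D.X (k + 1) := by
  have h1 : ∀ j ∈ Finset.range (D.c k), S.indicator D.x (off D.ℓ k + j) =
      if off D.ℓ k + j ∈ S then D.vec k j else 0 := by
    intro j hj
    rw [Finset.mem_range] at hj
    refine D.fmu_ind S k j ?_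
    unfold ℓ
    omega
  rw [Finset.sum_congr rfl h1, Finset.sum_range, Prod.fst_sum]
  have h2 : ∀ j : Fin (D.c k), (if off D.ℓ k + (j : ℕ) ∈ S then D.vec k j else (0 : ℝ × ℝ)).1 =
      if off D.ℓ k + (j : ℕ) ∈ S then
        (D.val k ((Fintype.equivFin (D.ι k)).symm j) : ℝ) * D.X (k + 1) else 0 := by
    intro j
    split_ifs with h
    · unfold vec
      rw [dif_pos j.2]
      rfl
    · rfl
  rw [Finset.sum_congr rfl fun j _ => h2 j]
  have h3 := (Fintype.equivFin (D.ι k)).sum_comp (fun j : Fin (Fintype.card (D.ι k)) =>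
    if off D.ℓ k + (j : ℕ) ∈ S then
        (D.val k ((Fintype.equivFin (D.ι k)).symm j) : ℝ) * D.X (k + 1) else 0)
  refine (h3.symm).trans ?_
  simp only [Equiv.symm_apply_apply]
  unfold fmuσ fmuT
  push_cast
  rw [Finset.sum_mul, Finset.sum_filter]

open Classical in
theorem fmu_S2 (S : Set ℕ) (k : ℕ) :
    ∑ j ∈ Finset.range (2 * D.N k), S.indicator D.x (off D.ℓ k + (D.c k + j)) =
      ((D.fmud S k : ℝ) * D.X (k + 1), (D.fmud S k : ℝ) * (D.M k : ℝ)⁻¹) := by
  have h1 : ∀ j ∈ Finset.range (2 * D.N k), S.indicator D.x (off D.ℓ k + (D.c k + j)) =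
      (((if off D.ℓ k + (D.c k + j) ∈ S then (-1 : ℝ) ^ j else 0) * D.X (k + 1),
        (if off D.ℓ k + (D.c k + j) ∈ S then (-1 : ℝ) ^ j else 0) * (D.M k : ℝ)⁻¹) : ℝ × ℝ) := by
    intro j hj
    rw [Finset.mem_range] at hj
    rw [D.fmu_ind S k (D.c k + j) (by unfold ℓ; omega)]
    split_ifs with h
    · unfold vec
      rw [dif_neg (by omega), if_pos (by omega), Nat.add_sub_cancel_left]
    · simp only [zero_mul]
      rfl
  rw [Finset.sum_congr rfl h1]
  ext
  · rw [Prod.fst_sum]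
    simp only
    rw [← Finset.sum_mul]
    unfold fmud
    push_cast
    rfl
  · rw [Prod.snd_sum]
    simp only
    rw [← Finset.sum_mul]
    unfold fmud
    push_cast
    rfl

open Classical in
theorem fmu_S3 (S : Set ℕ) (k : ℕ) :
    (∑ j ∈ Finset.range (2 * D.N' k), S.indicator D.x
      (off D.ℓ k + (D.c k + 2 * D.N k + j))).1 = 0 := by
  rw [Prod.fst_sum]
  refine Finset.sum_eq_zero fun j hj => ?_
  rw [Finset.mem_range] at hj
  rw [D.fmu_ind S k (D.c k + 2 * D.N k + j) (by unfold ℓ; omega)]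
  split_ifs with h
  · unfold vec
    rw [dif_neg (by omega), if_neg (by omega)]
  · rfl

theorem fmu_block (S : Set ℕ) (k : ℕ) :
    (∑ j ∈ Finset.range (D.ℓ k), S.indicator D.x (off D.ℓ k + j)).1 =
      ((D.fmuσ S k : ℝ) + D.fmud S k) * D.X (k + 1) := by
  have h0 : D.ℓ k = D.c k + 2 * D.N k + 2 * D.N' k := rfl
  have h1 : ∑ j ∈ Finset.range (D.ℓ k), S.indicator D.x (off D.ℓ k + j) =
      ∑ j ∈ Finset.range (D.c k), S.indicator D.x (off D.ℓ k + j) +
      ∑ j ∈ Finset.range (2 * D.N k), S.indicator D.x (off D.ℓ k + (D.c k + j)) +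
      ∑ j ∈ Finset.range (2 * D.N' k), S.indicator D.x
        (off D.ℓ k + (D.c k + 2 * D.N k + j)) := by
    conv_lhs => rw [h0]
    rw [Finset.sum_range_add, Finset.sum_range_add]
  rw [h1, Prod.fst_add, Prod.fst_add, fmu_S1, fmu_S2, fmu_S3]
  ring

theorem fst_mem_U (p : ℝ × ℝ) (hp : p ∈ AchSet D.x) : p.1 ∈ D.U := by
  obtain ⟨S, hS⟩ := hp
  refine ⟨D.fmuσ S, D.fmud S, fun k => ⟨D.fmuT S k, rfl⟩, fun k => ?_, ?_, ?_⟩
  · exact fmu_alt _ _
  · have ht : ∀ f : ℕ → ℕ, Tendsto (fun k => off D.ℓ k + f k) atTop atTop := fun f =>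
      tendsto_atTop_mono (fun k => Nat.le_add_right _ _) (off_tendsto D.one_le_ℓ)
    have h1 := hS.comp (ht fun k => D.c k + 2 * D.N k)
    have h2 := hS.comp (ht fun k => D.c k)
    have h3 := h1.sub h2
    rw [sub_self] at h3
    have h4 := (continuous_snd.tendsto (0 : ℝ × ℝ)).comp h3
    refine h4.congr fun k => ?_
    show (∑ i ∈ Finset.range (off D.ℓ k + (D.c k + 2 * D.N k)), S.indicator D.x i -
      ∑ i ∈ Finset.range (off D.ℓ k + D.c k), S.indicator D.x i).2 = _
    rw [← add_assoc, Finset.sum_range_add, add_sub_cancel_left]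
    have h5 := D.fmu_S2 S k
    simp only [← add_assoc] at h5
    rw [h5]
    show (D.fmud S k : ℝ) * (D.M k : ℝ)⁻¹ = _
    rw [div_eq_mul_inv]
  · have h1 := (continuous_fst.tendsto p).comp (hS.comp (off_tendsto D.one_le_ℓ))
    refine h1.congr fun n => ?_
    show (∑ i ∈ Finset.range (off D.ℓ n), S.indicator D.x i).1 = _
    rw [sum_off, Prod.fst_sum]
    exact Finset.sum_congr rfl fun k _ => D.fmu_block S k

end Dat
end Ach
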