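import Pool.Agent.H674.AchF.MainBasic

/-! Achievement sets: a real number with infinitely many good digits is in `U`. -/

open Filter Topology MeasureTheory
set_option autoImplicit false
set_option relaxedAutoImplicit false

namespace Ach
namespace GoodMem

/-- dependent choice from a stage on -/
theorem dep_choice {α : Type*} (P : ℕ → α → Prop) (R : ℕ → α → α → Prop) (K : ℕ) (s0 : α)
    (h0 : P K s0) (hstep : ∀ k, K ≤ k → ∀ s, P k s → ∃ s', P (k + 1) s' ∧ R k s s') :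
    ∃ f : ℕ → α, f K = s0 ∧ ∀ k, K ≤ k → P k (f k) ∧ R k (f k) (f (k + 1)) := by
  classical
  haveI : Nonempty α := ⟨s0⟩
  choose! nx h1 h2 using hstep
  let g : ℕ → α := fun i => Nat.rec s0 (fun i s => nx (K + i) s) i
  have hgs : ∀ i, g (i + 1) = nx (K + i) (g i) := fun i => rfl
  have hg : ∀ i, P (K + i) (g i) := by
    intro i
    induction i with
    | zero => exact h0
    | succ i ih =>
      rw [hgs]
      exact h1 (K + i) (by omega) (g i) ih
  refine ⟨fun k => g (k - K), by simp [g], fun k hk => ?_⟩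
  obtain ⟨i, rfl⟩ := Nat.exists_eq_add_of_le hk
  have e1 : K + i - K = i := by omega
  have e2 : K + i + 1 - K = i + 1 := by omega
  simp only [e1, e2]
  refine ⟨hg i, ?_⟩
  rw [hgs]
  exact h2 (K + i) (by omega) (g i) (hg i)

theorem digit (u : ℝ) (k : ℕ) : ∃ t : ℕ,
    ⌊u / dat.X (k + 1)⌋ = (dat.C k : ℤ) * ⌊u / dat.X k⌋ + t ∧ t < dat.C k ∧
    (Int.fract (u / dat.X k) ∈ Set.Ioo (1 / 4 : ℝ) (3 / 4) →
      dat.C k ≤ 4 * t + 4 ∧ 4 * t ≤ 3 * dat.C k) := by
  have hCpos : (0 : ℝ) < dat.C k := by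
    have := dat.hC k
    exact_mod_cast (by omega : 0 < dat.C k)
  have hX1 : 0 < dat.X (k + 1) := dat.X_pos (k + 1)
  have hy : u / dat.X (k + 1) = dat.C k * (u / dat.X k) := by
    rw [dat.X_succ k]
    field_simp
  have hf0 : 0 ≤ Int.fract (u / dat.X k) := Int.fract_nonneg _
  have hf1 : Int.fract (u / dat.X k) < 1 := Int.fract_lt_one _
  have hnn : 0 ≤ (dat.C k : ℝ) * Int.fract (u / dat.X k) := by positivity
  refine ⟨⌊(dat.C k : ℝ) * Int.fract (u / dat.X k)⌋₊, ?_, ?_, ?_⟩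
  · rw [hy]
    have e : (dat.C k : ℝ) * (u / dat.X k) =
        (dat.C k : ℝ) * Int.fract (u / dat.X k) + (((dat.C k : ℤ) * ⌊u / dat.X k⌋ : ℤ) : ℝ) := by
      have := Int.fract_add_floor (u / dat.X k)
      push_cast
      conv_lhs => rw [← this]
      ring
    rw [e, Int.floor_add_intCast, ← Int.natCast_floor_eq_floor hnn]
    ring
  · rw [Nat.floor_lt hnn]
    nlinarith
  · intro hg
    have h1 := Nat.lt_floor_add_one ((dat.C k : ℝ) * Int.fract (u / dat.X k))
    have h2 := Nat.floor_le hnn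
    constructor
    · have : (dat.C k : ℝ) ≤ 4 * (⌊(dat.C k : ℝ) * Int.fract (u / dat.X k)⌋₊ : ℝ) + 4 := by
        nlinarith [hg.1]
      exact_mod_cast this
    · have : 4 * (⌊(dat.C k : ℝ) * Int.fract (u / dat.X k)⌋₊ : ℝ) ≤ 3 * (dat.C k : ℝ) := by
        nlinarith [hg.2]
      exact_mod_cast this

theorem M_le_N (k : ℕ) : dat.M k ≤ dat.N k := by
  unfold Dat.N
  have h1 : 1 ≤ ∏ i ∈ Finset.range (k + 1), dat.C i :=
    Nat.succ_le_of_lt (Finset.prod_pos fun i _ => by have := dat.hC i; omega)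
  calc dat.M k = 1 * dat.M k * 1 := by ring
    _ ≤ (k + 1) * dat.M k * ∏ i ∈ Finset.range (k + 1), dat.C i := by
      gcongr
      omega

theorem state_le (k n f : ℕ) (hn : n ≤ 2 * (stage k).a') (hf : f ≤ (stage k).M) :
    n * (stage k).Q + f + 1 ≤ (stage k).C := by
  have ha : (stage k).a' + 2 ≤ 2 * (stage k).M := (stage k).ha'
  unfold Stage.C Stage.P
  have hQ : (stage k).M + 1 ≤ (stage k).Q := by
    unfold Stage.Q
    nlinarith [stage_M k]
  have hM := stage_M k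
  have h1 : (2 * (stage k).a' + 2) ≤ (2 * (stage k).M + 1) * (8 * (stage k).M) := by
    nlinarith
  calc n * (stage k).Q + f + 1 ≤ 2 * (stage k).a' * (stage k).Q + (stage k).Q := by
        have := Nat.mul_le_mul_right (stage k).Q hn
        omega
    _ = (2 * (stage k).a' + 1) * (stage k).Q := by ring
    _ ≤ (2 * (stage k).M + 1) * (8 * (stage k).M) * (stage k).Q := by
        apply Nat.mul_le_mul_right
        omega

/-- the step of the path -/
theorem step (u : ℝ) (t : ℕ → ℕ) (k : ℕ) (htlt : t (k + 1) < dat.C (k + 1))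
    (htg : Int.fract (u / dat.X (k + 1)) ∈ Set.Ioo (1 / 4 : ℝ) (3 / 4) →
      dat.C (k + 1) ≤ 4 * t (k + 1) + 4 ∧ 4 * t (k + 1) ≤ 3 * dat.C (k + 1))
    (s : ℕ × ℕ × ℕ) (hs1 : s.1 ≤ k) (hs2 : s.2.1 = s.1 ∨ s.2.1 = 2 * (stage k).a' - s.1)
    (hs3 : 1 ≤ s.2.2) (hs4 : s.2.2 ≤ (stage k).M) :
    ∃ s' : ℕ × ℕ × ℕ, (s'.1 ≤ k + 1 ∧ (s'.2.1 = s'.1 ∨ s'.2.1 = 2 * (stage (k + 1)).a' - s'.1) ∧
      1 ≤ s'.2.2 ∧ s'.2.2 ≤ (stage (k + 1)).M) ∧
      (s.1 ≤ s'.1 ∧ (Int.fract (u / dat.X (k + 1)) ∈ Set.Ioo (1 / 4 : ℝ) (3 / 4) → s'.1 = k + 1) ∧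
      ∃ (σ : ℕ) (d : ℤ), (∃ T : Finset (dat.ι (k + 1)), ∑ x ∈ T, dat.val (k + 1) x = σ) ∧
        |d| * 2 ^ s.1 ≤ (dat.M (k + 1) : ℤ) ∧
        (t (k + 1) : ℤ) + (s.2.1 * (stage k).Q + s.2.2) * dat.C (k + 1) =
          σ + d + (s'.2.1 * (stage (k + 1)).Q + s'.2.2)) := by
  obtain ⟨j, n, f⟩ := s
  simp only at hs1 hs2 hs3 hs4 ⊢
  have ea : (stage (k + 1)).a = (stage k).a' := stage_a k
  have em : (stage (k + 1)).m = (stage k).M := stage_m k
  have eq' : (stage (k + 1)).q = (stage k).Q := stage_q k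
  have ea1 : (stage (k + 1)).a = 2 * (k + 1) + 1 := rfl
  have ea2 : (stage (k + 1)).a' = 2 * (k + 1) + 3 := rfl
  by_cases hg : Int.fract (u / dat.X (k + 1)) ∈ Set.Ioo (1 / 4 : ℝ) (3 / 4)
  · obtain ⟨h1, h2⟩ := htg hg
    obtain ⟨T, hT⟩ := (stage (k + 1)).step_good j n f (t (k + 1)) (k + 1) (by omega)
      (by rw [ea]; exact hs2) hs3 (by rw [em]; exact hs4) (by omega) h1 h2
    refine ⟨(k + 1, k + 1, 1), ⟨le_rfl, Or.inl rfl, le_rfl, stage_M (k + 1)⟩, by omega,
      fun _ => rfl, ∑ x ∈ T, (stage (k + 1)).val x, 0, ⟨T, rfl⟩, by simp, ?_⟩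
    rw [eq'] at hT
    simp only [Nat.cast_sum, Nat.cast_one]
    exact hT
  · obtain ⟨T, d, n', f', h1, h2, h3, h4, h5⟩ := (stage (k + 1)).step_keep j n f (t (k + 1))
      (by omega) (by omega) (by rw [ea]; exact hs2) hs3 (by rw [em]; exact hs4) htlt
    refine ⟨(j, n', f'), ⟨by simp only; omega, h1, h2, h3⟩, le_rfl, fun h => absurd h hg,
      ∑ x ∈ T, (stage (k + 1)).val x, d, ⟨T, rfl⟩, ?_, ?_⟩
    · have he : j ≤ (stage (k + 1)).e := by
        have := (stage (k + 1)).ha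
        omega
      have : (dat.M (k + 1) : ℤ) = 2 ^ ((stage (k + 1)).e - j) * 2 ^ j := by
        show (((stage (k + 1)).M : ℕ) : ℤ) = _
        unfold Stage.M
        rw [← pow_add]
        push_cast
        congr 1
        omega
      rw [this]
      exact mul_le_mul_of_nonneg_right h4 (by positivity)
    · rw [eq'] at h5
      simp only [Nat.cast_sum]
      exact h5

end GoodMem

open GoodMem in
/-- a real number with infinitely many good digits is in `U` -/
theorem good_mem_U (u : ℝ)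
    (hu : ∃ᶠ k in atTop, Int.fract (u / dat.X k) ∈ Set.Ioo (1 / 4 : ℝ) (3 / 4)) : u ∈ dat.U := by
  choose t ht htlt htg using digit u
  -- the starting stage
  obtain ⟨K, hK⟩ : ∃ K : ℕ, |⌊u / dat.X (K + 1)⌋ - 1| ≤ (dat.N K : ℤ) := by
    obtain ⟨K, hK⟩ := exists_nat_gt (|u| + 2)
    refine ⟨K, ?_⟩
    have hX := dat.X_pos (K + 1)
    have hX1 : dat.X (K + 1) ≤ 1 := (dat.X_le (K + 1)).trans (pow_le_one₀ (by norm_num) (by norm_num))
    have hN := dat.N_mul_X K
    have hM : (1 : ℝ) ≤ dat.M K := by exact_mod_cast dat.hM K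
    have h1 : |u| + 2 ≤ dat.N K * dat.X (K + 1) := by
      rw [hN]
      nlinarith [abs_nonneg u]
    have h2 : |u| / dat.X (K + 1) + 2 ≤ dat.N K := by
      have h3 : (|u| + 2) / dat.X (K + 1) ≤ dat.N K := by
        rw [div_le_iff₀ hX]
        exact h1
      have h4 : (2 : ℝ) ≤ 2 / dat.X (K + 1) := by
        rw [le_div_iff₀ hX]
        linarith
      rw [add_div] at h3
      linarith
    have h5 : |(⌊u / dat.X (K + 1)⌋ : ℝ) - 1| ≤ dat.N K := by
      have h6 := Int.floor_le (u / dat.X (K + 1))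
      have h7 := Int.lt_floor_add_one (u / dat.X (K + 1))
      have h8 : |u / dat.X (K + 1)| = |u| / dat.X (K + 1) := by
        rw [abs_div, abs_of_pos hX]
      have h9 := abs_le.mp (le_of_eq h8)
      rw [abs_le]
      constructor <;> linarith [h9.1, h9.2]
    have h10 : ((|⌊u / dat.X (K + 1)⌋ - 1| : ℤ) : ℝ) ≤ ((dat.N K : ℤ) : ℝ) := by
      push_cast
      exact h5
    exact_mod_cast h10
  -- the path
  obtain ⟨st, hst0, hst⟩ := dep_choice
    (fun k (s : ℕ × ℕ × ℕ) => s.1 ≤ k ∧ (s.2.1 = s.1 ∨ s.2.1 = 2 * (stage k).a' - s.1) ∧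
      1 ≤ s.2.2 ∧ s.2.2 ≤ (stage k).M)
    (fun k s s' => s.1 ≤ s'.1 ∧
      (Int.fract (u / dat.X (k + 1)) ∈ Set.Ioo (1 / 4 : ℝ) (3 / 4) → s'.1 = k + 1) ∧
      ∃ (σ : ℕ) (d : ℤ), (∃ T : Finset (dat.ι (k + 1)), ∑ x ∈ T, dat.val (k + 1) x = σ) ∧
        |d| * 2 ^ s.1 ≤ (dat.M (k + 1) : ℤ) ∧
        (t (k + 1) : ℤ) + (s.2.1 * (stage k).Q + s.2.2) * dat.C (k + 1) =
          σ + d + (s'.2.1 * (stage (k + 1)).Q + s'.2.2))
    K (0, 0, 1) ⟨Nat.zero_le _, Or.inl rfl, le_rfl, stage_M K⟩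
    (fun k _ s hs => step u t k (htlt _) (htg _) s hs.1 hs.2.1 hs.2.2.1 hs.2.2.2)
  have hmono : ∀ k, K ≤ k → (st k).1 ≤ (st (k + 1)).1 := fun k hk => (hst k hk).2.1
  have hgood : ∀ k, K ≤ k → Int.fract (u / dat.X (k + 1)) ∈ Set.Ioo (1 / 4 : ℝ) (3 / 4) →
      (st (k + 1)).1 = k + 1 := fun k hk => (hst k hk).2.2.1
  have hex : ∀ k, K ≤ k → ∃ (σ : ℕ) (d : ℤ),
      (∃ T : Finset (dat.ι (k + 1)), ∑ x ∈ T, dat.val (k + 1) x = σ) ∧
        |d| * 2 ^ (st k).1 ≤ (dat.M (k + 1) : ℤ) ∧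
        (t (k + 1) : ℤ) + ((st k).2.1 * (stage k).Q + (st k).2.2) * dat.C (k + 1) =
          σ + d + ((st (k + 1)).2.1 * (stage (k + 1)).Q + (st (k + 1)).2.2) :=
    fun k hk => (hst k hk).2.2.2
  choose! F D hF hD hFD using hex
  let σ : ℕ → ℕ := fun k => if K < k then F (k - 1) else 0
  let d : ℕ → ℤ := fun k => if K < k then D (k - 1) else
    if k = K then ⌊u / dat.X (K + 1)⌋ - 1 else 0
  have hσs : ∀ k, K ≤ k → σ (k + 1) = F k := by
    intro k hk
    simp only [σ]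
    rw [if_pos (by omega)]
    rfl
  have hds : ∀ k, K ≤ k → d (k + 1) = D k := by
    intro k hk
    simp only [d]
    rw [if_pos (by omega)]
    rfl
  -- the quality tends to infinity
  have hmono' : ∀ k l, K ≤ k → k ≤ l → (st k).1 ≤ (st l).1 := by
    intro k l hk hkl
    induction l, hkl using Nat.le_induction with
    | base => exact le_rfl
    | succ l hl ih => exact ih.trans (hmono l (hk.trans hl))
  have htop : Tendsto (fun k => (st k).1) atTop atTop := by
    rw [tendsto_atTop_atTop]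
    intro J
    obtain ⟨k, hk, hg⟩ := (frequently_atTop.mp hu) (J + K + 1)
    obtain ⟨i, rfl⟩ : ∃ i, k = i + 1 := ⟨k - 1, by omega⟩
    have h1 := hgood i (by omega) hg
    refine ⟨i + 1, fun l hl => ?_⟩
    have := hmono' (i + 1) l (by omega) hl
    omega
  have hMpos : ∀ k, (0 : ℝ) < dat.M k := fun k => by
    have := dat.hM k
    exact_mod_cast this
  refine ⟨σ, d, ?_, ?_, ?_, ?_⟩
  · intro k
    by_cases hk : K < k
    · obtain ⟨i, rfl⟩ : ∃ i, k = i + 1 := ⟨k - 1, by omega⟩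
      rw [hσs i (by omega)]
      exact hF i (by omega)
    · refine ⟨∅, ?_⟩
      simp only [σ]
      rw [if_neg hk]
      simp
  · intro k
    by_cases hk : K < k
    · obtain ⟨i, rfl⟩ : ∃ i, k = i + 1 := ⟨k - 1, by omega⟩
      rw [hds i (by omega)]
      have h1 := hD i (by omega)
      have h2 : (1 : ℤ) ≤ 2 ^ (st i).1 := one_le_pow₀ (by norm_num)
      have h3 : (dat.M (i + 1) : ℤ) ≤ dat.N (i + 1) := by exact_mod_cast M_le_N (i + 1)
      nlinarith [abs_nonneg (D i)]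
    · simp only [d]
      rw [if_neg hk]
      by_cases hk2 : k = K
      · rw [if_pos hk2, hk2]
        exact hK
      · rw [if_neg hk2]
        simp
  · rw [← tendsto_add_atTop_iff_nat 1]
    have hlim : Tendsto (fun k => ((1 / 2 : ℝ)) ^ (st k).1) atTop (𝓝 0) :=
      (tendsto_pow_atTop_nhds_zero_of_lt_one (by norm_num) (by norm_num)).comp htop
    refine squeeze_zero_norm' ?_ hlim
    filter_upwards [eventually_ge_atTop K] with k hk
    rw [hds k hk, Real.norm_eq_abs, abs_div, abs_of_pos (hMpos (k + 1)), div_le_iff₀ (hMpos (k + 1))]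
    have h1 : |(D k : ℝ)| * 2 ^ (st k).1 ≤ dat.M (k + 1) := by
      have := hD k hk
      have h2 : ((|D k| * 2 ^ (st k).1 : ℤ) : ℝ) ≤ ((dat.M (k + 1) : ℤ) : ℝ) := by exact_mod_cast this
      push_cast at h2
      exact h2
    have h3 : ((1 / 2 : ℝ)) ^ (st k).1 * 2 ^ (st k).1 = 1 := by
      rw [← mul_pow]
      norm_num
    calc |(D k : ℝ)| = ((1 / 2 : ℝ)) ^ (st k).1 * (|(D k : ℝ)| * 2 ^ (st k).1) := by
          rw [mul_comm (|(D k : ℝ)|), ← mul_assoc, h3, one_mul]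
      _ ≤ ((1 / 2 : ℝ)) ^ (st k).1 * dat.M (k + 1) := by
          gcongr
  · -- the partial sums
    have hsum : ∀ n, K ≤ n → ∑ k ∈ Finset.range (n + 1), ((σ k : ℝ) + d k) * dat.X (k + 1) =
        ((⌊u / dat.X (n + 1)⌋ : ℝ) - ((st n).2.1 * (stage n).Q + (st n).2.2)) * dat.X (n + 1) := by
      intro n hn
      induction n, hn using Nat.le_induction with
      | base =>
        rw [Finset.sum_range_succ, Finset.sum_eq_zero, hst0]
        · simp [σ, d]
        · intro i hi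
          have hi' := Finset.mem_range.mp hi
          simp only [σ, d]
          rw [if_neg (by omega), if_neg (by omega), if_neg (by omega)]
          simp
      | succ n hn ih =>
        rw [Finset.sum_range_succ, ih, hσs n hn, hds n hn]
        have hX2 := dat.X_succ (n + 1)
        have h1 : ((⌊u / dat.X (n + 1 + 1)⌋ : ℤ) : ℝ) =
            (((dat.C (n + 1) : ℤ) * ⌊u / dat.X (n + 1)⌋ + t (n + 1) : ℤ) : ℝ) := by
          rw [ht (n + 1)]
        have h2 : (((t (n + 1) : ℤ) + ((st n).2.1 * (stage n).Q + (st n).2.2) * dat.C (n + 1) : ℤ) : ℝ) =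
            ((F n + D n + ((st (n + 1)).2.1 * (stage (n + 1)).Q + (st (n + 1)).2.2) : ℤ) : ℝ) := by
          rw [hFD n hn]
        push_cast at h1 h2
        rw [h1]
        linear_combination ((⌊u / dat.X (n + 1)⌋ : ℝ) - (((st n).2.1 : ℝ) * (stage n).Q + (st n).2.2)) * hX2 -
          dat.X (n + 1 + 1) * h2
    rw [← tendsto_add_atTop_iff_nat 1]
    rw [tendsto_iff_dist_tendsto_zero]
    have hlim : Tendsto (fun n : ℕ => ((1 / 2 : ℝ)) ^ n) atTop (𝓝 0) :=
      tendsto_pow_atTop_nhds_zero_of_lt_one (by norm_num) (by norm_num)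
    refine squeeze_zero' (Eventually.of_forall fun _ => dist_nonneg) ?_ hlim
    filter_upwards [eventually_ge_atTop K] with n hn
    rw [hsum n hn, Real.dist_eq]
    have hX := dat.X_pos (n + 1)
    obtain ⟨hs1, hs2, hs3, hs4⟩ := (hst n hn).1
    have hle := state_le n (st n).2.1 (st n).2.2 (by
      have ea2 : (stage n).a' = 2 * n + 3 := rfl
      omega) hs4
    have hle' : ((st n).2.1 : ℝ) * (stage n).Q + (st n).2.2 + 1 ≤ dat.C n := by
      have : (stage n).C = dat.C n := rfl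
      rw [this] at hle
      exact_mod_cast hle
    have hXn : dat.X n = dat.C n * dat.X (n + 1) := dat.X_succ n
    have hXle := dat.X_le n
    have hv : |u - (⌊u / dat.X (n + 1)⌋ : ℝ) * dat.X (n + 1)| ≤ dat.X (n + 1) := by
      have e : u = u / dat.X (n + 1) * dat.X (n + 1) := by field_simp
      have h6 := Int.floor_le (u / dat.X (n + 1))
      have h7 := Int.lt_floor_add_one (u / dat.X (n + 1))
      rw [abs_le]
      constructor
      · nlinarith
      · nlinarith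
    set s : ℝ := ((st n).2.1 : ℝ) * (stage n).Q + (st n).2.2 with hs
    have hs0 : 0 ≤ s := by positivity
    obtain ⟨h8, h9⟩ := abs_le.mp hv
    have h10 : (s + 1) * dat.X (n + 1) ≤ dat.X n := by
      rw [hXn]
      exact mul_le_mul_of_nonneg_right hle' hX.le
    rw [abs_le]
    constructor <;> nlinarith

end Ach
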