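import Pool.Agent.H674.AchF.Carry

/-! Achievement sets: the locked state and its cost. -/

open Filter Topology
set_option autoImplicit false
set_option relaxedAutoImplicit false

namespace Ach

namespace Stage
variable (s : Stage)

theorem lock_M_pos : (2 : ℤ) ≤ (s.M : ℤ) := by
  have h : 2 ^ 1 ≤ 2 ^ s.e := Nat.pow_le_pow_right (by norm_num) s.he
  have h2 : 2 ≤ s.M := by simpa [M] using h
  exact_mod_cast h2

theorem lock_Q : (s.Q : ℤ) = (2 * s.a' + 4) * s.M := by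
  simp [Q]

theorem lock_P : (s.P : ℤ) = (2 * s.M + 1) * (8 * s.M) := by
  simp [P]

theorem lock_C : (s.C : ℤ) = s.P * s.Q := by
  simp [C]

theorem lock_t : (s.t : ℤ) = (2 * s.a' + 1) * ((s.a' + 2) * s.M) := by
  simp [t]

theorem lock_a' : (s.a' : ℤ) + 2 ≤ 2 * s.M := by
  have h := s.ha'
  have h2 : s.a' + 2 ≤ 2 * s.M := by simpa [M] using h
  exact_mod_cast h2

theorem lock_aux {M a' Q PP C t : ℤ} (hM : 2 ≤ M) (ha : 0 ≤ a') (h : a' + 2 ≤ 2 * M)
    (hQ : Q = (2 * a' + 4) * M) (hP : PP = (2 * M + 1) * (8 * M)) (hC : C = PP * Q)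
    (ht : t = (2 * a' + 1) * ((a' + 2) * M)) :
    4 * M ≤ Q ∧ 8 * M ≤ PP ∧ 0 < C ∧ t ≤ (a' + 1) * Q ∧
      (2 * a' * Q + M + 3) + (a' + 1) * Q + (a' + 1) * M + M < C := by
  have hM0 : 0 ≤ M := by linarith
  have haM : 0 ≤ a' * M := mul_nonneg ha hM0
  have h1 : 4 * M ≤ Q := by
    rw [hQ]
    linarith
  have hMM : 0 ≤ M * M := mul_nonneg hM0 hM0
  have h2 : 8 * M ≤ PP := by
    rw [hP]
    linarith
  have hQ0 : 0 < Q := by linarith
  have h3 : 0 < C := by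
    rw [hC]
    exact mul_pos (by linarith) hQ0
  have h4 : t ≤ (a' + 1) * Q := by
    rw [ht, hQ]
    have : 0 ≤ a' * (a' * M) := mul_nonneg ha haM
    linarith
  refine ⟨h1, h2, h3, h4, ?_⟩
  have e1 : (3 * a' + 1) * Q ≤ (6 * M) * Q := mul_le_mul_of_nonneg_right (by linarith) hQ0.le
  have e2 : (a' + 3) * M + 3 ≤ 2 * Q := by
    rw [hQ]
    linarith
  have e3 : (8 * M) * Q ≤ PP * Q := mul_le_mul_of_nonneg_right h2 hQ0.le
  have e4 : 2 * 2 * Q ≤ 2 * M * Q := mul_le_mul_of_nonneg_right (by linarith) hQ0.le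
  rw [hC]
  linarith

/-- locked: if the target digit is bad then the state is determined -/
theorem state_eq (T : Finset s.I) (d m0 m1 : ℤ) (hd : |d| ≤ s.M)
    (hm1 : |m1| ≤ 2 * s.a' * s.Q + s.M + 3)
    (h : (s.t : ℤ) + m0 * s.C = (∑ x ∈ T, (s.val x : ℤ)) + d + m1) :
    ∃ f : ℤ, 0 ≤ f ∧ f ≤ s.m + 1 ∧ m0 = s.nE T * s.q + f := by
  obtain ⟨i, θ, r, p, hi, hp, hθ, hr1, hr2, hsum⟩ := s.decomp T
  rw [hsum] at h
  have hn := s.nE_le T
  generalize s.nE T = n at *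
  have hM := s.lock_M_pos
  have hQ := s.lock_Q
  have hP := s.lock_P
  have hC := s.lock_C
  have ht := s.lock_t
  have ha'M := s.lock_a'
  have haa : (s.a : ℤ) ≤ s.a' := by exact_mod_cast s.haa
  have ha0 : (0 : ℤ) ≤ s.a := by positivity
  have hp0 : (0 : ℤ) ≤ p := by positivity
  have hp' : (p : ℤ) ≤ s.P := by exact_mod_cast hp
  have hi' : (i : ℤ) ≤ s.m := by exact_mod_cast hi
  have hi0 : (0 : ℤ) ≤ i := by positivity
  have ha'0 : (0 : ℤ) ≤ s.a' := by positivity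
  -- bound of θ
  have hj : min n (2 * s.a - n) ≤ s.a := by omega
  have hθ2 : |θ| ≤ (s.a' + 1) * s.M := by
    refine hθ.trans ?_
    unfold Dj
    have h1 : (0 : ℤ) ≤ 2 ^ (s.e - min n (2 * s.a - n)) := by positivity
    have h2 : ((min n (2 * s.a - n) : ℕ) : ℤ) ≤ s.a := by exact_mod_cast hj
    have h3 : ((min n (2 * s.a - n) : ℕ) + 1 : ℤ) * s.M ≤ (s.a' + 1) * s.M :=
      mul_le_mul_of_nonneg_right (by linarith) (by linarith)
    linarith
  set M : ℤ := (s.M : ℤ) with hMdef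
  set a' : ℤ := (s.a' : ℤ) with ha'def
  set Q : ℤ := (s.Q : ℤ) with hQdef
  set PP : ℤ := (s.P : ℤ) with hPdef
  set C : ℤ := (s.C : ℤ) with hCdef
  obtain ⟨hQpos, hPpos, hCpos, k3, k6⟩ := lock_aux hM ha'0 ha'M hQ hP hC ht
  have hQ0 : 0 < Q := by linarith
  set E : ℤ := m0 - n * s.q - i with hE
  have hEC : E * C = θ + (p * Q + r) + d + m1 - s.t := by
    rw [hE]
    linear_combination h
  have k1 : 0 ≤ p * Q + r := by
    have h1 := (abs_le.1 hr1).1
    have h2 : M * p ≤ Q * p := mul_le_mul_of_nonneg_right (by linarith) hp0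
    linarith
  have k2 : p * Q + r ≤ C := by
    have h1 := (abs_le.1 hr2).2
    have h2 : M * (PP - p) ≤ Q * (PP - p) := mul_le_mul_of_nonneg_right (by linarith) (by linarith)
    rw [hC]
    linarith
  have k4 : (0 : ℤ) ≤ s.t := by positivity
  obtain ⟨t1, t2⟩ := abs_le.1 hθ2
  obtain ⟨d1, d2⟩ := abs_le.1 hd
  obtain ⟨m1', m2'⟩ := abs_le.1 hm1
  have hE0 : -1 < E := by
    by_contra! hc
    have : E * C ≤ -1 * C := mul_le_mul_of_nonneg_right hc hCpos.le
    linarith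
  have hE1 : E < 2 := by
    by_contra! hc
    have : 2 * C ≤ E * C := mul_le_mul_of_nonneg_right hc hCpos.le
    linarith
  refine ⟨i + E, by omega, by omega, ?_⟩
  rw [hE]
  ring

/-- locked: the cost of a bad digit -/
theorem cost (T : Finset s.I) (d m0 m1 : ℤ) (hd : |d| ≤ s.M) (n' : ℕ) (f' : ℤ)
    (hn' : n' ≤ 2 * s.a') (hf0 : 0 ≤ f') (hf1 : f' ≤ s.M + 1) (hm1 : m1 = n' * s.Q + f')
    (h : (s.t : ℤ) + m0 * s.C = (∑ x ∈ T, (s.val x : ℤ)) + d + m1) :
    ((min n' (2 * s.a' - n') : ℕ) + 1 : ℤ) * s.M - 1 - s.Dj (min (s.nE T) (2 * s.a - s.nE T)) ≤ |d| := by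
  obtain ⟨i, θ, r, p, hi, hp, hθ, hr1, hr2, hsum⟩ := s.decomp T
  rw [hsum] at h
  have hn := s.nE_le T
  generalize hDD : s.Dj (min (s.nE T) (2 * s.a - s.nE T)) = DD at *
  have hj : min (s.nE T) (2 * s.a - s.nE T) ≤ s.a := by omega
  generalize s.nE T = n at *
  have hM := s.lock_M_pos
  have hQ := s.lock_Q
  have hP := s.lock_P
  have hC := s.lock_C
  have ht := s.lock_t
  have ha'M := s.lock_a'
  have haa : (s.a : ℤ) ≤ s.a' := by exact_mod_cast s.haa
  have ha0 : (0 : ℤ) ≤ s.a := by positivity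
  have hp0 : (0 : ℤ) ≤ p := by positivity
  have hp' : (p : ℤ) ≤ s.P := by exact_mod_cast hp
  have hi' : (i : ℤ) ≤ s.m := by exact_mod_cast hi
  have hi0 : (0 : ℤ) ≤ i := by positivity
  have ha'0 : (0 : ℤ) ≤ s.a' := by positivity
  have hθ2 : |θ| ≤ (s.a' + 1) * s.M := by
    refine hθ.trans ?_
    rw [← hDD]
    unfold Dj
    have h1 : (0 : ℤ) ≤ 2 ^ (s.e - min n (2 * s.a - n)) := by positivity
    have h2 : ((min n (2 * s.a - n) : ℕ) : ℤ) ≤ s.a := by exact_mod_cast hj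
    have h3 : ((min n (2 * s.a - n) : ℕ) + 1 : ℤ) * s.M ≤ (s.a' + 1) * s.M :=
      mul_le_mul_of_nonneg_right (by linarith) (by linarith)
    linarith
  -- the quality
  have hn'2 : (n' : ℤ) ≤ 2 * s.a' := by exact_mod_cast hn'
  have hn'0 : (0 : ℤ) ≤ n' := by positivity
  have hqa : ((min n' (2 * s.a' - n') : ℕ) : ℤ) ≤ s.a' - |(s.a' : ℤ) - n'| := by
    rcases abs_cases ((s.a' : ℤ) - n') with ⟨h1, h2⟩ | ⟨h1, h2⟩ <;> omega
  have hqa1 : ((min n' (2 * s.a' - n') : ℕ) : ℤ) ≤ n' := by omega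
  have hqa2 : ((min n' (2 * s.a' - n') : ℕ) : ℤ) ≤ 2 * s.a' - n' := by omega
  clear hqa
  generalize ((min n' (2 * s.a' - n') : ℕ) : ℤ) = g at *
  set M : ℤ := (s.M : ℤ) with hMdef
  set a' : ℤ := (s.a' : ℤ) with ha'def
  set Q : ℤ := (s.Q : ℤ) with hQdef
  set PP : ℤ := (s.P : ℤ) with hPdef
  set C : ℤ := (s.C : ℤ) with hCdef
  obtain ⟨hQpos, hPpos, hCpos, k3, k6⟩ := lock_aux hM ha'0 ha'M hQ hP hC ht
  have hQ0 : 0 < Q := by linarith
  set E : ℤ := m0 - n * s.q - i with hE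
  have hEC : E * C = θ + (p * Q + r) + d + m1 - s.t := by
    rw [hE]
    linear_combination h
  have k1 : 0 ≤ p * Q + r := by
    have h1 := (abs_le.1 hr1).1
    have h2 : M * p ≤ Q * p := mul_le_mul_of_nonneg_right (by linarith) hp0
    linarith
  have k2 : p * Q + r ≤ C := by
    have h1 := (abs_le.1 hr2).2
    have h2 : M * (PP - p) ≤ Q * (PP - p) := mul_le_mul_of_nonneg_right (by linarith) (by linarith)
    rw [hC]
    linarith
  have k4 : (0 : ℤ) ≤ s.t := by positivity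
  have m2' : m1 ≤ 2 * a' * Q + M + 3 := by
    rw [hm1]
    have : (n' : ℤ) * Q ≤ 2 * a' * Q := mul_le_mul_of_nonneg_right hn'2 hQ0.le
    linarith
  have m1' : 0 ≤ m1 := by
    rw [hm1]
    have : 0 ≤ (n' : ℤ) * Q := mul_nonneg hn'0 hQ0.le
    linarith
  obtain ⟨t1, t2⟩ := abs_le.1 hθ2
  obtain ⟨d1, d2⟩ := abs_le.1 hd
  have hE0 : -1 < E := by
    by_contra! hc
    have : E * C ≤ -1 * C := mul_le_mul_of_nonneg_right hc hCpos.le
    linarith
  have hE1 : E < 2 := by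
    by_contra! hc
    have : 2 * C ≤ E * C := mul_le_mul_of_nonneg_right hc hCpos.le
    linarith
  obtain ⟨u1, u2⟩ := abs_le.1 hθ
  obtain ⟨r1, r2⟩ := abs_le.1 hr1
  obtain ⟨r3, r4⟩ := abs_le.1 hr2
  have hM0 : 0 ≤ M := by linarith
  have g1 : (g + 1) * M ≤ (n' + 1) * M := mul_le_mul_of_nonneg_right (by linarith) hM0
  have g2 : (g + 1) * M ≤ (2 * a' - n' + 1) * M := mul_le_mul_of_nonneg_right (by linarith) hM0
  have hEE : E = 0 ∨ E = 1 := by omega
  rcases hEE with hz | hz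
  · rw [hz, zero_mul, hm1, ht] at hEC
    have hdd : d = (a' - n' - p) * Q + (a' + 2) * M - r - f' - θ := by
      rw [hQ] at hEC ⊢
      linear_combination -hEC
    rcases le_or_gt (p : ℤ) (a' - n') with hc | hc
    · refine le_trans ?_ (le_abs_self d)
      have h1 : 0 ≤ (a' - n' - p) * (Q + M) := mul_nonneg (by linarith) (by linarith)
      rw [hdd]
      linarith
    · refine le_trans ?_ (neg_le_abs d)
      have h1 : 0 ≤ (p - (a' - n') - 1) * (Q - M) := mul_nonneg (by linarith) (by linarith)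
      rw [hdd]
      have hQ' : Q = (2 * a' + 4) * M := hQ
      linarith
  · rw [hz, one_mul, hm1, ht, hC] at hEC
    have hdd : d = (a' - n' + (PP - p)) * Q + (a' + 2) * M - r - f' - θ := by
      rw [hQ] at hEC ⊢
      linear_combination -hEC
    rcases le_or_gt 0 (a' - n' + (PP - p)) with hc | hc
    · refine le_trans ?_ (le_abs_self d)
      have h1 : 0 ≤ (a' - n' + (PP - p)) * (Q - M) := mul_nonneg (by linarith) (by linarith)
      rw [hdd]
      linarith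
    · refine le_trans ?_ (neg_le_abs d)
      have h1 : 0 ≤ (-(a' - n' + (PP - p)) - 1) * (Q + M) := mul_nonneg (by linarith) (by linarith)
      rw [hdd]
      have hQ' : Q = (2 * a' + 4) * M := hQ
      linarith

end Stage
end Ach
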