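import Pool.Agent.H674.AchF.Series

/-! Achievement sets: all points above `U` are achieved. -/

open Filter Topology MeasureTheory
set_option autoImplicit false
set_option relaxedAutoImplicit false

namespace Ach
namespace Dat

theorem ma_window (g : ℕ → ℝ) (a b : ℕ) (hab : a ≤ b) (j : ℕ) :
    ∑ i ∈ Finset.range j, (if a ≤ i ∧ i < b then g (i - a) else 0) =
      ∑ i ∈ Finset.range (min j b - a), g i := by
  induction j with
  | zero => simp
  | succ j ih =>
    rw [Finset.sum_range_succ, ih]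
    by_cases h : a ≤ j ∧ j < b
    · rw [if_pos h]
      have h1 : min j b - a = j - a := by omega
      have h2 : min (j + 1) b - a = (j - a) + 1 := by omega
      rw [h1, h2, Finset.sum_range_succ]
    · rw [if_neg h, add_zero]
      have h1 : min j b - a = min (j + 1) b - a := by omega
      rw [h1]

variable (D : Dat)

/-- the selected positions -/
def maP (T : ∀ k, Finset (D.ι k)) (d e : ℕ → ℤ) (k j : ℕ) : Prop :=
  if h : j < D.c k then (Fintype.equivFin (D.ι k)).symm ⟨j, h⟩ ∈ T k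
  else if j < D.c k + 2 * D.N k then sel (d k) (j - D.c k)
  else sel (e k) (j - (D.c k + 2 * D.N k))

open Classical in
noncomputable def maA (T : ∀ k, Finset (D.ι k)) (k j : ℕ) : ℝ :=
  if h : j < D.c k then (if (Fintype.equivFin (D.ι k)).symm ⟨j, h⟩ ∈ T k then
    (D.val k ((Fintype.equivFin (D.ι k)).symm ⟨j, h⟩) : ℝ) else 0) else 0

open Classical in
noncomputable def maS (d : ℤ) (i : ℕ) : ℝ := if sel d i then (-1 : ℝ) ^ i else 0

noncomputable def maB (d : ℕ → ℤ) (k j : ℕ) : ℝ :=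
  if D.c k ≤ j ∧ j < D.c k + 2 * D.N k then maS (d k) (j - D.c k) else 0

noncomputable def maE (e : ℕ → ℤ) (k j : ℕ) : ℝ :=
  if D.c k + 2 * D.N k ≤ j ∧ j < D.ℓ k then maS (e k) (j - (D.c k + 2 * D.N k)) else 0

open Classical in
theorem ma_term (T : ∀ k, Finset (D.ι k)) (d e : ℕ → ℤ) (k j : ℕ) (hj : j < D.ℓ k) :
    (if D.maP T d e k j then D.vec k j else 0) =
      ((D.maA T k j + D.maB d k j) * D.X (k + 1), (D.maB d k j + D.maE e k j) * (D.M k : ℝ)⁻¹) := by
  by_cases h1 : j < D.c k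
  · have hA : D.maA T k j = if (Fintype.equivFin (D.ι k)).symm ⟨j, h1⟩ ∈ T k then
        (D.val k ((Fintype.equivFin (D.ι k)).symm ⟨j, h1⟩) : ℝ) else 0 := by
      unfold maA; rw [dif_pos h1]
    have hB : D.maB d k j = 0 := by
      unfold maB; rw [if_neg (by omega)]
    have hE : D.maE e k j = 0 := by
      unfold maE; rw [if_neg (by omega)]
    have hP : D.maP T d e k j ↔ (Fintype.equivFin (D.ι k)).symm ⟨j, h1⟩ ∈ T k := by
      unfold maP; rw [dif_pos h1]
    have hV : D.vec k j = ((D.val k ((Fintype.equivFin (D.ι k)).symm ⟨j, h1⟩) : ℝ) * D.X (k + 1), 0) := by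
      unfold vec; rw [dif_pos h1]
    rw [hA, hB, hE, hV]
    by_cases hp : (Fintype.equivFin (D.ι k)).symm ⟨j, h1⟩ ∈ T k
    · rw [if_pos (hP.2 hp), if_pos hp]
      simp
    · rw [if_neg (fun h => hp (hP.1 h)), if_neg hp]
      simp
      rfl
  · by_cases h2 : j < D.c k + 2 * D.N k
    · have hA : D.maA T k j = 0 := by
        unfold maA; rw [dif_neg h1]
      have hB : D.maB d k j = maS (d k) (j - D.c k) := by
        unfold maB; rw [if_pos (by omega)]
      have hE : D.maE e k j = 0 := by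
        unfold maE; rw [if_neg (by omega)]
      have hP : D.maP T d e k j ↔ sel (d k) (j - D.c k) := by
        unfold maP; rw [dif_neg h1, if_pos h2]
      have hV : D.vec k j =
          ((-1 : ℝ) ^ (j - D.c k) * D.X (k + 1), (-1 : ℝ) ^ (j - D.c k) * (D.M k : ℝ)⁻¹) := by
        unfold vec; rw [dif_neg h1, if_pos h2]
      rw [hA, hB, hE, hV]
      unfold maS
      by_cases hp : sel (d k) (j - D.c k)
      · rw [if_pos (hP.2 hp), if_pos hp]
        simp
      · rw [if_neg (fun h => hp (hP.1 h)), if_neg hp]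
        simp
        rfl
    · have hA : D.maA T k j = 0 := by
        unfold maA; rw [dif_neg h1]
      have hB : D.maB d k j = 0 := by
        unfold maB; rw [if_neg (by omega)]
      have hE : D.maE e k j = maS (e k) (j - (D.c k + 2 * D.N k)) := by
        unfold maE; rw [if_pos (by omega)]
      have hP : D.maP T d e k j ↔ sel (e k) (j - (D.c k + 2 * D.N k)) := by
        unfold maP; rw [dif_neg h1, if_neg h2]
      have hV : D.vec k j = (0, (-1 : ℝ) ^ (j - (D.c k + 2 * D.N k)) * (D.M k : ℝ)⁻¹) := by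
        unfold vec; rw [dif_neg h1, if_neg h2]
      rw [hA, hB, hE, hV]
      unfold maS
      by_cases hp : sel (e k) (j - (D.c k + 2 * D.N k))
      · rw [if_pos (hP.2 hp), if_pos hp]
        simp
      · rw [if_neg (fun h => hp (hP.1 h)), if_neg hp]
        simp
        rfl

theorem maA_nonneg (T : ∀ k, Finset (D.ι k)) (k j : ℕ) : 0 ≤ D.maA T k j := by
  unfold maA
  split_ifs <;> positivity

open Classical in
theorem maA_total (T : ∀ k, Finset (D.ι k)) (k j : ℕ) (hj : D.c k ≤ j) :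
    ∑ i ∈ Finset.range j, D.maA T k i = ∑ t ∈ T k, (D.val k t : ℝ) := by
  have h1 : ∑ i ∈ Finset.range j, D.maA T k i = ∑ i ∈ Finset.range (D.c k), D.maA T k i := by
    symm
    refine Finset.sum_subset (Finset.range_subset_range.2 hj) fun i _ hi => ?_
    rw [Finset.mem_range] at hi
    unfold maA
    rw [dif_neg hi]
  rw [h1, ← Fin.sum_univ_eq_sum_range]
  have h2 : ∀ i : Fin (D.c k), D.maA T k (i : ℕ) =
      (fun t : D.ι k => if t ∈ T k then (D.val k t : ℝ) else 0) ((Fintype.equivFin (D.ι k)).symm i) := by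
    intro i
    unfold maA
    rw [dif_pos i.2]
    rfl
  rw [Finset.sum_congr rfl fun i _ => h2 i]
  have h3 : ∑ i : Fin (D.c k), (fun t : D.ι k => if t ∈ T k then (D.val k t : ℝ) else 0)
      ((Fintype.equivFin (D.ι k)).symm i) = ∑ t, (fun t : D.ι k => if t ∈ T k then (D.val k t : ℝ) else 0) t :=
    Equiv.sum_comp (Fintype.equivFin (D.ι k)).symm (fun t : D.ι k => if t ∈ T k then (D.val k t : ℝ) else 0)
  rw [h3]
  dsimp only
  rw [← Finset.sum_filter]
  refine Finset.sum_congr ?_ fun _ _ => rfl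
  ext t
  simp

theorem maA_le (T : ∀ k, Finset (D.ι k)) (k j : ℕ) :
    ∑ i ∈ Finset.range j, D.maA T k i ≤ ∑ t, (D.val k t : ℝ) := by
  calc ∑ i ∈ Finset.range j, D.maA T k i ≤ ∑ i ∈ Finset.range (max j (D.c k)), D.maA T k i :=
        Finset.sum_le_sum_of_subset_of_nonneg (Finset.range_subset_range.2 (le_max_left _ _))
          fun i _ _ => D.maA_nonneg T k i
    _ = ∑ t ∈ T k, (D.val k t : ℝ) := D.maA_total T k _ (le_max_right _ _)
    _ ≤ ∑ t, (D.val k t : ℝ) :=
        Finset.sum_le_sum_of_subset_of_nonneg (Finset.subset_univ _) fun i _ _ => by positivity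

theorem maS_total (d : ℤ) (n : ℕ) (hd : |d| ≤ n) : ∑ i ∈ Finset.range (2 * n), maS d i = d := by
  classical
  have := sel_sum d n hd
  unfold maS
  convert this

theorem maS_le (d : ℤ) (j : ℕ) : |∑ i ∈ Finset.range j, maS d i| ≤ |(d : ℝ)| := by
  classical
  have := sel_sum_le d j
  unfold maS
  convert this

theorem maB_le (d : ℕ → ℤ) (k j : ℕ) : |∑ i ∈ Finset.range j, D.maB d k i| ≤ |(d k : ℝ)| := by
  unfold maB
  rw [ma_window (maS (d k)) (D.c k) (D.c k + 2 * D.N k) (by omega) j]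
  exact maS_le _ _

theorem maB_total (d : ℕ → ℤ) (k : ℕ) (hd : |d k| ≤ (D.N k : ℤ)) :
    ∑ i ∈ Finset.range (D.ℓ k), D.maB d k i = d k := by
  unfold maB
  rw [ma_window (maS (d k)) (D.c k) (D.c k + 2 * D.N k) (by omega) _]
  have : min (D.ℓ k) (D.c k + 2 * D.N k) - D.c k = 2 * D.N k := by
    unfold ℓ
    omega
  rw [this]
  exact maS_total _ _ hd

theorem maE_le (e : ℕ → ℤ) (k j : ℕ) : |∑ i ∈ Finset.range j, D.maE e k i| ≤ |(e k : ℝ)| := by
  unfold maE
  rw [ma_window (maS (e k)) (D.c k + 2 * D.N k) (D.ℓ k) (by unfold ℓ; omega) j]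
  exact maS_le _ _

theorem maE_total (e : ℕ → ℤ) (k : ℕ) (he : |e k| ≤ (D.N' k : ℤ)) :
    ∑ i ∈ Finset.range (D.ℓ k), D.maE e k i = e k := by
  unfold maE
  rw [ma_window (maS (e k)) (D.c k + 2 * D.N k) (D.ℓ k) (by unfold ℓ; omega) _]
  have : min (D.ℓ k) (D.ℓ k) - (D.c k + 2 * D.N k) = 2 * D.N' k := by
    unfold ℓ
    omega
  rw [this]
  exact maS_total _ _ he

theorem ma_sum (T : ∀ k, Finset (D.ι k)) (d e : ℕ → ℤ) (k j : ℕ) :
    ∑ i ∈ Finset.range j, (((D.maA T k i + D.maB d k i) * D.X (k + 1),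
      (D.maB d k i + D.maE e k i) * (D.M k : ℝ)⁻¹) : ℝ × ℝ) =
    ((∑ i ∈ Finset.range j, D.maA T k i + ∑ i ∈ Finset.range j, D.maB d k i) * D.X (k + 1),
      (∑ i ∈ Finset.range j, D.maB d k i + ∑ i ∈ Finset.range j, D.maE e k i) * (D.M k : ℝ)⁻¹) := by
  rw [← Finset.sum_add_distrib, ← Finset.sum_add_distrib, Finset.sum_mul, Finset.sum_mul]
  refine Prod.ext ?_ ?_
  · rw [Prod.fst_sum]
  · rw [Prod.snd_sum]

/-- the remainder of the second coordinate before block `k` -/
noncomputable def maR (v : ℝ) (K : ℕ) (d : ℕ → ℤ) : ℕ → ℝ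
  | 0 => v
  | k + 1 => (maR v K d k - (d k : ℝ) / D.M k) -
      ((if k < K then 0 else round ((maR v K d k - (d k : ℝ) / D.M k) * D.M k) : ℤ) : ℝ) / D.M k

/-- the correction in block `k` -/
noncomputable def mae (v : ℝ) (K : ℕ) (d : ℕ → ℤ) (k : ℕ) : ℤ :=
  if k < K then 0 else round ((D.maR v K d k - (d k : ℝ) / D.M k) * D.M k)

theorem maR_succ (v : ℝ) (K : ℕ) (d : ℕ → ℤ) (k : ℕ) :
    D.maR v K d (k + 1) = D.maR v K d k - ((d k : ℝ) + D.mae v K d k) / D.M k := by
  have h : D.maR v K d (k + 1) = (D.maR v K d k - (d k : ℝ) / D.M k) - (D.mae v K d k : ℝ) / D.M k := rfl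
  rw [h]
  ring

theorem maR_sum (v : ℝ) (K : ℕ) (d : ℕ → ℤ) (k : ℕ) :
    ∑ i ∈ Finset.range k, ((d i : ℝ) + D.mae v K d i) / D.M i = v - D.maR v K d k := by
  induction k with
  | zero => simp [maR]
  | succ k ih =>
    rw [Finset.sum_range_succ, ih, maR_succ]
    ring

theorem maR_small (v : ℝ) (K : ℕ) (d : ℕ → ℤ) (k : ℕ) (hk : K ≤ k) :
    |D.maR v K d (k + 1)| ≤ 1 / D.M k := by
  have hM : (0 : ℝ) < D.M k := by exact_mod_cast D.hM k
  have h : D.maR v K d (k + 1) = (D.maR v K d k - (d k : ℝ) / D.M k) - (D.mae v K d k : ℝ) / D.M k := rfl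
  obtain ⟨w, hw⟩ : ∃ w : ℝ, w = D.maR v K d k - (d k : ℝ) / D.M k := ⟨_, rfl⟩
  have he : D.mae v K d k = round (w * D.M k) := by
    unfold mae
    rw [if_neg (by omega), hw]
  rw [h, ← hw, he]
  have h1 := abs_sub_round (w * D.M k)
  have h2 : w - (round (w * D.M k) : ℝ) / D.M k = (w * D.M k - round (w * D.M k)) / D.M k := by
    field_simp
  rw [h2, abs_div, abs_of_pos hM]
  exact div_le_div_of_nonneg_right (by linarith) hM.le

theorem maR_bound (v : ℝ) (K : ℕ) (hv : |v| ≤ K) (d : ℕ → ℤ) (hd : ∀ k, |d k| ≤ (D.N k : ℤ)) (k : ℕ) :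
    |D.maR v K d k| ≤ (K : ℝ) + 1 + ∑ i ∈ Finset.range k, (D.N i : ℝ) := by
  rcases Nat.lt_or_ge K k with hk | hk
  · obtain ⟨k', rfl⟩ : ∃ k', k = k' + 1 := ⟨k - 1, by omega⟩
    have h1 := D.maR_small v K d k' (by omega)
    have hM : (1 : ℝ) ≤ D.M k' := by exact_mod_cast D.hM k'
    have h2 : (1 : ℝ) / D.M k' ≤ 1 := by
      rw [div_le_one (by linarith)]
      exact hM
    have h3 : (0 : ℝ) ≤ ∑ i ∈ Finset.range (k' + 1), (D.N i : ℝ) :=
      Finset.sum_nonneg fun i _ => Nat.cast_nonneg _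
    have h4 : (0 : ℝ) ≤ K := Nat.cast_nonneg _
    linarith
  · have h : ∀ j ≤ K, |D.maR v K d j| ≤ (K : ℝ) + ∑ i ∈ Finset.range j, (D.N i : ℝ) := by
      intro j
      induction j with
      | zero => intro _; simpa [maR] using hv
      | succ j ih =>
        intro hj
        have ih' := ih (by omega)
        rw [maR_succ]
        have he : D.mae v K d j = 0 := by
          unfold mae
          rw [if_pos (by omega)]
        rw [he, Finset.sum_range_succ]
        have hM : (1 : ℝ) ≤ D.M j := by exact_mod_cast D.hM j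
        have hdj : |(d j : ℝ)| ≤ D.N j := by exact_mod_cast hd j
        have h1 : |((d j : ℝ) + ((0 : ℤ) : ℝ)) / D.M j| ≤ D.N j := by
          rw [Int.cast_zero, add_zero, abs_div, abs_of_pos (by linarith : (0 : ℝ) < D.M j),
            div_le_iff₀ (by linarith)]
          calc |(d j : ℝ)| ≤ D.N j := hdj
            _ = D.N j * 1 := (mul_one _).symm
            _ ≤ D.N j * D.M j := mul_le_mul_of_nonneg_left hM (Nat.cast_nonneg _)
        calc |D.maR v K d j - ((d j : ℝ) + ((0 : ℤ) : ℝ)) / D.M j|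
            ≤ |D.maR v K d j| + |((d j : ℝ) + ((0 : ℤ) : ℝ)) / D.M j| := abs_sub _ _
          _ ≤ _ := by linarith
    have := h k hk
    linarith

theorem mae_le (v : ℝ) (K : ℕ) (hv : |v| ≤ K) (d : ℕ → ℤ) (hd : ∀ k, |d k| ≤ (D.N k : ℤ)) (k : ℕ) :
    |D.mae v K d k| ≤ (D.N' k : ℤ) := by
  by_cases hk : k < K
  · unfold mae
    rw [if_pos hk]
    simp
  · have hb := D.maR_bound v K hv d hd k
    have hM : (1 : ℝ) ≤ D.M k := by exact_mod_cast D.hM k
    have hdk : |(d k : ℝ)| ≤ D.N k := by exact_mod_cast hd k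
    obtain ⟨w, hw⟩ : ∃ w : ℝ, w = D.maR v K d k - (d k : ℝ) / D.M k := ⟨_, rfl⟩
    have he : D.mae v K d k = round (w * D.M k) := by
      unfold mae
      rw [if_neg (by omega), hw]
    have h1 := abs_sub_round (w * D.M k)
    have h2 : w * D.M k = D.maR v K d k * D.M k - d k := by
      rw [hw, sub_mul, div_mul_cancel₀ _ (by linarith : (D.M k : ℝ) ≠ 0)]
    have h3 : |w * D.M k| ≤ ((K : ℝ) + 1 + ∑ i ∈ Finset.range k, (D.N i : ℝ)) * D.M k + D.N k := by
      rw [h2]
      calc |D.maR v K d k * D.M k - d k| ≤ |D.maR v K d k * D.M k| + |(d k : ℝ)| := abs_sub _ _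
        _ = |D.maR v K d k| * D.M k + |(d k : ℝ)| := by
            rw [abs_mul, abs_of_pos (by linarith : (0 : ℝ) < D.M k)]
        _ ≤ _ := add_le_add (mul_le_mul_of_nonneg_right hb (by linarith)) hdk
    have h4 : |(round (w * D.M k) : ℝ)| ≤ |w * D.M k| + 1 / 2 := by
      have : (round (w * D.M k) : ℝ) = w * D.M k - (w * D.M k - round (w * D.M k)) := by ring
      calc |(round (w * D.M k) : ℝ)| = |w * D.M k - (w * D.M k - round (w * D.M k))| := by rw [← this]
        _ ≤ |w * D.M k| + |w * D.M k - round (w * D.M k)| := abs_sub _ _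
        _ ≤ _ := by linarith
    have h5 : (D.N' k : ℝ) = ((k : ℝ) + 2 + (∑ i ∈ Finset.range k, (D.N i : ℝ) + D.N k)) * D.M k := by
      unfold N'
      push_cast
      rw [Finset.sum_range_succ]
    have hKk : (K : ℝ) ≤ k := by exact_mod_cast (by omega : K ≤ k)
    have hN0 : (0 : ℝ) ≤ D.N k := Nat.cast_nonneg _
    have h6 : (D.N k : ℝ) ≤ D.N k * D.M k := by nlinarith
    have h7 : (K : ℝ) * D.M k ≤ k * D.M k := mul_le_mul_of_nonneg_right hKk (by linarith)
    have h8 : |(round (w * D.M k) : ℝ)| ≤ D.N' k := by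
      rw [h5]
      nlinarith
    rw [he]
    exact_mod_cast h8

theorem mae_tendsto (v : ℝ) (K : ℕ) (d : ℕ → ℤ) (hd : Tendsto (fun k => (d k : ℝ) / D.M k) atTop (𝓝 0)) :
    Tendsto (D.maR v K d) atTop (𝓝 0) ∧ Tendsto (fun k => (D.mae v K d k : ℝ) / D.M k) atTop (𝓝 0) := by
  have h1 : Tendsto (fun k => D.maR v K d (k + 1)) atTop (𝓝 0) := by
    have h2 : Tendsto (fun k => (1 : ℝ) / D.M k) atTop (𝓝 0) := by
      have h3 : Tendsto (fun k => (D.M k : ℝ)) atTop atTop := tendsto_natCast_atTop_atTop.comp D.hM'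
      have h4 := h3.inv_tendsto_atTop
      refine h4.congr fun n => ?_
      rw [Pi.inv_apply, one_div]
    refine squeeze_zero_norm' ?_ h2
    filter_upwards [eventually_ge_atTop K] with k hk
    rw [Real.norm_eq_abs]
    exact D.maR_small v K d k hk
  have h2 : Tendsto (D.maR v K d) atTop (𝓝 0) := (tendsto_add_atTop_iff_nat 1).1 h1
  refine ⟨h2, ?_⟩
  have h3 : (fun k => (D.mae v K d k : ℝ) / D.M k) =
      fun k => D.maR v K d k - D.maR v K d (k + 1) - (d k : ℝ) / D.M k := by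
    funext k
    rw [maR_succ]
    ring
  rw [h3]
  have := (h2.sub h1).sub hd
  simpa using this

/-- all points above `U` are achieved. -/
theorem mem_ach (h : D.Small) (u v : ℝ) (hu : u ∈ D.U) : (u, v) ∈ AchSet D.x := by
  classical
  obtain ⟨σ, d, hσ, hd, hdM, hsum⟩ := hu
  choose T hT using hσ
  obtain ⟨K, hK⟩ := exists_nat_ge |v|
  obtain ⟨e, he⟩ : ∃ e : ℕ → ℤ, e = D.mae v K d := ⟨_, rfl⟩
  have heN : ∀ k, |e k| ≤ (D.N' k : ℤ) := by
    rw [he]; exact D.mae_le v K hK d hd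
  obtain ⟨hR, heM⟩ := D.mae_tendsto v K d hdM
  rw [← he] at heM
  have hℓ := D.one_le_ℓ
  refine ⟨{n | D.maP T d e (stg D.ℓ n) (n - off D.ℓ (stg D.ℓ n))}, ?_⟩
  obtain ⟨g, hg⟩ : ∃ g : ℕ → ℝ × ℝ, g = ({n | D.maP T d e (stg D.ℓ n) (n - off D.ℓ (stg D.ℓ n))} : Set ℕ).indicator
      D.x := ⟨_, rfl⟩
  rw [← hg]
  have hgk : ∀ k j, j < D.ℓ k → g (off D.ℓ k + j) = ((D.maA T k j + D.maB d k j) * D.X (k + 1),
      (D.maB d k j + D.maE e k j) * (D.M k : ℝ)⁻¹) := by
    intro k j hj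
    rw [← D.ma_term T d e k j hj, hg, Set.indicator_apply]
    have h1 : D.x (off D.ℓ k + j) = D.vec k j := by
      unfold x
      exact glue_apply hℓ D.vec k j hj
    have h2 : (off D.ℓ k + j ∈ ({n | D.maP T d e (stg D.ℓ n) (n - off D.ℓ (stg D.ℓ n))} : Set ℕ)) ↔
        D.maP T d e k j := by
      rw [Set.mem_ofPred_eq, stg_off_add hℓ k j hj, Nat.add_sub_cancel_left]
    rw [h1]
    by_cases hp : D.maP T d e k j
    · rw [if_pos hp, if_pos (h2.2 hp)]
    · rw [if_neg hp, if_neg (fun h => hp (h2.1 h))]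
  have hgs : ∀ k j, j ≤ D.ℓ k → ∑ i ∈ Finset.range j, g (off D.ℓ k + i) =
      ((∑ i ∈ Finset.range j, D.maA T k i + ∑ i ∈ Finset.range j, D.maB d k i) * D.X (k + 1),
      (∑ i ∈ Finset.range j, D.maB d k i + ∑ i ∈ Finset.range j, D.maE e k i) * (D.M k : ℝ)⁻¹) := by
    intro k j hj
    rw [← D.ma_sum T d e k j]
    refine Finset.sum_congr rfl fun i hi => ?_
    rw [Finset.mem_range] at hi
    exact hgk k i (by omega)
  have hT' : ∀ k, ∑ t ∈ T k, (D.val k t : ℝ) = σ k := by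
    intro k
    rw [← hT k]
    push_cast
    rfl
  have hblock : ∀ k, ∑ i ∈ Finset.range (D.ℓ k), g (off D.ℓ k + i) =
      (((σ k : ℝ) + d k) * D.X (k + 1), ((d k : ℝ) + e k) / D.M k) := by
    intro k
    rw [hgs k _ le_rfl, D.maA_total T k _ (by unfold ℓ; omega), D.maB_total d k (hd k),
      D.maE_total e k (heN k), hT' k]
    rfl
  -- total sums
  have hX0 : ∀ k, 0 < D.X (k + 1) := fun k => D.X_pos (k + 1)
  have htot : Tendsto (fun k => (∑ t, (D.val k t : ℝ)) * D.X (k + 1)) atTop (𝓝 0) :=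
    Summable.tendsto_atTop_zero h
  have hσX : Tendsto (fun k => (σ k : ℝ) * D.X (k + 1)) atTop (𝓝 0) := by
    refine squeeze_zero (fun k => mul_nonneg (Nat.cast_nonneg _) (hX0 k).le) (fun k => ?_) htot
    refine mul_le_mul_of_nonneg_right ?_ (hX0 k).le
    rw [← hT' k]
    exact Finset.sum_le_sum_of_subset_of_nonneg (Finset.subset_univ _) fun i _ _ => by positivity
  have hσdX : Tendsto (fun k => ((σ k : ℝ) + d k) * D.X (k + 1)) atTop (𝓝 0) := by
    have h1 := (tendsto_add_atTop_iff_nat 1).2 hsum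
    have h2 := h1.sub hsum
    rw [sub_self] at h2
    refine h2.congr fun n => ?_
    rw [Finset.sum_range_succ]
    ring
  have hdX : Tendsto (fun k => (d k : ℝ) * D.X (k + 1)) atTop (𝓝 0) := by
    have h1 := hσdX.sub hσX
    rw [sub_zero] at h1
    refine h1.congr fun n => ?_
    ring
  apply tendsto_of_blocks hℓ
  · have h1 : (fun k => ∑ i ∈ Finset.range (off D.ℓ k), g i) =
        fun k => ((∑ i ∈ Finset.range k, ((σ i : ℝ) + d i) * D.X (i + 1), v - D.maR v K d k) : ℝ × ℝ) := by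
      funext k
      rw [sum_off, Finset.sum_congr rfl fun i _ => hblock i]
      refine Prod.ext ?_ ?_
      · rw [Prod.fst_sum]
      · rw [Prod.snd_sum]
        dsimp only
        rw [← D.maR_sum v K d k, he]
    rw [h1]
    refine Tendsto.prodMk_nhds hsum ?_
    simpa using (tendsto_const_nhds (x := v)).sub hR
  · intro ε hε
    have h1 : Tendsto (fun k => (∑ t, (D.val k t : ℝ)) * D.X (k + 1) + |(d k : ℝ) * D.X (k + 1)|) atTop (𝓝 0) := by
      simpa using htot.add hdX.abs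
    have h2 : Tendsto (fun k => |(d k : ℝ) / D.M k| + |(e k : ℝ) / D.M k|) atTop (𝓝 0) := by
      simpa using hdM.abs.add heM.abs
    filter_upwards [h1.eventually_le_const hε, h2.eventually_le_const hε] with k hk1 hk2 j hj
    rw [hgs k j hj, Prod.norm_def]
    have hX := hX0 k
    have hM : (0 : ℝ) < D.M k := by exact_mod_cast D.hM k
    have hA0 : 0 ≤ ∑ i ∈ Finset.range j, D.maA T k i := Finset.sum_nonneg fun i _ => D.maA_nonneg T k i
    have hA1 := D.maA_le T k j
    have hB1 := D.maB_le d k j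
    have hE1 := D.maE_le e k j
    refine max_le ?_ ?_
    · dsimp only
      rw [Real.norm_eq_abs, abs_mul, abs_of_pos hX]
      have h3 : |∑ i ∈ Finset.range j, D.maA T k i + ∑ i ∈ Finset.range j, D.maB d k i| ≤
          (∑ t, (D.val k t : ℝ)) + |(d k : ℝ)| := by
        refine (abs_add_le _ _).trans (add_le_add ?_ hB1)
        rw [abs_of_nonneg hA0]
        exact hA1
      refine (mul_le_mul_of_nonneg_right h3 hX.le).trans ?_
      rw [add_mul]
      rw [abs_mul, abs_of_pos hX] at hk1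
      exact hk1
    · dsimp only
      rw [Real.norm_eq_abs, abs_mul, abs_of_pos (inv_pos.2 hM)]
      have h3 : |∑ i ∈ Finset.range j, D.maB d k i + ∑ i ∈ Finset.range j, D.maE e k i| ≤
          |(d k : ℝ)| + |(e k : ℝ)| := (abs_add_le _ _).trans (add_le_add hB1 hE1)
      refine (mul_le_mul_of_nonneg_right h3 (inv_pos.2 hM).le).trans ?_
      rw [abs_div, abs_div, abs_of_pos hM] at hk2
      rw [add_mul]
      simpa [div_eq_mul_inv] using hk2

end Dat
end Ach
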