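import Mathlib

/-! A rearrangement lemma. -/

open Filter Topology
set_option autoImplicit false
set_option relaxedAutoImplicit false

namespace Ach

section aux

variable {E : Type*} [NormedAddCommGroup E]

/-- the list with `n` added at the end when it is missing -/
def permAdd (n : ℕ) (l : List ℕ) : List ℕ := if n ∈ l then l else l ++ [n]

lemma permAdd_prefix (n : ℕ) (l : List ℕ) : l <+: permAdd n l := by
  unfold permAdd
  split_ifs
  · exact List.prefix_refl l
  · exact List.prefix_append l [n]

lemma permAdd_nodup (n : ℕ) (l : List ℕ) (hl : l.Nodup) : (permAdd n l).Nodup := by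
  unfold permAdd
  split_ifs with h
  · exact hl
  · rw [List.nodup_append]
    refine ⟨hl, List.nodup_singleton n, ?_⟩
    intro a ha b hb hab
    rw [List.mem_singleton] at hb
    subst hb; subst hab
    exact h ha

lemma mem_permAdd (n : ℕ) (l : List ℕ) : n ∈ permAdd n l := by
  unfold permAdd
  split_ifs with h
  · exact h
  · simp

/-- one step of the construction -/
noncomputable def permStep (x : ℕ → E) (p : E) (m : E → ℝ → Finset ℕ → ℕ)
    (s : E → ℝ → Finset ℕ → ℕ → ℕ) (n : ℕ) (l : List ℕ) : List ℕ :=
  permAdd n l ++ (List.range (m (p - ((permAdd n l).map x).sum) (1 / ((n : ℝ) + 1))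
    (permAdd n l).toFinset)).map (s (p - ((permAdd n l).map x).sum) (1 / ((n : ℝ) + 1))
    (permAdd n l).toFinset)

/-- the lists -/
noncomputable def permList (x : ℕ → E) (p : E) (m : E → ℝ → Finset ℕ → ℕ)
    (s : E → ℝ → Finset ℕ → ℕ → ℕ) : ℕ → List ℕ
  | 0 => []
  | n + 1 => permStep x p m s n (permList x p m s n)

lemma sum_map_range_list (x : ℕ → E) (s : ℕ → ℕ) (m : ℕ) :
    (((List.range m).map s).map x).sum = ∑ i ∈ Finset.range m, x (s i) := by
  rw [List.map_map]
  rw [Finset.sum_range]
  rw [← List.sum_ofFn]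
  congr 1
  rw [List.ofFn_eq_map, ← List.map_coe_finRange_eq_range, List.map_map]
  rfl

end aux

/-- If every vector `w` can be approximated arbitrarily well by a finite sum of terms with indices
outside any given finite set, with all partial sums bounded by `K * (‖w‖ + ε)`, then every point is the sum of
a rearrangement. -/
theorem exists_perm_sum {E : Type*} [NormedAddCommGroup E] (x : ℕ → E)
    (hx : Tendsto x atTop (𝓝 0)) (K : ℝ)
    (h : ∀ (w : E) (ε : ℝ), 0 < ε → ∀ F : Finset ℕ, ∃ (m : ℕ) (s : ℕ → ℕ),
      Set.InjOn s (Set.Iio m) ∧ (∀ i < m, s i ∉ F) ∧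
      ‖w - ∑ i ∈ Finset.range m, x (s i)‖ ≤ ε ∧
      ∀ j ≤ m, ‖∑ i ∈ Finset.range j, x (s i)‖ ≤ K * (‖w‖ + ε)) (p : E) :
    ∃ σ : Equiv.Perm ℕ, Tendsto (fun n => ∑ i ∈ Finset.range n, x (σ i)) atTop (𝓝 p) := by
  have h' : ∀ (w : E) (ε : ℝ) (F : Finset ℕ), ∃ (m : ℕ) (s : ℕ → ℕ), 0 < ε →
      Set.InjOn s (Set.Iio m) ∧ (∀ i < m, s i ∉ F) ∧
      ‖w - ∑ i ∈ Finset.range m, x (s i)‖ ≤ ε ∧
      ∀ j ≤ m, ‖∑ i ∈ Finset.range j, x (s i)‖ ≤ K * (‖w‖ + ε) := by
    intro w ε F
    by_cases hε : 0 < ε
    · obtain ⟨m, s, hms⟩ := h w ε hε F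
      exact ⟨m, s, fun _ => hms⟩
    · exact ⟨0, id, fun h => absurd h hε⟩
  choose m s hms using h'
  set L := permList x p m s with hL
  have hstep : ∀ n, L (n + 1) = permStep x p m s n (L n) := fun n => rfl
  have heps : ∀ n : ℕ, (0 : ℝ) < 1 / ((n : ℝ) + 1) := fun n => by positivity
  have hK : 0 ≤ K := by
    obtain ⟨m0, s0, -, -, -, h4⟩ := h 0 1 one_pos ∅
    have := h4 0 (Nat.zero_le _)
    simp only [Finset.range_zero, Finset.sum_empty, norm_zero, zero_add, mul_one] at this
    exact this
  -- prefix
  have hpre : ∀ n, L n <+: L (n + 1) := fun n => by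
    rw [hstep]
    exact (permAdd_prefix n (L n)).trans (List.prefix_append _ _)
  have hpre' : ∀ a b, a ≤ b → L a <+: L b := by
    intro a b hab
    induction b, hab using Nat.le_induction with
    | base => exact List.prefix_refl _
    | succ b _ ih => exact ih.trans (hpre b)
  have hnodup : ∀ n, (L n).Nodup := by
    intro n
    induction n with
    | zero => exact List.nodup_nil
    | succ n ih =>
      rw [hstep]
      unfold permStep
      obtain ⟨h1, h2, -, -⟩ := hms (p - ((permAdd n (L n)).map x).sum) (1 / ((n : ℝ) + 1))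
        (permAdd n (L n)).toFinset (heps n)
      rw [List.nodup_append]
      refine ⟨permAdd_nodup n _ ih, ?_, ?_⟩
      · rw [List.nodup_map_iff_inj_on List.nodup_range]
        intro a ha b hb hab
        rw [List.mem_range] at ha hb
        exact h1 ha hb hab
      · intro a ha b hb hab
        rw [List.mem_map] at hb
        obtain ⟨i, hi, rfl⟩ := hb
        rw [List.mem_range] at hi
        apply h2 i hi
        rw [List.mem_toFinset, ← hab]
        exact ha
  have hmem : ∀ n, n ∈ L (n + 1) := fun n => by
    rw [hstep]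
    exact List.mem_append_left _ (mem_permAdd n (L n))
  have hmem' : ∀ k n, k < n → k ∈ L n := fun k n hk =>
    (hpre' (k + 1) n hk).subset (hmem k)
  have hlen : ∀ n, n ≤ (L n).length := by
    intro n
    have h1 : Finset.range n ⊆ (L n).toFinset := by
      intro k hk
      rw [Finset.mem_range] at hk
      rw [List.mem_toFinset]
      exact hmem' k n hk
    have h2 := Finset.card_le_card h1
    rw [Finset.card_range] at h2
    exact h2.trans (List.toFinset_card_le _)
  -- the permutation
  have hlt : ∀ i, i < (L (i + 1)).length := fun i => hlen (i + 1)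
  set σ : ℕ → ℕ := fun i => (L (i + 1))[i]'(hlt i) with hσ
  have hσL : ∀ n i (hi : i < (L n).length), (L n)[i] = σ i := by
    intro n i hi
    rcases le_total n (i + 1) with h1 | h1
    · exact (hpre' n (i + 1) h1).getElem hi
    · exact ((hpre' (i + 1) n h1).getElem (hlt i)).symm
  have hinj : Function.Injective σ := by
    intro i j hij
    have hi : i < (L (max i j + 1)).length := lt_of_lt_of_le (by omega) (hlen (max i j + 1))
    have hj : j < (L (max i j + 1)).length := lt_of_lt_of_le (by omega) (hlen (max i j + 1))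
    rw [← hσL _ i hi, ← hσL _ j hj] at hij
    exact (List.Nodup.getElem_inj_iff (hnodup _)).mp hij
  have hsurj : Function.Surjective σ := by
    intro n
    obtain ⟨i, hi, hin⟩ := List.getElem_of_mem (hmem n)
    exact ⟨i, by rw [← hσL _ i hi, hin]⟩
  refine ⟨Equiv.ofBijective σ ⟨hinj, hsurj⟩, ?_⟩
  -- partial sums
  have hps : ∀ n M, M ≤ (L n).length →
      ∑ i ∈ Finset.range M, x (σ i) = (((L n).take M).map x).sum := by
    intro n M hM
    have e : (L n).take M = (List.range M).map σ := by
      apply List.ext_getElem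
      · simp [hM]
      · intro i h1 h2
        rw [List.getElem_take, List.getElem_map, List.getElem_range]
        exact hσL n i _
    rw [e, sum_map_range_list]
  -- errors
  have herr : ∀ n : ℕ, ‖p - ((L (n + 1)).map x).sum‖ ≤ 1 / ((n : ℝ) + 1) := by
    intro n
    rw [hstep]
    unfold permStep
    obtain ⟨-, -, h3, -⟩ := hms (p - ((permAdd n (L n)).map x).sum) (1 / ((n : ℝ) + 1))
      (permAdd n (L n)).toFinset (heps n)
    rw [List.map_append, List.sum_append, sum_map_range_list, ← sub_sub]
    exact h3
  have hw : ∀ n, ‖p - ((permAdd n (L n)).map x).sum‖ ≤ ‖p - ((L n).map x).sum‖ + ‖x n‖ := by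
    intro n
    unfold permAdd
    split_ifs
    · linarith [norm_nonneg (x n)]
    · rw [List.map_append, List.sum_append, List.map_singleton, List.sum_singleton, ← sub_sub]
      exact norm_sub_le _ _
  have hmid : ∀ n M, (L n).length ≤ M → M ≤ (L (n + 1)).length →
      ‖p - (((L (n + 1)).take M).map x).sum‖ ≤
        (1 + K) * (‖p - ((L n).map x).sum‖ + ‖x n‖) + K * (1 / ((n : ℝ) + 1)) := by
    intro n M h1 h2
    have hKe : 0 ≤ K * (1 / ((n : ℝ) + 1)) := mul_nonneg hK (heps n).le
    have hA : 0 ≤ ‖p - ((L n).map x).sum‖ := norm_nonneg _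
    have hB : 0 ≤ ‖x n‖ := norm_nonneg _
    have hKA : 0 ≤ K * (‖p - ((L n).map x).sum‖ + ‖x n‖) := mul_nonneg hK (by linarith)
    have hbig : ‖p - ((L n).map x).sum‖ + ‖x n‖ ≤
        (1 + K) * (‖p - ((L n).map x).sum‖ + ‖x n‖) + K * (1 / ((n : ℝ) + 1)) := by
      rw [one_add_mul]; linarith
    rw [hstep] at h2 ⊢
    unfold permStep at h2 ⊢
    set w := p - ((permAdd n (L n)).map x).sum with hwdef
    set ε := 1 / ((n : ℝ) + 1) with hεdef
    set F := (permAdd n (L n)).toFinset with hF
    obtain ⟨-, -, -, h4⟩ := hms w ε F (heps n)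
    by_cases hM : (permAdd n (L n)).length ≤ M
    · obtain ⟨j, rfl⟩ := Nat.exists_eq_add_of_le hM
      rw [List.length_append, List.length_map, List.length_range] at h2
      have hj : j ≤ m w ε F := by omega
      have e1 : (List.map (s w ε F) (List.range (m w ε F))).take j = List.map (s w ε F) (List.range j) := by
        rw [← List.map_take, List.take_range, min_eq_left hj]
      rw [List.take_length_add_append, e1, List.map_append, List.sum_append, sum_map_range_list,
        ← sub_sub]
      refine (norm_sub_le _ _).trans ?_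
      have h5 := h4 j hj
      have h6 := hw n
      have h7 : K * (‖w‖ + ε) ≤ K * ((‖p - ((L n).map x).sum‖ + ‖x n‖) + ε) :=
        mul_le_mul_of_nonneg_left (by linarith) hK
      rw [one_add_mul]
      rw [mul_add] at h7
      linarith
    · push Not at hM
      have e0 : permAdd n (L n) = L n ++ [n] := by
        unfold permAdd at hM ⊢
        split_ifs with hc
        · rw [if_pos hc] at hM
          omega
        · rfl
      have hMeq : M = (L n).length := by
        rw [e0, List.length_append, List.length_singleton] at hM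
        omega
      have e1 : (permAdd n (L n) ++ List.map (s w ε F) (List.range (m w ε F))).take M = L n := by
        rw [e0, List.append_assoc, hMeq, List.take_left]
      rw [e1]
      linarith
  -- conclusion
  have hδ : Tendsto (fun n : ℕ => (1 + K) * (‖p - ((L n).map x).sum‖ + ‖x n‖) + K * (1 / ((n : ℝ) + 1)))
      atTop (𝓝 0) := by
    have t1 : Tendsto (fun n : ℕ => 1 / ((n : ℝ) + 1)) atTop (𝓝 0) :=
      tendsto_one_div_add_atTop_nhds_zero_nat
    have t2 : Tendsto (fun n : ℕ => ‖p - ((L n).map x).sum‖) atTop (𝓝 0) := by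
      rw [← tendsto_add_atTop_iff_nat 1]
      exact squeeze_zero (fun n => norm_nonneg _) herr t1
    have t3 : Tendsto (fun n : ℕ => ‖x n‖) atTop (𝓝 0) := by
      simpa using hx.norm
    have t4 := ((t2.add t3).const_mul (1 + K)).add (t1.const_mul K)
    simpa using t4
  rw [Metric.tendsto_atTop]
  intro ε hε
  obtain ⟨n0, hn0⟩ := (hδ.eventually (gt_mem_nhds hε)).exists_forall_of_atTop
  refine ⟨(L n0).length, fun M hM => ?_⟩
  -- find the block
  have hex : ∃ n, M < (L (n + 1)).length := ⟨M, hlen (M + 1)⟩
  classical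
  set n := Nat.find hex with hn
  have hn1 : M < (L (n + 1)).length := Nat.find_spec hex
  have hn2 : (L n).length ≤ M := by
    rcases Nat.eq_zero_or_pos n with h0 | h0
    · rw [h0]; exact Nat.zero_le _
    · have := Nat.find_min hex (m := n - 1) (by omega)
      push Not at this
      rwa [Nat.sub_add_cancel h0] at this
  have hn3 : n0 ≤ n := by
    by_contra hc
    push Not at hc
    have := (hpre' (n + 1) n0 hc).length_le
    omega
  have h1 := hmid n M hn2 hn1.le
  have h2 := hn0 n hn3
  have e : ∑ i ∈ Finset.range M, x ((Equiv.ofBijective σ ⟨hinj, hsurj⟩) i) =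
      (((L (n + 1)).take M).map x).sum := hps (n + 1) M hn1.le
  rw [dist_eq_norm, norm_sub_rev, e]
  exact lt_of_le_of_lt h1 h2

end Ach
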