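import Pool.Agent.H674.AchF.Blocks
import Pool.Agent.H674.AchF.Perm

/-! Achievement sets: the series of a `Dat`, basics. -/

open Filter Topology MeasureTheory
set_option autoImplicit false
set_option relaxedAutoImplicit false

namespace Ach
namespace Dat
variable (D : Dat)

theorem prod_C_pos (k : ℕ) : (0 : ℝ) < ∏ i ∈ Finset.range k, (D.C i : ℝ) := by
  refine Finset.prod_pos (fun i _ => ?_)
  have := D.hC i
  exact_mod_cast (by omega : 0 < D.C i)

theorem X_pos (k : ℕ) : 0 < D.X k := by
  unfold X
  exact inv_pos.2 (D.prod_C_pos k)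

theorem X_succ (k : ℕ) : D.X k = D.C k * D.X (k + 1) := by
  unfold X
  have h1 := D.prod_C_pos k
  have h2 : (0 : ℝ) < D.C k := by
    have := D.hC k
    exact_mod_cast (by omega : 0 < D.C k)
  rw [Finset.prod_range_succ]
  field_simp

theorem X_le (k : ℕ) : D.X k ≤ (1 / 2) ^ k := by
  unfold X
  rw [one_div, inv_pow]
  refine inv_anti₀ (by positivity) ?_
  calc (2 : ℝ) ^ k = ∏ _i ∈ Finset.range k, (2 : ℝ) := by simp
    _ ≤ ∏ i ∈ Finset.range k, (D.C i : ℝ) :=
        Finset.prod_le_prod (fun _ _ => by norm_num) (fun i _ => by exact_mod_cast D.hC i)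

theorem one_le_N (k : ℕ) : 1 ≤ D.N k := by
  unfold N
  have h1 := D.hM k
  have h2 : 0 < ∏ i ∈ Finset.range (k + 1), D.C i :=
    Finset.prod_pos (fun i _ => by have := D.hC i; omega)
  have : 0 < (k + 1) * D.M k * ∏ i ∈ Finset.range (k + 1), D.C i := by positivity
  exact this

theorem one_le_ℓ (k : ℕ) : 1 ≤ D.ℓ k := by
  unfold ℓ
  have := D.one_le_N k
  omega

/-- the number of `z`-vectors is so large that their total is large -/
theorem N_mul_X (k : ℕ) : (D.N k : ℝ) * D.X (k + 1) = (k + 1) * D.M k := by
  unfold N X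
  have h1 := D.prod_C_pos (k + 1)
  push_cast
  field_simp

/-- the selection in the alternating block `z, -z, z, -z, …` with sum `d z` -/
def sel (d : ℤ) (i : ℕ) : Prop :=
  if 0 ≤ d then i % 2 = 0 ∧ ((i / 2 : ℕ) : ℤ) < d else i % 2 = 1 ∧ ((i / 2 : ℕ) : ℤ) < -d

open Classical in
theorem sel_sum_even (d : ℤ) (n : ℕ) :
    ∑ i ∈ Finset.range (2 * n), (if sel d i then (-1 : ℝ) ^ i else 0)
      = if 0 ≤ d then ((min d n : ℤ) : ℝ) else -((min (-d) n : ℤ) : ℝ) := by
  induction n with
  | zero =>
    by_cases hd : 0 ≤ d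
    · simp [hd]
    · have : min (-d) 0 = 0 := min_eq_right (by omega)
      simp [hd, this]
  | succ n ih =>
    rw [show 2 * (n + 1) = 2 * n + 1 + 1 by ring, Finset.sum_range_succ, Finset.sum_range_succ, ih]
    have e1 : (2 * n) % 2 = 0 := by omega
    have e2 : (2 * n) / 2 = n := by omega
    have e3 : (2 * n + 1) % 2 = 1 := by omega
    have e4 : (2 * n + 1) / 2 = n := by omega
    have p1 : (-1 : ℝ) ^ (2 * n) = 1 := by simp [pow_mul]
    have p2 : (-1 : ℝ) ^ (2 * n + 1) = -1 := by simp [pow_succ, pow_mul]
    rw [p1, p2]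
    by_cases hd : 0 ≤ d
    · have s2 : ¬ sel d (2 * n + 1) := by
        unfold sel
        rw [if_pos hd]
        omega
      rw [if_neg s2, if_pos hd, if_pos hd, add_zero]
      by_cases hn : (n : ℤ) < d
      · have s1 : sel d (2 * n) := by
          unfold sel
          rw [if_pos hd, e2]
          exact ⟨e1, hn⟩
        rw [if_pos s1, min_eq_right (by omega), min_eq_right (by push_cast; omega)]
        push_cast
        ring
      · have s1 : ¬ sel d (2 * n) := by
          unfold sel
          rw [if_pos hd, e2]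
          exact fun h => hn h.2
        rw [if_neg s1, min_eq_left (by omega), min_eq_left (by push_cast; omega)]
        ring
    · have s1 : ¬ sel d (2 * n) := by
        unfold sel
        rw [if_neg hd]
        omega
      rw [if_neg s1, if_neg hd, if_neg hd, add_zero]
      by_cases hn : (n : ℤ) < -d
      · have s2 : sel d (2 * n + 1) := by
          unfold sel
          rw [if_neg hd, e4]
          exact ⟨e3, hn⟩
        rw [if_pos s2, min_eq_right (by omega), min_eq_right (by push_cast; omega)]
        push_cast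
        ring
      · have s2 : ¬ sel d (2 * n + 1) := by
          unfold sel
          rw [if_neg hd, e4]
          exact fun h => hn h.2
        rw [if_neg s2, min_eq_left (by omega), min_eq_left (by push_cast; omega)]
        ring

open Classical in
theorem sel_sum (d : ℤ) (n : ℕ) (hd : |d| ≤ n) :
    ∑ i ∈ Finset.range (2 * n), (if sel d i then (-1 : ℝ) ^ i else 0) = d := by
  rw [sel_sum_even]
  have h := abs_le.1 hd
  split_ifs with h0
  · rw [min_eq_left h.2]
  · rw [min_eq_left (by omega)]
    push_cast
    ring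

open Classical in
theorem sel_sum_le (d : ℤ) (j : ℕ) :
    |∑ i ∈ Finset.range j, (if sel d i then (-1 : ℝ) ^ i else 0)| ≤ |(d : ℝ)| := by
  have key : ∀ n : ℕ, |∑ i ∈ Finset.range (2 * n), (if sel d i then (-1 : ℝ) ^ i else 0)|
      ≤ |(d : ℝ)| := by
    intro n
    rw [sel_sum_even]
    split_ifs with h0
    · rw [← Int.cast_abs, ← Int.cast_abs]
      have : |min d (n : ℤ)| ≤ |d| := by
        rw [abs_of_nonneg (le_min h0 (by positivity)), abs_of_nonneg h0]
        exact min_le_left _ _
      exact_mod_cast this
    · rw [abs_neg, ← Int.cast_abs, ← Int.cast_abs]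
      have : |min (-d) (n : ℤ)| ≤ |d| := by
        rw [abs_of_nonneg (le_min (by omega) (by positivity)), abs_of_neg (by omega)]
        exact min_le_left _ _
      exact_mod_cast this
  obtain ⟨n, hn | hn⟩ := Nat.even_or_odd' j
  · rw [hn]
    exact key n
  · have e1 : (2 * n) % 2 = 0 := by omega
    have e2 : (2 * n) / 2 = n := by omega
    have e3 : (2 * n + 1) % 2 = 1 := by omega
    have e4 : (2 * n + 1) / 2 = n := by omega
    by_cases hd : 0 ≤ d
    · -- the next term is zero
      have s2 : ¬ sel d (2 * n + 1) := by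
        unfold sel
        rw [if_pos hd]
        omega
      have h2 := key (n + 1)
      rw [show 2 * (n + 1) = 2 * n + 1 + 1 by ring, Finset.sum_range_succ, if_neg s2, add_zero] at h2
      rw [hn]
      exact h2
    · have s1 : ¬ sel d (2 * n) := by
        unfold sel
        rw [if_neg hd]
        omega
      rw [hn, Finset.sum_range_succ, if_neg s1, add_zero]
      exact key n

end Dat
end Ach
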