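import Mathlib

/-! A set which is null and meagre. -/

open Filter Topology MeasureTheory
set_option autoImplicit false
set_option relaxedAutoImplicit false

namespace Ach

/-- the points whose fractional parts of `u / X k` avoid `(1/4, 3/4)` from `K` on -/
def EE (X : ℕ → ℝ) (K : ℕ) : Set ℝ := {u | ∀ k, K ≤ k → Int.fract (u / X k) ∉ Set.Ioo (1 / 4 : ℝ) (3 / 4)}

lemma isOpen_fr : IsOpen {v : ℝ | Int.fract v ∈ Set.Ioo (1 / 4 : ℝ) (3 / 4)} := by
  have h : {v : ℝ | Int.fract v ∈ Set.Ioo (1 / 4 : ℝ) (3 / 4)} =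
      ⋃ i : ℤ, Set.Ioo ((i : ℝ) + 1 / 4) ((i : ℝ) + 3 / 4) := by
    ext v
    simp only [Set.mem_ofPred_eq, Set.mem_iUnion, Set.mem_Ioo]
    constructor
    · rintro ⟨h1, h2⟩
      refine ⟨⌊v⌋, ?_, ?_⟩
      · have := Int.floor_add_fract v; linarith
      · have := Int.floor_add_fract v; linarith
    · rintro ⟨i, h1, h2⟩
      have hi : ⌊v⌋ = i := by
        rw [Int.floor_eq_iff]
        constructor <;> linarith
      have := Int.floor_add_fract v
      rw [hi] at this
      constructor <;> linarith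
  rw [h]
  exact isOpen_iUnion fun i => isOpen_Ioo

lemma isClosed_EE (X : ℕ → ℝ) (K : ℕ) : IsClosed (EE X K) := by
  have h : EE X K = ⋂ k, ⋂ _ : K ≤ k, {u : ℝ | u / X k ∈ {v : ℝ | Int.fract v ∈ Set.Ioo (1 / 4 : ℝ) (3 / 4)}ᶜ} := by
    ext u
    simp only [EE, Set.mem_ofPred_eq, Set.mem_iInter, Set.mem_compl_iff]
  rw [h]
  refine isClosed_iInter fun k => isClosed_iInter fun _ => ?_
  exact isOpen_fr.isClosed_compl.preimage (continuous_id.div_const _)

lemma null_EE (X : ℕ → ℝ) (hX : ∀ k, 0 < X k) (hX0 : Tendsto X atTop (𝓝 0)) (K : ℕ) :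
    volume (EE X K) = 0 := by
  have hm : MeasurableSet (EE X K) := (isClosed_EE X K).measurableSet
  have hd := IsUnifLocDoublingMeasure.ae_tendsto_measure_inter_div (volume : Measure ℝ) (EE X K) 4
  have hF : ∀ᵐ x ∂((volume : Measure ℝ).restrict (EE X K)), False := by
    filter_upwards [hd] with x hx
    have h1 := hx (l := (atTop : Filter ℕ)) (fun k => ((⌊x / X k⌋ : ℝ) + 1 / 2) * X k) (fun k => X k / 8)
      (by
        rw [tendsto_nhdsWithin_iff]
        refine ⟨by simpa using hX0.div_const 8, Eventually.of_forall fun k => ?_⟩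
        exact div_pos (hX k) (by norm_num))
      (by
        refine Eventually.of_forall fun k => ?_
        rw [Metric.mem_closedBall, Real.dist_eq]
        have h2 : x = (x / X k) * X k := by field_simp [(hX k).ne']
        have h3 : x - ((⌊x / X k⌋ : ℝ) + 1 / 2) * X k = (Int.fract (x / X k) - 1 / 2) * X k := by
          have h3' := Int.floor_add_fract (x / X k)
          generalize Int.fract (x / X k) = f at *
          generalize (⌊x / X k⌋ : ℝ) = g at *
          rw [h2]
          rw [← h3']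
          have : X k ≠ 0 := (hX k).ne'
          ring
        rw [h3, abs_mul, abs_of_pos (hX k)]
        have h4 := Int.fract_nonneg (x / X k)
        have h5 := Int.fract_lt_one (x / X k)
        have h6 : |Int.fract (x / X k) - 1 / 2| ≤ 1 / 2 := by
          rw [abs_le]; constructor <;> linarith
        nlinarith [hX k])
    have h7 : (fun k => volume (EE X K ∩ Metric.closedBall (((⌊x / X k⌋ : ℝ) + 1 / 2) * X k) (X k / 8)) /
        volume (Metric.closedBall (((⌊x / X k⌋ : ℝ) + 1 / 2) * X k) (X k / 8))) =ᶠ[atTop] fun _ => 0 := by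
      filter_upwards [eventually_ge_atTop K] with k hk
      have h8 : EE X K ∩ Metric.closedBall (((⌊x / X k⌋ : ℝ) + 1 / 2) * X k) (X k / 8) = ∅ := by
        rw [Set.eq_empty_iff_forall_notMem]
        rintro u ⟨hu, hu2⟩
        refine hu k hk ?_
        rw [Metric.mem_closedBall, Real.dist_eq, abs_le] at hu2
        have hp := hX k
        have h9 : (⌊x / X k⌋ : ℝ) + 3 / 8 ≤ u / X k := by
          rw [le_div_iff₀ hp]; nlinarith [hu2.1]
        have h10 : u / X k ≤ (⌊x / X k⌋ : ℝ) + 5 / 8 := by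
          rw [div_le_iff₀ hp]; nlinarith [hu2.2]
        have hi : ⌊u / X k⌋ = ⌊x / X k⌋ := by
          rw [Int.floor_eq_iff]
          constructor <;> linarith
        have := Int.floor_add_fract (u / X k)
        rw [hi] at this
        constructor <;> linarith
      rw [h8, measure_empty, ENNReal.zero_div]
    have h11 := (tendsto_congr' h7).1 h1
    exact absurd (tendsto_nhds_unique h11 tendsto_const_nhds) (by norm_num)
  rw [ae_iff] at hF
  simpa using hF

/-- If for every `u ∈ B` the fractional parts of `u / X k` are eventually outside `(1/4, 3/4)`, where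
`X k → 0`, then `B × ℝ` is null and meagre. -/
theorem null_meagre (X : ℕ → ℝ) (hX : ∀ k, 0 < X k) (hX0 : Tendsto X atTop (𝓝 0)) (B : Set ℝ)
    (hB : ∀ u ∈ B, ∀ᶠ k in atTop, Int.fract (u / X k) ∉ Set.Ioo (1 / 4 : ℝ) (3 / 4)) :
    volume (B ×ˢ (Set.univ : Set ℝ)) = 0 ∧ IsMeagre (B ×ˢ (Set.univ : Set ℝ)) := by
  have hsub : B ×ˢ (Set.univ : Set ℝ) ⊆ ⋃ K, EE X K ×ˢ (Set.univ : Set ℝ) := by
    rintro ⟨u, v⟩ ⟨hu, -⟩
    obtain ⟨K, hK⟩ := eventually_atTop.1 (hB u hu)
    exact Set.mem_iUnion.2 ⟨K, fun k hk => hK k hk, trivial⟩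
  constructor
  · refine measure_mono_null hsub (measure_iUnion_null fun K => ?_)
    rw [Measure.volume_eq_prod, Measure.prod_prod, null_EE X hX hX0 K, zero_mul]
  · refine IsMeagre.mono hsub ?_
    refine isMeagre_iUnion fun K => ?_
    apply IsNowhereDense.isMeagre
    rw [IsClosed.isNowhereDense_iff ((isClosed_EE X K).prod isClosed_univ), interior_prod_eq,
      Measure.interior_eq_empty_of_null (null_EE X hX hX0 K), Set.empty_prod]

end Ach
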