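import Pool.Agent.H674.AchF.BaseEx
import Pool.Agent.H674.AchF.Carry

/-! Achievement sets: the steps of the path. -/

open Filter Topology
set_option autoImplicit false
set_option relaxedAutoImplicit false

namespace Ach
namespace Stage

/-- an integer in a range is a sum of small parts -/
theorem sp_pick1 (A δ M y : ℤ) (hA : 0 ≤ A) (hδ : 1 ≤ δ) (hM : 1 ≤ M)
    (h1 : -A - δ + 1 ≤ y) (h2 : y ≤ A + M + δ) :
    ∃ ρ d f : ℤ, |ρ| ≤ A ∧ |d| ≤ δ ∧ 1 ≤ f ∧ f ≤ M ∧ y = ρ + d + f := by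
  have hz : ∀ z : ℤ, -δ + 1 ≤ z → z ≤ M + δ → ∃ d f : ℤ, |d| ≤ δ ∧ 1 ≤ f ∧ f ≤ M ∧ z = d + f := by
    intro z hz1 hz2
    by_cases c1 : z ≤ 1
    · exact ⟨z - 1, 1, abs_le.mpr ⟨by omega, by omega⟩, le_refl _, hM, by ring⟩
    · by_cases c2 : z ≤ M
      · exact ⟨0, z, by rw [abs_zero]; omega, by omega, c2, by ring⟩
      · exact ⟨z - M, M, abs_le.mpr ⟨by omega, by omega⟩, hM, le_refl _, by ring⟩
  by_cases c1 : y ≤ -A
  · obtain ⟨d, f, hd, hf1, hf2, e⟩ := hz (y + A) (by omega) (by omega)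
    exact ⟨-A, d, f, by rw [abs_neg, abs_of_nonneg hA], hd, hf1, hf2, by omega⟩
  · by_cases c2 : y ≤ A
    · obtain ⟨d, f, hd, hf1, hf2, e⟩ := hz 0 (by omega) (by omega)
      exact ⟨y, d, f, abs_le.mpr ⟨by omega, by omega⟩, hd, hf1, hf2, by omega⟩
    · obtain ⟨d, f, hd, hf1, hf2, e⟩ := hz (y - A) (by omega) (by omega)
      exact ⟨A, d, f, by rw [abs_of_nonneg hA], hd, hf1, hf2, by omega⟩

theorem sp_pick (A D δ M x : ℤ) (hA : 0 ≤ A) (hδ : 1 ≤ δ) (hM : 1 ≤ M)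
    (hD : 2 * D ≤ 2 * A + 2 * δ + M) (h1 : -A - D - δ + 1 ≤ x) (h2 : x ≤ A + D + M + δ) :
    ∃ (sg : Bool) (ρ d f : ℤ), |ρ| ≤ A ∧ |d| ≤ δ ∧ 1 ≤ f ∧ f ≤ M ∧
      x = ρ + (if sg then D else -D) + d + f := by
  by_cases c : -A + D - δ + 1 ≤ x
  · obtain ⟨ρ, d, f, h3, h4, h5, h6, h7⟩ := sp_pick1 A δ M (x - D) hA hδ hM (by omega) (by omega)
    exact ⟨true, ρ, d, f, h3, h4, h5, h6, by simp only [if_true]; omega⟩
  · obtain ⟨ρ, d, f, h3, h4, h5, h6, h7⟩ := sp_pick1 A δ M (x + D) hA hδ hM (by omega) (by omega)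
    refine ⟨false, ρ, d, f, h3, h4, h5, h6, ?_⟩
    simp only [Bool.false_eq_true, if_false]
    omega

variable (s : Stage)

theorem sp_M_pos : (1 : ℤ) ≤ (s.M : ℤ) := by
  have : 0 < s.M := by unfold M; positivity
  exact_mod_cast this

theorem sp_aM : (s.a' : ℤ) + 2 ≤ 2 * (s.M : ℤ) := by
  have h := s.ha'
  have : s.a' + 2 ≤ 2 * s.M := h
  exact_mod_cast this

theorem sp_Q : (s.Q : ℤ) = (2 * s.a' + 4) * s.M := by
  unfold Q; push_cast; ring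

theorem sp_P : (s.P : ℤ) = (2 * s.M + 1) * (8 * s.M) := by
  unfold P; push_cast; ring

theorem sp_C : (s.C : ℤ) = s.P * s.Q := by
  unfold C; push_cast; ring

/-- `P` is large -/
theorem sp_P_large : 4 * ((s.a' : ℤ) + 2) * (s.a' + 3) ≤ s.P := by
  have h := s.sp_aM
  have hM := s.sp_M_pos
  rw [s.sp_P]
  nlinarith [mul_nonneg (sub_nonneg.mpr h) (by positivity : (0 : ℤ) ≤ 2 * s.M + 1),
    mul_nonneg (sub_nonneg.mpr h) (by positivity : (0 : ℤ) ≤ (s.a' : ℤ) + 3)]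

theorem sp_P_large' : 12 * (s.a' : ℤ) + 24 ≤ s.P := by
  have h := s.sp_P_large
  have : (0 : ℤ) ≤ s.a' := by positivity
  nlinarith

theorem sp_sum (T1 : Finset (Fin s.m)) (T2 : Finset (Fin s.a × Bool))
    (T3 : Finset (Fin (2 * s.M + 1) × Fin (8 * s.M))) :
    (∑ x ∈ (T1.disjSum (T2.disjSum T3) : Finset s.I), (s.val x : ℤ)) =
      T1.card * (s.C : ℤ) + (∑ x ∈ T2, (s.val (Sum.inr (Sum.inl x)) : ℤ)) +
        ∑ x ∈ T3, (s.val (Sum.inr (Sum.inr x)) : ℤ) := by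
  rw [Finset.sum_disjSum, Finset.sum_disjSum]
  have : (∑ x ∈ T1, (s.val (Sum.inl x) : ℤ)) = T1.card * (s.C : ℤ) := by
    have h : ∀ x ∈ T1, (s.val (Sum.inl x) : ℤ) = (s.C : ℤ) := fun x _ => rfl
    rw [Finset.sum_congr rfl h, Finset.sum_const, nsmul_eq_mul]
  rw [this]
  ring

/-- sets of copies of `C` -/
theorem sp_copies (i : ℕ) (hi : i ≤ s.m) : ∃ T1 : Finset (Fin s.m), T1.card = i := by
  have h : i ≤ (Finset.univ : Finset (Fin s.m)).card := by simpa using hi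
  obtain ⟨T, _, hT⟩ := Finset.exists_subset_card_eq h
  exact ⟨T, hT⟩

/-- the key claim -/
theorem sp_key (j : ℕ) (hj : j ≤ s.a) (hj' : 2 * j + 1 ≤ s.a') (b ρ0 : ℤ)
    (hb : (s.a' : ℤ) - j ≤ b) (hb' : b ≤ s.P - 1 - (s.a' - j)) (h0 : 0 ≤ ρ0) (h1 : ρ0 < s.Q) :
    ∃ (sg : Bool) (p ρ d f : ℤ), 0 ≤ p ∧ p ≤ s.P ∧ |ρ| ≤ s.M * p ∧ |ρ| ≤ s.M * (s.P - p) ∧
      |ρ| ≤ s.M * (s.a' + 2) ∧ |d| ≤ 2 ^ (s.e - j) ∧ 1 ≤ f ∧ f ≤ s.M ∧
      b * s.Q + ρ0 = p * s.Q + ρ + (if sg then s.Dj j else - s.Dj j) + d + f := by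
  have hM := s.sp_M_pos
  have hP := s.sp_P_large'
  set M : ℤ := (s.M : ℤ) with hMdef
  set δ : ℤ := 2 ^ (s.e - j) with hδdef
  have hδ1 : 1 ≤ δ := one_le_pow₀ (by norm_num)
  have hDj : s.Dj j = (j + 1) * M - δ := rfl
  have hj'' : 2 * (j : ℤ) + 1 ≤ s.a' := by exact_mod_cast hj'
  have hj0 : (0 : ℤ) ≤ j := by positivity
  -- the bounds for `p = b` and `p = b + 1`
  have main : ∀ A1 A2 : ℤ, ((s.a' : ℤ) - j) * M ≤ A1 → ((s.a' : ℤ) - j) * M ≤ A2 →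
      A1 + A2 = 2 * ((s.a' : ℤ) - j) * M + M →
      A1 ≤ M * b → A1 ≤ M * (s.P - b) → A2 ≤ M * (b + 1) → A2 ≤ M * (s.P - (b + 1)) →
      ∃ (sg : Bool) (p ρ d f : ℤ), 0 ≤ p ∧ p ≤ s.P ∧ |ρ| ≤ M * p ∧ |ρ| ≤ M * (s.P - p) ∧
      |ρ| ≤ M * (s.a' + 2) ∧ |d| ≤ δ ∧ 1 ≤ f ∧ f ≤ M ∧
      b * s.Q + ρ0 = p * s.Q + ρ + (if sg then s.Dj j else - s.Dj j) + d + f := by
    intro A1 A2 hA1 hA2 hA hA1b hA1P hA2b hA2P
    have hQ : (s.Q : ℤ) = A1 + A2 + 2 * s.Dj j + M + 2 * δ := by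
      rw [hA, hDj, s.sp_Q]; ring
    have hpos : (j + 1 : ℤ) * M ≤ ((s.a' : ℤ) - j) * M :=
      mul_le_mul_of_nonneg_right (by omega) (by omega)
    have hpos' : (1 : ℤ) ≤ (j + 1 : ℤ) * M := by nlinarith [mul_nonneg hj0 (by omega : (0 : ℤ) ≤ M)]
    have hA1' : A1 ≤ M * (s.a' + 2) := by nlinarith
    have hA2' : A2 ≤ M * (s.a' + 2) := by nlinarith
    by_cases c : ρ0 ≤ A1 + s.Dj j + M + δ
    · obtain ⟨sg, ρ, d, f, e1, e2, e3, e4, e5⟩ := sp_pick A1 (s.Dj j) δ M ρ0 (by linarith) hδ1 hM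
        (by rw [hDj]; linarith) (by rw [hDj]; linarith) c
      refine ⟨sg, b, ρ, d, f, by omega, by omega, by linarith, by linarith, by linarith, e2, e3, e4,
        by linarith⟩
    · obtain ⟨sg, ρ, d, f, e1, e2, e3, e4, e5⟩ := sp_pick A2 (s.Dj j) δ M (ρ0 - s.Q) (by linarith)
        hδ1 hM (by rw [hDj]; linarith) (by linarith) (by rw [hDj]; linarith)
      refine ⟨sg, b + 1, ρ, d, f, by omega, by omega, by linarith, by linarith, by linarith, e2, e3,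
        e4, by linarith⟩
  rcases eq_or_lt_of_le hb with hb0 | hb0
  · refine main (((s.a' : ℤ) - j) * M) (((s.a' : ℤ) - j) * M + M) le_rfl (by linarith) (by ring)
      ?_ ?_ ?_ ?_
    · rw [hb0]; linarith
    · have : ((s.a' : ℤ) - j) * M ≤ (s.P - b) * M := mul_le_mul_of_nonneg_right (by omega) (by omega)
      linarith
    · have : ((s.a' : ℤ) - j + 1) * M ≤ (b + 1) * M :=
        mul_le_mul_of_nonneg_right (by omega) (by omega)
      linarith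
    · have : ((s.a' : ℤ) - j + 1) * M ≤ (s.P - (b + 1)) * M :=
        mul_le_mul_of_nonneg_right (by omega) (by omega)
      linarith
  · refine main (((s.a' : ℤ) - j) * M + M) (((s.a' : ℤ) - j) * M) (by linarith) le_rfl (by ring)
      ?_ ?_ ?_ ?_
    · have : ((s.a' : ℤ) - j + 1) * M ≤ b * M :=
        mul_le_mul_of_nonneg_right (by omega) (by omega)
      linarith
    · have : ((s.a' : ℤ) - j + 1) * M ≤ (s.P - b) * M :=
        mul_le_mul_of_nonneg_right (by omega) (by omega)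
      linarith
    · have : ((s.a' : ℤ) - j) * M ≤ (b + 1) * M := mul_le_mul_of_nonneg_right (by omega) (by omega)
      linarith
    · have : ((s.a' : ℤ) - j) * M ≤ (s.P - (b + 1)) * M :=
        mul_le_mul_of_nonneg_right (by omega) (by omega)
      linarith

/-- one step of the path: the quality `j` is kept at cost `2 ^ (e - j)` for every digit. -/
theorem step_keep (j n f t : ℕ) (hj : j ≤ s.a) (hj' : 2 * j + 1 ≤ s.a')
    (hn : n = j ∨ n = 2 * s.a - j) (hf : 1 ≤ f) (hf' : f ≤ s.m) (ht : t < s.C) :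
    ∃ (T : Finset s.I) (d : ℤ) (n' f' : ℕ), (n' = j ∨ n' = 2 * s.a' - j) ∧ 1 ≤ f' ∧ f' ≤ s.M ∧
      |d| ≤ 2 ^ (s.e - j) ∧
      (t : ℤ) + (n * s.q + f) * s.C = (∑ x ∈ T, (s.val x : ℤ)) + d + (n' * s.Q + f') := by
  have hP := s.sp_P_large'
  have hj'' : 2 * (j : ℤ) + 1 ≤ s.a' := by exact_mod_cast hj'
  have hQpos : 0 < s.Q := by
    have h1 := s.sp_Q
    have h2 := s.sp_M_pos
    have : (0 : ℤ) < s.Q := by rw [h1]; positivity
    exact_mod_cast this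
  -- reduction: `i` copies of `C`, the level `n'`, and `b`
  have red : ∀ (i n' : ℕ) (b : ℤ), i ≤ s.m → (n' = j ∨ n' = 2 * s.a' - j) →
      (s.a' : ℤ) - j ≤ b → b ≤ s.P - 1 - (s.a' - j) →
      (((t / s.Q : ℕ) : ℤ) + (f - i) * s.P = b + n') →
      ∃ (T : Finset s.I) (d : ℤ) (n' f' : ℕ), (n' = j ∨ n' = 2 * s.a' - j) ∧ 1 ≤ f' ∧ f' ≤ s.M ∧
      |d| ≤ 2 ^ (s.e - j) ∧
      (t : ℤ) + (n * s.q + f) * s.C = (∑ x ∈ T, (s.val x : ℤ)) + d + (n' * s.Q + f') := by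
    intro i n' b hi hn' hb hb' heq
    have hdm : ((t / s.Q : ℕ) : ℤ) * s.Q + ((t % s.Q : ℕ) : ℤ) = t := by
      have := Nat.div_add_mod' t s.Q
      exact_mod_cast this
    have hlt : ((t % s.Q : ℕ) : ℤ) < s.Q := by exact_mod_cast Nat.mod_lt t hQpos
    obtain ⟨sg, p, ρ, d, f', hp0, hpP, h1, h2, h3, hd, hf1, hf2, e⟩ :=
      s.sp_key j hj hj' b ((t % s.Q : ℕ) : ℤ) hb hb' (by positivity) hlt
    obtain ⟨T1, hT1⟩ := s.sp_copies i hi
    obtain ⟨T2, hT2⟩ := s.carry_exists j n hj hn sg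
    obtain ⟨T3, hT3⟩ := s.base_exists p ρ hp0 hpP h1 h2 h3
    obtain ⟨f'', rfl⟩ := Int.eq_ofNat_of_zero_le (by omega : (0 : ℤ) ≤ f')
    refine ⟨T1.disjSum (T2.disjSum T3), d, n', f'', hn', by exact_mod_cast hf1,
      by exact_mod_cast hf2, hd, ?_⟩
    rw [s.sp_sum, hT1, hT2, hT3, ← hdm, s.sp_C]
    linear_combination e + (s.Q : ℤ) * heq
  -- the cases
  have htP : t / s.Q < s.P := by
    apply Nat.div_lt_of_lt_mul
    have : t < s.P * s.Q := ht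
    rwa [Nat.mul_comm] at this
  have htP' : ((t / s.Q : ℕ) : ℤ) < s.P := by exact_mod_cast htP
  set at' : ℕ := t / s.Q with hat
  have hn2 : ((2 * s.a' - j : ℕ) : ℤ) = 2 * (s.a' : ℤ) - j := by
    have : j ≤ 2 * s.a' := by omega
    push_cast [this]
    ring
  have hat0 : (0 : ℤ) ≤ (at' : ℤ) := Int.natCast_nonneg _
  by_cases c1 : at' < s.a'
  · -- case (iii)
    have c1' : (at' : ℤ) < s.a' := by exact_mod_cast c1
    refine red (f - 1) (2 * s.a' - j) (s.P + at' - 2 * s.a' + j) (by omega) (Or.inr rfl)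
      (by omega) (by omega) ?_
    rw [hn2]
    have : ((f - 1 : ℕ) : ℤ) = f - 1 := by push_cast [hf]; ring
    rw [this]; ring
  · have c1' : (s.a' : ℤ) ≤ at' := by
      have := Nat.le_of_not_lt c1
      exact_mod_cast this
    by_cases c2 : (at' : ℤ) < s.P - s.a'
    · exact red f j (at' - j) hf' (Or.inl rfl) (by omega) (by omega) (by ring)
    · refine red f (2 * s.a' - j) (at' - 2 * s.a' + j) hf' (Or.inr rfl) (by omega) (by omega) ?_
      rw [hn2]; ring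

/-- one good step of the path: any quality can be reached at no cost for a good digit. -/
theorem step_good (j n f t j' : ℕ) (hj : j ≤ s.a)
    (hn : n = j ∨ n = 2 * s.a - j) (hf : 1 ≤ f) (hf' : f ≤ s.m) (hj' : j' ≤ s.a')
    (ht : s.C ≤ 4 * t + 4) (ht' : 4 * t ≤ 3 * s.C) :
    ∃ (T : Finset s.I),
      (t : ℤ) + (n * s.q + f) * s.C = (∑ x ∈ T, (s.val x : ℤ)) + 0 + (j' * s.Q + 1) := by
  have hP := s.sp_P_large
  have hM := s.sp_M_pos
  have hQ := s.sp_Q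
  have hja : (j : ℤ) ≤ s.a' := by
    have := s.haa
    exact_mod_cast hj.trans this
  have hj'a : (j' : ℤ) ≤ s.a' := by exact_mod_cast hj'
  have ha0 : (0 : ℤ) ≤ s.a' := by positivity
  have hD1 : s.Dj j ≤ (s.a' + 1) * s.M - 1 := by
    have h1 : (1 : ℤ) ≤ 2 ^ (s.e - j) := one_le_pow₀ (by norm_num)
    have h2 : ((j : ℤ) + 1) * s.M ≤ (s.a' + 1) * s.M :=
      mul_le_mul_of_nonneg_right (by omega) (by omega)
    unfold Dj
    linarith
  have hD0 : 0 ≤ s.Dj j := by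
    have h1 : (2 : ℤ) ^ (s.e - j) ≤ s.M := by
      unfold M
      push_cast
      exact pow_le_pow_right₀ (by norm_num) (Nat.sub_le _ _)
    have h2 : (s.M : ℤ) ≤ ((j : ℤ) + 1) * s.M := by nlinarith [(by positivity : (0 : ℤ) ≤ (j : ℤ) * s.M)]
    unfold Dj
    linarith
  set H : ℤ := (s.a' + 2) * s.M with hH
  have hQ2 : (s.Q : ℤ) = 2 * H := by rw [hQ, hH]; ring
  have hHpos : 0 < H := by positivity
  -- the target for the base elements
  set x : ℤ := t - s.Dj j - j' * s.Q - 1 with hx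
  set p : ℤ := (x + H) / s.Q with hp
  have hpm : p * s.Q + (x + H) % s.Q = x + H := by
    rw [hp, mul_comm]; exact Int.mul_ediv_add_emod (x + H) s.Q
  have hr0 : 0 ≤ (x + H) % s.Q := Int.emod_nonneg _ (by omega)
  have hr1 : (x + H) % s.Q < s.Q := Int.emod_lt_of_pos _ (by omega)
  have hC := s.sp_C
  have ht1 : (s.C : ℤ) ≤ 4 * t + 4 := by exact_mod_cast ht
  have ht2 : 4 * (t : ℤ) ≤ 3 * s.C := by exact_mod_cast ht'
  have hj'Q : (j' : ℤ) * s.Q ≤ s.a' * s.Q := mul_le_mul_of_nonneg_right hj'a (by omega)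
  have hj'Q0 : (0 : ℤ) ≤ (j' : ℤ) * s.Q := by positivity
  have hDH : s.Dj j ≤ H - 1 - s.M := by rw [hH]; linarith
  -- bounds for p
  have hp1 : (s.a' : ℤ) + 2 ≤ p := by
    by_contra hcon
    have hcon' : p ≤ s.a' + 1 := by omega
    have h3 : p * s.Q ≤ (s.a' + 1) * s.Q := mul_le_mul_of_nonneg_right hcon' (by omega)
    have h4 : (4 * ((s.a' : ℤ) + 2) * (s.a' + 3)) * s.Q ≤ s.P * s.Q :=
      mul_le_mul_of_nonneg_right hP (by omega)
    nlinarith [mul_nonneg ha0 (by omega : (0 : ℤ) ≤ s.Q), mul_nonneg (mul_nonneg ha0 ha0)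
      (by omega : (0 : ℤ) ≤ s.Q)]
  have hp2 : p ≤ s.P - (s.a' + 2) := by
    by_contra hcon
    have hcon' : s.P - (s.a' + 1) ≤ p := by omega
    have h3 : (s.P - (s.a' + 1)) * s.Q ≤ p * s.Q := mul_le_mul_of_nonneg_right hcon' (by omega)
    have h4 : (4 * ((s.a' : ℤ) + 2) * (s.a' + 3)) * s.Q ≤ s.P * s.Q :=
      mul_le_mul_of_nonneg_right hP (by omega)
    nlinarith [mul_nonneg ha0 (by omega : (0 : ℤ) ≤ s.Q), mul_nonneg (mul_nonneg ha0 ha0)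
      (by omega : (0 : ℤ) ≤ s.Q)]
  have hρ : |(x + H) % s.Q - H| ≤ H := by
    rw [abs_le]; constructor <;> omega
  have hH1 : H ≤ s.M * p := by
    rw [hH, mul_comm]; exact mul_le_mul_of_nonneg_left hp1 (by omega)
  have hH2 : H ≤ s.M * (s.P - p) := by
    rw [hH, mul_comm]; exact mul_le_mul_of_nonneg_left (by omega) (by omega)
  obtain ⟨T1, hT1⟩ := s.sp_copies f hf'
  obtain ⟨T2, hT2⟩ := s.carry_exists j n hj hn true
  obtain ⟨T3, hT3⟩ := s.base_exists p ((x + H) % s.Q - H) (by omega) (by omega) (hρ.trans hH1)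
    (hρ.trans hH2) (by rw [mul_comm]; exact hρ)
  refine ⟨T1.disjSum (T2.disjSum T3), ?_⟩
  rw [s.sp_sum, hT1, hT2, hT3]
  simp only [if_true]
  linear_combination (-1 : ℤ) * hpm - hx

end Stage
end Ach
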