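import Pool.Agent.H674.AchF.Series

/-! Achievement sets: the sum range of the series of a `Dat` is the plane. -/

open Filter Topology MeasureTheory
set_option autoImplicit false
set_option relaxedAutoImplicit false

namespace Ach
namespace Dat
variable (D : Dat)

theorem srp_negpow (i e : ℕ) : (-1 : ℝ) ^ (2 * i + e) = (-1) ^ e := by
  rw [pow_add, pow_mul]
  norm_num

theorem srp_abs (r : ℕ) : |(-1 : ℝ) ^ r| = 1 := by
  rw [abs_pow, abs_neg, abs_one, one_pow]

theorem srp_M_pos (k : ℕ) : (0 : ℝ) < D.M k := by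
  have := D.hM k
  exact_mod_cast this

theorem srp_vec2 (k r : ℕ) (hr : r < 2 * D.N k) :
    D.vec k (D.c k + r) = ((-1 : ℝ) ^ r * D.X (k + 1), (-1 : ℝ) ^ r * (D.M k : ℝ)⁻¹) := by
  unfold vec
  rw [dif_neg (by omega), if_pos (by omega), Nat.add_sub_cancel_left]

theorem srp_vec3 (k r : ℕ) :
    D.vec k (D.c k + 2 * D.N k + r) = (0, (-1 : ℝ) ^ r * (D.M k : ℝ)⁻¹) := by
  unfold vec
  rw [dif_neg (by omega), if_neg (by omega), Nat.add_sub_cancel_left]

/-- a bound for the vectors of block `k` -/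
noncomputable def srpB (k : ℕ) : ℝ :=
  (∑ i, (D.val k i : ℝ)) * D.X (k + 1) + D.X (k + 1) + (D.M k : ℝ)⁻¹

theorem srp_norm (k j : ℕ) : ‖D.vec k j‖ ≤ D.srpB k := by
  have hX := D.X_pos (k + 1)
  have hM := D.srp_M_pos k
  have hMi : 0 < (D.M k : ℝ)⁻¹ := inv_pos.2 hM
  have hS : 0 ≤ ∑ i, (D.val k i : ℝ) := Finset.sum_nonneg fun i _ => Nat.cast_nonneg _
  have hSX := mul_nonneg hS hX.le
  unfold vec srpB
  split_ifs with h1 h2
  · rw [Prod.norm_def]
    simp only [norm_zero]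
    apply max_le
    · rw [Real.norm_eq_abs, abs_of_nonneg (mul_nonneg (Nat.cast_nonneg _) hX.le)]
      have h3 : (D.val k ((Fintype.equivFin (D.ι k)).symm ⟨j, h1⟩) : ℝ) ≤ ∑ i, (D.val k i : ℝ) :=
        Finset.single_le_sum (f := fun i => (D.val k i : ℝ)) (fun i _ => Nat.cast_nonneg _)
          (Finset.mem_univ _)
      have h4 := mul_le_mul_of_nonneg_right h3 hX.le
      linarith
    · linarith
  · rw [Prod.norm_def]
    apply max_le
    · simp only [Real.norm_eq_abs]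
      rw [abs_mul, srp_abs, one_mul, abs_of_pos hX]
      linarith
    · simp only [Real.norm_eq_abs]
      rw [abs_mul, srp_abs, one_mul, abs_of_pos hMi]
      linarith
  · rw [Prod.norm_def]
    apply max_le
    · simp only [norm_zero]
      linarith
    · simp only [Real.norm_eq_abs]
      rw [abs_mul, srp_abs, one_mul, abs_of_pos hMi]
      linarith

theorem srp_X_tendsto : Tendsto (fun k => D.X (k + 1)) atTop (𝓝 0) := by
  have h1 : Tendsto (fun k : ℕ => (1 / 2 : ℝ) ^ (k + 1)) atTop (𝓝 0) :=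
    (tendsto_pow_atTop_nhds_zero_of_lt_one (by norm_num) (by norm_num)).comp (tendsto_add_atTop_nat 1)
  exact squeeze_zero (fun k => (D.X_pos (k + 1)).le) (fun k => D.X_le (k + 1)) h1

theorem srp_Minv_tendsto : Tendsto (fun k => (D.M k : ℝ)⁻¹) atTop (𝓝 0) :=
  tendsto_inv_atTop_zero.comp (tendsto_natCast_atTop_atTop.comp D.hM')

theorem srp_B_tendsto (h : D.Small) : Tendsto D.srpB atTop (𝓝 0) := by
  have h1 : Tendsto (fun k => (∑ i, (D.val k i : ℝ)) * D.X (k + 1)) atTop (𝓝 0) :=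
    h.tendsto_atTop_zero
  have h2 := (h1.add D.srp_X_tendsto).add D.srp_Minv_tendsto
  rw [add_zero, add_zero] at h2
  exact h2

theorem srp_x_tendsto (h : D.Small) : Tendsto D.x atTop (𝓝 0) := by
  rw [Metric.tendsto_atTop]
  intro ε hε
  obtain ⟨K, hK⟩ := (Metric.tendsto_atTop.1 (D.srp_B_tendsto h)) ε hε
  refine ⟨off D.ℓ K, fun n hn => ?_⟩
  obtain ⟨k, j, hj, rfl⟩ := exists_off_add D.one_le_ℓ n
  have hkK : K ≤ k := by
    by_contra hc
    have h1 : off D.ℓ (k + 1) ≤ off D.ℓ K := off_mono D.ℓ (by omega)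
    rw [off_succ] at h1
    omega
  have h2 := hK k hkK
  have h3 : D.x (off D.ℓ k + j) = D.vec k j := glue_apply D.one_le_ℓ D.vec k j hj
  rw [h3, dist_zero_right]
  refine lt_of_le_of_lt (D.srp_norm k j) ?_
  rw [Real.dist_eq, sub_zero] at h2
  exact lt_of_le_of_lt (le_abs_self _) h2

/-- the positions: `A` the start of the second kind, `N` the number of pairs of the second kind -/
def srpS (A N m1 b1 b1' b2 i : ℕ) : ℕ :=
  if i < 2 * m1 then (if i % 2 = 0 then A + (2 * (i / 2) + b1) else A + 2 * N + (2 * (i / 2) + b1'))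
  else A + 2 * N + (2 * (N + (i - 2 * m1)) + b2)

theorem srpS_inj (A N m1 b1 b1' b2 : ℕ) (hm : m1 ≤ N) (h1 : b1 ≤ 1) (h1' : b1' ≤ 1) (h2 : b2 ≤ 1)
    (i j : ℕ) (h : srpS A N m1 b1 b1' b2 i = srpS A N m1 b1 b1' b2 j) : i = j := by
  unfold srpS at h
  split_ifs at h <;> omega

theorem srp_part (k : ℕ) (w1 w2 : ℝ) (e1 e2 : ℕ) (he1 : e1 ≤ 1) (he2 : e2 ≤ 1)
    (hw1 : w1 = (-1) ^ e1 * |w1|) (hw2 : w2 = (-1) ^ e2 * |w2|)
    (hk1 : |w1| ≤ k + 1) (hk2 : |w2| ≤ k + 2) (ε : ℝ) (hX : D.X (k + 1) ≤ ε)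
    (hM : (D.M k : ℝ)⁻¹ ≤ ε) :
    ∃ (m : ℕ) (s : ℕ → ℕ), Set.InjOn s (Set.Iio m) ∧ (∀ i < m, off D.ℓ k ≤ s i) ∧
      ‖((w1, w2) : ℝ × ℝ) - ∑ i ∈ Finset.range m, D.x (s i)‖ ≤ ε ∧
      ∀ j ≤ m, ‖∑ i ∈ Finset.range j, D.x (s i)‖ ≤ ‖((w1, w2) : ℝ × ℝ)‖ + ε := by
  have hX0 := D.X_pos (k + 1)
  have hM0 := D.srp_M_pos k
  have hMi : 0 < (D.M k : ℝ)⁻¹ := inv_pos.2 hM0
  have hM1 : (1 : ℝ) ≤ D.M k := by exact_mod_cast D.hM k
  set X := D.X (k + 1) with hXdef
  set Mi := (D.M k : ℝ)⁻¹ with hMidef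
  set m1 := ⌊|w1| / X⌋₊ with hm1
  set m2 := ⌊|w2| * D.M k⌋₊ with hm2
  have hm1le : (m1 : ℝ) ≤ |w1| / X := Nat.floor_le (by positivity)
  have hm1lt : |w1| / X < m1 + 1 := Nat.lt_floor_add_one _
  have hm2le : (m2 : ℝ) ≤ |w2| * D.M k := Nat.floor_le (by positivity)
  have hm2lt : |w2| * D.M k < m2 + 1 := Nat.lt_floor_add_one _
  have hm1N : m1 ≤ D.N k := by
    have h1 : (m1 : ℝ) ≤ D.N k := by
      refine hm1le.trans ?_
      rw [div_le_iff₀ hX0, D.N_mul_X k]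
      have h2 : (0 : ℝ) ≤ k := Nat.cast_nonneg k
      nlinarith
    exact_mod_cast h1
  have hm2N : D.N k + m2 ≤ D.N' k := by
    have h1 : m2 ≤ (k + 2) * D.M k := by
      have h2 : (m2 : ℝ) ≤ (k + 2) * D.M k := hm2le.trans (mul_le_mul_of_nonneg_right hk2 hM0.le)
      exact_mod_cast h2
    have h3 : D.N k ≤ ∑ i ∈ Finset.range (k + 1), D.N i :=
      Finset.single_le_sum (f := fun i => D.N i) (fun _ _ => Nat.zero_le _)
        (Finset.mem_range.2 (Nat.lt_succ_self k))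
    have h4 : (k + 2 + D.N k) * D.M k ≤ D.N' k := by
      unfold N'
      exact Nat.mul_le_mul_right _ (by omega)
    have h5 : D.N k ≤ D.N k * D.M k := Nat.le_mul_of_pos_right _ (D.hM k)
    have h6 : (k + 2 + D.N k) * D.M k = (k + 2) * D.M k + D.N k * D.M k := by ring
    omega
  set s : ℕ → ℕ := srpS (off D.ℓ k + D.c k) (D.N k) m1 e1 (1 - e1) e2 with hs
  have hℓ : D.ℓ k = D.c k + 2 * D.N k + 2 * D.N' k := rfl
  -- the vectors
  have hneg : (-1 : ℝ) ^ (1 - e1) = -((-1) ^ e1) := by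
    rcases (by omega : e1 = 0 ∨ e1 = 1) with h | h <;> rw [h] <;> norm_num
  have hv1 : ∀ t < m1, D.x (s (2 * t)) = ((-1) ^ e1 * X, (-1) ^ e1 * Mi) := by
    intro t ht
    have e : s (2 * t) = off D.ℓ k + (D.c k + (2 * t + e1)) := by
      rw [hs]; unfold srpS
      rw [if_pos (by omega), if_pos (by omega)]
      omega
    rw [e]
    have h1 : D.x (off D.ℓ k + (D.c k + (2 * t + e1))) = D.vec k (D.c k + (2 * t + e1)) :=
      glue_apply D.one_le_ℓ D.vec k _ (by rw [hℓ]; omega)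
    rw [h1, D.srp_vec2 k _ (by omega), srp_negpow]
  have hv2 : ∀ t < m1, D.x (s (2 * t + 1)) = (0, -((-1) ^ e1 * Mi)) := by
    intro t ht
    have e : s (2 * t + 1) = off D.ℓ k + (D.c k + 2 * D.N k + (2 * t + (1 - e1))) := by
      rw [hs]; unfold srpS
      rw [if_pos (by omega), if_neg (by omega)]
      omega
    rw [e]
    have h1 : D.x (off D.ℓ k + (D.c k + 2 * D.N k + (2 * t + (1 - e1)))) =
        D.vec k (D.c k + 2 * D.N k + (2 * t + (1 - e1))) :=
      glue_apply D.one_le_ℓ D.vec k _ (by rw [hℓ]; omega)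
    rw [h1, D.srp_vec3, srp_negpow, hneg, neg_mul]
  have hv3 : ∀ t < m2, D.x (s (2 * m1 + t)) = (0, (-1) ^ e2 * Mi) := by
    intro t ht
    have e : s (2 * m1 + t) = off D.ℓ k + (D.c k + 2 * D.N k + (2 * (D.N k + t) + e2)) := by
      rw [hs]; unfold srpS
      rw [if_neg (by omega)]
      omega
    rw [e]
    have h1 : D.x (off D.ℓ k + (D.c k + 2 * D.N k + (2 * (D.N k + t) + e2))) =
        D.vec k (D.c k + 2 * D.N k + (2 * (D.N k + t) + e2)) :=
      glue_apply D.one_le_ℓ D.vec k _ (by rw [hℓ]; omega)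
    rw [h1, D.srp_vec3, srp_negpow]
  -- the sums
  have hs1 : ∀ t ≤ m1, ∑ i ∈ Finset.range (2 * t), D.x (s i) = ((-1) ^ e1 * (t * X), 0) := by
    intro t
    induction t with
    | zero =>
      intro _
      simp only [Finset.range_zero, Finset.sum_empty, Nat.cast_zero, zero_mul, mul_zero]
      rfl
    | succ t ih =>
      intro ht
      have e : 2 * (t + 1) = 2 * t + 1 + 1 := by ring
      rw [e, Finset.sum_range_succ, Finset.sum_range_succ, ih (by omega), hv1 t (by omega),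
        hv2 t (by omega)]
      ext
      · simp only [Prod.fst_add]
        push_cast
        ring
      · simp only [Prod.snd_add]
        ring
  have hs2 : ∀ t < m1, ∑ i ∈ Finset.range (2 * t + 1), D.x (s i) =
      ((-1) ^ e1 * ((t + 1) * X), (-1) ^ e1 * Mi) := by
    intro t ht
    rw [Finset.sum_range_succ, hs1 t ht.le, hv1 t ht]
    ext
    · simp only [Prod.fst_add]
      ring
    · simp only [Prod.snd_add]
      ring
  have hs3 : ∀ t ≤ m2, ∑ i ∈ Finset.range (2 * m1 + t), D.x (s i) =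
      ((-1) ^ e1 * (m1 * X), (-1) ^ e2 * (t * Mi)) := by
    intro t
    induction t with
    | zero =>
      intro _
      rw [Nat.add_zero, hs1 m1 le_rfl]
      simp
    | succ t ih =>
      intro ht
      rw [← Nat.add_assoc, Finset.sum_range_succ, ih (by omega), hv3 t (by omega)]
      ext
      · simp only [Prod.fst_add]
        ring
      · simp only [Prod.snd_add]
        push_cast
        ring
  have hmX : (m1 : ℝ) * X ≤ |w1| := by rwa [le_div_iff₀ hX0] at hm1le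
  have hmM : (m2 : ℝ) * Mi ≤ |w2| := by
    rw [hMidef, ← div_eq_mul_inv, div_le_iff₀ hM0]
    exact hm2le
  have hn1 : |w1| ≤ ‖((w1, w2) : ℝ × ℝ)‖ := norm_fst_le ((w1, w2) : ℝ × ℝ)
  have hn2 : |w2| ≤ ‖((w1, w2) : ℝ × ℝ)‖ := norm_snd_le ((w1, w2) : ℝ × ℝ)
  refine ⟨2 * m1 + m2, s, ?_, ?_, ?_, ?_⟩
  · intro i _ j _ hij
    exact srpS_inj _ _ _ _ _ _ hm1N he1 (by omega) he2 i j hij
  · intro i _
    rw [hs]; unfold srpS
    split_ifs <;> omega
  · rw [hs3 m2 le_rfl, Prod.norm_def]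
    apply max_le
    · show ‖w1 - (-1) ^ e1 * (m1 * X)‖ ≤ ε
      have e : w1 - (-1) ^ e1 * (m1 * X) = (-1) ^ e1 * (|w1| - m1 * X) := by
        rw [mul_sub, ← hw1]
      rw [e, Real.norm_eq_abs, abs_mul, srp_abs, one_mul, abs_of_nonneg (by linarith)]
      have h1 : |w1| < (m1 + 1) * X := by rwa [div_lt_iff₀ hX0] at hm1lt
      linarith
    · show ‖w2 - (-1) ^ e2 * (m2 * Mi)‖ ≤ ε
      have e : w2 - (-1) ^ e2 * (m2 * Mi) = (-1) ^ e2 * (|w2| - m2 * Mi) := by
        rw [mul_sub, ← hw2]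
      rw [e, Real.norm_eq_abs, abs_mul, srp_abs, one_mul, abs_of_nonneg (by linarith)]
      have h1 : |w2| < (m2 + 1) * Mi := by
        rw [hMidef, ← div_eq_mul_inv, lt_div_iff₀ hM0]
        exact hm2lt
      linarith
  · intro j hj
    have hε : 0 ≤ ε := hX0.le.trans hX
    rcases lt_or_ge j (2 * m1) with hj1 | hj1
    · obtain ⟨t, ht⟩ : ∃ t, j = 2 * t ∨ j = 2 * t + 1 := ⟨j / 2, by omega⟩
      rcases ht with rfl | rfl
      · rw [hs1 t (by omega), Prod.norm_def]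
        have h1 : (t : ℝ) ≤ m1 := by exact_mod_cast (by omega : t ≤ m1)
        have h2 : (t : ℝ) * X ≤ m1 * X := mul_le_mul_of_nonneg_right h1 hX0.le
        apply max_le
        · show ‖(-1) ^ e1 * (t * X)‖ ≤ _
          rw [Real.norm_eq_abs, abs_mul, srp_abs, one_mul, abs_of_nonneg (by positivity)]
          linarith
        · show ‖(0 : ℝ)‖ ≤ _
          rw [norm_zero]
          positivity
      · rw [hs2 t (by omega), Prod.norm_def]
        have h1 : (t : ℝ) + 1 ≤ m1 := by exact_mod_cast (by omega : t + 1 ≤ m1)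
        have h2 : ((t : ℝ) + 1) * X ≤ m1 * X := mul_le_mul_of_nonneg_right h1 hX0.le
        apply max_le
        · show ‖(-1) ^ e1 * ((t + 1) * X)‖ ≤ _
          rw [Real.norm_eq_abs, abs_mul, srp_abs, one_mul, abs_of_nonneg (by positivity)]
          linarith
        · show ‖(-1) ^ e1 * Mi‖ ≤ _
          rw [Real.norm_eq_abs, abs_mul, srp_abs, one_mul, abs_of_nonneg hMi.le]
          have := norm_nonneg ((w1, w2) : ℝ × ℝ)
          linarith
    · obtain ⟨t, rfl⟩ : ∃ t, j = 2 * m1 + t := ⟨j - 2 * m1, by omega⟩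
      rw [hs3 t (by omega), Prod.norm_def]
      have h1 : (t : ℝ) ≤ m2 := by exact_mod_cast (by omega : t ≤ m2)
      have h2 : (t : ℝ) * Mi ≤ m2 * Mi := mul_le_mul_of_nonneg_right h1 hMi.le
      apply max_le
      · show ‖(-1) ^ e1 * (m1 * X)‖ ≤ _
        rw [Real.norm_eq_abs, abs_mul, srp_abs, one_mul, abs_of_nonneg (by positivity)]
        linarith
      · show ‖(-1) ^ e2 * (t * Mi)‖ ≤ _
        rw [Real.norm_eq_abs, abs_mul, srp_abs, one_mul, abs_of_nonneg (by positivity)]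
        linarith

theorem srp_sign (w : ℝ) : ∃ e : ℕ, e ≤ 1 ∧ w = (-1) ^ e * |w| := by
  rcases le_total 0 w with h | h
  · exact ⟨0, by omega, by rw [abs_of_nonneg h]; simp⟩
  · exact ⟨1, le_rfl, by rw [abs_of_nonpos h]; simp⟩

/-- the sum range is the plane. -/
theorem sumRange_eq (h : D.Small) : SumRange D.x = Set.univ := by
  rw [Set.eq_univ_iff_forall]
  intro p
  refine exists_perm_sum D.x (D.srp_x_tendsto h) 1 ?_ p
  rintro ⟨w1, w2⟩ ε hε F
  obtain ⟨e1, he1, hw1⟩ := srp_sign w1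
  obtain ⟨e2, he2, hw2⟩ := srp_sign w2
  have ev1 : ∀ᶠ k in atTop, D.X (k + 1) ≤ ε :=
    (D.srp_X_tendsto.eventually_lt_const hε).mono fun _ hk => hk.le
  have ev2 : ∀ᶠ k in atTop, (D.M k : ℝ)⁻¹ ≤ ε :=
    (D.srp_Minv_tendsto.eventually_lt_const hε).mono fun _ hk => hk.le
  have ev3 : ∀ᶠ k : ℕ in atTop, |w1| + |w2| ≤ k :=
    tendsto_natCast_atTop_atTop.eventually_ge_atTop _
  have ev4 : ∀ᶠ k : ℕ in atTop, F.sup id < k := eventually_gt_atTop _
  obtain ⟨k, hk1, hk2, hk3, hk4⟩ := (ev1.and (ev2.and (ev3.and ev4))).exists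
  obtain ⟨m, s, h1, h2, h3, h4⟩ := D.srp_part k w1 w2 e1 e2 he1 he2 hw1 hw2
    (by have := abs_nonneg w2; linarith) (by have := abs_nonneg w1; linarith) ε hk1 hk2
  refine ⟨m, s, h1, ?_, h3, ?_⟩
  · intro i hi hF
    have h5 := h2 i hi
    have h6 : s i ≤ F.sup id := Finset.le_sup (f := id) hF
    have h7 := le_off D.one_le_ℓ k
    omega
  · intro j hj
    rw [one_mul]
    exact h4 j hj

end Dat
end Ach
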