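import Pool.Agent.H674.AchF.Carry
import Pool.Agent.H674.AchF.StepK
import Pool.Agent.H674.AchF.Lock
import Pool.Agent.H674.AchF.Series
import Pool.Agent.H674.AchF.CondConv
import Pool.Agent.H674.AchF.FstMem
import Pool.Agent.H674.AchF.MemAch
import Pool.Agent.H674.AchF.SumRange
import Pool.Agent.H674.AchF.Small

/-! Achievement sets: the concrete data (basic facts). -/

open Filter Topology MeasureTheory
set_option autoImplicit false
set_option relaxedAutoImplicit false

namespace Ach

theorem aux_pow (k : ℕ) : 2 * k + 3 + 2 ≤ 2 * 2 ^ (2 * k + 3) := by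
  have := (Nat.lt_two_pow_self (n := 2 * k + 3))
  omega

/-- the stages of the construction -/
def stage (k : ℕ) : Stage where
  m := 2 ^ (2 * k + 1)
  a := 2 * k + 1
  q := (4 * k + 6) * 2 ^ (2 * k + 1)
  e := 2 * k + 3
  a' := 2 * k + 3
  hm := Nat.one_le_two_pow
  hq := Nat.succ_le_of_lt (by positivity)
  ha := by omega
  he := by omega
  ha' := aux_pow k
  haa := by omega

theorem stage_m (k : ℕ) : (stage (k + 1)).m = (stage k).M := by
  show 2 ^ (2 * (k + 1) + 1) = 2 ^ (2 * k + 3)
  congr 1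

theorem stage_a (k : ℕ) : (stage (k + 1)).a = (stage k).a' := by
  show 2 * (k + 1) + 1 = 2 * k + 3
  ring

theorem stage_q (k : ℕ) : (stage (k + 1)).q = (stage k).Q := by
  show (4 * (k + 1) + 6) * 2 ^ (2 * (k + 1) + 1) = (2 * (2 * k + 3) + 4) * 2 ^ (2 * k + 3)
  have h1 : 2 * (k + 1) + 1 = 2 * k + 3 := by ring
  have h2 : 4 * (k + 1) + 6 = 2 * (2 * k + 3) + 4 := by ring
  rw [h1, h2]

theorem stage_M (k : ℕ) : 1 ≤ (stage k).M := Nat.one_le_two_pow

theorem stage_Q_pos (k : ℕ) : 1 ≤ (stage k).Q :=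
  Nat.succ_le_of_lt (Nat.mul_pos (by omega) (stage_M k))

theorem stage_P_ge (k : ℕ) : 8 * (stage k).M ≤ (stage k).P := by
  show 8 * (stage k).M ≤ (2 * (stage k).M + 1) * (8 * (stage k).M)
  exact Nat.le_mul_of_pos_left _ (by omega)

theorem stage_C (k : ℕ) : 2 ≤ (stage k).C := by
  have h1 := stage_M k
  have h2 := stage_Q_pos k
  have h3 := stage_P_ge k
  show 2 ≤ (stage k).P * (stage k).Q
  calc 2 ≤ (stage k).P * 1 := by omega
    _ ≤ (stage k).P * (stage k).Q := Nat.mul_le_mul_left _ h2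

theorem stage_M_tendsto : Tendsto (fun k => (stage k).M) atTop atTop := by
  refine tendsto_atTop_mono (fun k => ?_) tendsto_id
  show k ≤ 2 ^ (2 * k + 3)
  have := (Nat.lt_two_pow_self (n := 2 * k + 3))
  omega

/-- the data -/
def dat : Dat where
  C k := (stage k).C
  hC := stage_C
  M k := (stage k).M
  hM := stage_M
  hM' := stage_M_tendsto
  ι k := (stage k).I
  fin k := inferInstance
  val k := (stage k).val

/-- the total of stage `k + 1` is small compared with `C k` -/
theorem stage_total_le (k : ℕ) :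
    (stage (k + 1)).m + 2 * (stage (k + 1)).a * (stage (k + 1)).q + 1 ≤ (stage k).C := by
  have hM := stage_M k
  have hQ := stage_Q_pos k
  have hP := stage_P_ge k
  have ha : (stage (k + 1)).a ≤ (stage k).M := by
    rw [stage_a]
    show 2 * k + 3 ≤ 2 ^ (2 * k + 3)
    exact (Nat.lt_two_pow_self (n := 2 * k + 3)).le
  have hm := stage_m k
  have hq := stage_q k
  rw [hm, hq]
  show _ ≤ (stage k).P * (stage k).Q
  generalize (stage k).M = M at *
  generalize (stage k).Q = Q at *
  generalize (stage k).P = P at *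
  generalize (stage (k + 1)).a = a at *
  have h1 : M ≤ M * Q := Nat.le_mul_of_pos_right _ hQ
  calc M + 2 * a * Q + 1 ≤ M * Q + 2 * M * Q + Q := by
        have : 2 * a * Q ≤ 2 * M * Q := Nat.mul_le_mul_right _ (by omega)
        omega
    _ = (3 * M + 1) * Q := by ring
    _ ≤ P * Q := Nat.mul_le_mul_right _ (by omega)

theorem dat_term (k : ℕ) : (∑ i, (dat.val k i : ℝ)) * dat.X (k + 1) =
    (((stage k).m + 2 * (stage k).a * (stage k).q + 1 : ℕ) : ℝ) * dat.X k := by
  have h := (stage k).total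
  have h' : (∑ i, (dat.val k i : ℝ)) =
      (((stage k).m + 2 * (stage k).a * (stage k).q + 1 : ℕ) : ℝ) * ((stage k).C : ℝ) := by
    rw [← Nat.cast_mul, ← h, Nat.cast_sum]
    rfl
  rw [h', dat.X_succ k, mul_assoc]
  rfl

theorem dat_small : dat.Small := by
  unfold Dat.Small
  rw [← summable_nat_add_iff 1]
  refine Summable.of_nonneg_of_le (fun k => ?_) (fun k => ?_)
    (summable_geometric_of_lt_one (r := (1 / 2 : ℝ)) (by norm_num) (by norm_num))
  · rw [dat_term]
    exact mul_nonneg (Nat.cast_nonneg _) (dat.X_pos _).le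
  · rw [dat_term]
    have h1 : (((stage (k + 1)).m + 2 * (stage (k + 1)).a * (stage (k + 1)).q + 1 : ℕ) : ℝ) ≤
        ((stage k).C : ℝ) := by exact_mod_cast stage_total_le k
    calc _ ≤ ((stage k).C : ℝ) * dat.X (k + 1) :=
          mul_le_mul_of_nonneg_right h1 (dat.X_pos _).le
      _ = dat.X k := (dat.X_succ k).symm
      _ ≤ (1 / 2) ^ k := dat.X_le k

end Ach
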