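import Pool.Agent.H674.AchF.NotMem
import Pool.Agent.H674.AchF.GoodMem

/-! Achievement sets: the main theorem. -/

open Filter Topology MeasureTheory
set_option autoImplicit false
set_option relaxedAutoImplicit false

namespace Ach

theorem main : ∃ x : ℕ → ℝ × ℝ, CondConv x ∧ SumRange x = Set.univ ∧ AchSet x ≠ Set.univ ∧
    volume (AchSet x)ᶜ = 0 ∧ IsMeagre (AchSet x)ᶜ := by
  have hA : (AchSet dat.x)ᶜ = (dat.U)ᶜ ×ˢ (Set.univ : Set ℝ) := by
    ext ⟨u, v⟩
    simp only [Set.mem_compl_iff, Set.mem_prod, Set.mem_univ, and_true]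
    refine not_congr ⟨fun h => Dat.fst_mem_U dat _ h, fun h => Dat.mem_ach dat dat_small u v h⟩
  have hX0 : Tendsto dat.X atTop (𝓝 0) :=
    squeeze_zero (fun k => (dat.X_pos k).le) dat.X_le
      (tendsto_pow_atTop_nhds_zero_of_lt_one (by norm_num) (by norm_num))
  obtain ⟨h1, h2⟩ := null_meagre dat.X dat.X_pos hX0 (dat.U)ᶜ (fun u hu => by
    by_contra hc
    refine hu (good_mem_U u ?_)
    rw [Filter.not_eventually] at hc
    exact hc.mono fun k hk => not_not.mp hk)
  refine ⟨dat.x, dat.condConv dat_small, dat.sumRange_eq dat_small, ?_, hA ▸ h1, hA ▸ h2⟩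
  obtain ⟨u, hu⟩ := exists_not_mem_U
  intro h
  exact hu (dat.fst_mem_U (u, 0) (h ▸ Set.mem_univ _))

end Ach
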