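import Pool.Agent.H674.AchF.MainBasic

/-! Achievement sets: a real number which is not in `U`. -/

open Filter Topology MeasureTheory
set_option autoImplicit false
set_option relaxedAutoImplicit false

namespace Ach

namespace NM

/-- the bound of the states -/
def BB (s : Stage) : ℤ := 2 * s.a * s.q + s.m + 3

/-- the bound after the stage -/
def BB' (s : Stage) : ℤ := 2 * s.a' * s.Q + s.M + 3

theorem M_pos (s : Stage) : (1 : ℤ) ≤ s.M := by
  unfold Stage.M; exact_mod_cast Nat.one_le_two_pow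

theorem two_M (s : Stage) : (s.a' : ℤ) + 2 ≤ 2 * s.M := by
  have := s.ha'
  unfold Stage.M; exact_mod_cast this

/-- numerical estimate of one stage -/
theorem num (s : Stage) : (s.t : ℤ) + s.M + BB' s ≤ 2 * s.C ∧ 4 * (s.t : ℤ) ≤ s.C := by
  have h1 := M_pos s
  have h2 := two_M s
  have ha : (0 : ℤ) ≤ s.a' := by positivity
  have hC : (s.C : ℤ) = ((2 * s.M + 1) * (8 * s.M)) * ((2 * s.a' + 4) * s.M) := by
    unfold Stage.C Stage.P Stage.Q; push_cast; ring
  have hQ : (s.Q : ℤ) = (2 * s.a' + 4) * s.M := by unfold Stage.Q; push_cast; ring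
  have ht : (s.t : ℤ) = (2 * s.a' + 1) * ((s.a' + 2) * s.M) := by unfold Stage.t; push_cast; ring
  unfold BB'
  rw [hC, hQ, ht]
  generalize (s.a' : ℤ) = A at *
  generalize (s.M : ℤ) = M at *
  -- 16 M^2 ≥ 8 M (A + 2), all terms in units of (A + 2) M
  have hM2 : 0 ≤ M * M := by positivity
  have k1 : (A + 2) * M ≤ 2 * (M * M) := by nlinarith
  have k2 : 0 ≤ (A + 2) * M := by positivity
  have k3 : (A + 2) * M * ((A + 2) * M) ≤ 2 * (M * M) * ((A + 2) * M) := mul_le_mul_of_nonneg_right k1 k2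
  have k4 : (A + 2) * M * M ≥ (A + 2) * M := by nlinarith
  have k5 : (A + 2) * M * M * M ≥ (A + 2) * M * M := by
    have : 0 ≤ (A + 2) * M * M := by positivity
    nlinarith
  have k6 : 2 * M ≤ (A + 2) * M := by nlinarith
  have e1 : ((2 * M + 1) * (8 * M)) * ((2 * A + 4) * M) = 32 * ((A + 2) * M * M * M) + 16 * ((A + 2) * M * M) := by ring
  have e2 : (2 * A + 1) * ((A + 2) * M) ≤ 2 * ((A + 2) * M * (A + 2)) := by nlinarith
  have e3 : (A + 2) * M * (A + 2) ≤ (A + 2) * M * (2 * M) := mul_le_mul_of_nonneg_left h2 k2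
  have e4 : 2 * A * ((2 * A + 4) * M) ≤ 4 * ((A + 2) * M * (A + 2)) := by nlinarith
  rw [e1]
  constructor
  · nlinarith
  · nlinarith

end NM

open NM

/-- the bad number is not in `U` -/
theorem exists_not_mem_U : ∃ u : ℝ, u ∉ dat.U := by
  have hXpos : ∀ k, 0 < dat.X k := fun k => dat.X_pos k
  have hXs : ∀ k, dat.X k = ((stage k).C : ℝ) * dat.X (k + 1) := fun k => dat.X_succ k
  have hXle : ∀ k, dat.X k ≤ (1 / 2 : ℝ) ^ k := fun k => dat.X_le k
  -- the number
  have hsum : Summable (fun k => ((stage k).t : ℝ) * dat.X (k + 1)) := by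
    refine Summable.of_nonneg_of_le (fun k => mul_nonneg (Nat.cast_nonneg _) (hXpos _).le) (fun k => ?_)
      (summable_geometric_of_lt_one (by norm_num : (0 : ℝ) ≤ 1 / 2) (by norm_num))
    have h1 := (num (stage k)).2
    have h2 : ((stage k).t : ℝ) ≤ (stage k).C := by
      have h3 : ((stage k).t : ℤ) ≤ (stage k).C := by
        have : (0 : ℤ) ≤ ((stage k).t : ℤ) := by positivity
        linarith
      exact_mod_cast h3
    calc ((stage k).t : ℝ) * dat.X (k + 1) ≤ ((stage k).C : ℝ) * dat.X (k + 1) :=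
          mul_le_mul_of_nonneg_right h2 (hXpos _).le
      _ = dat.X k := (hXs k).symm
      _ ≤ (1 / 2 : ℝ) ^ k := hXle k
  refine ⟨∑' k, ((stage k).t : ℝ) * dat.X (k + 1), ?_⟩
  rintro ⟨σ, d, hT, -, hd0, hlim⟩
  have hT' : ∀ k, ∃ T : Finset (stage k).I, ∑ i ∈ T, (stage k).val i = σ k := hT
  choose T hTs using hT'
  have hd1 : Tendsto (fun k => (d k : ℝ) / ((stage k).M : ℝ)) atTop (𝓝 0) := hd0
  have hMt : Tendsto (fun k => ((stage k).M : ℝ)) atTop atTop :=
    tendsto_natCast_atTop_atTop.comp stage_M_tendsto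
  have hMpos : ∀ k, (1 : ℤ) ≤ (stage k).M := fun k => M_pos _
  -- smallness of d
  have hsmall : ∀ c : ℕ, 1 ≤ c → ∀ᶠ k in atTop, (c : ℤ) * (|d k| + 1) < (stage k).M := by
    intro c hc
    have h1 : Tendsto (fun k => |(d k : ℝ) / ((stage k).M : ℝ)| + (((stage k).M : ℝ))⁻¹) atTop (𝓝 0) := by
      have h2 := hd1.abs.add hMt.inv_tendsto_atTop
      simpa using h2
    have hc' : (0 : ℝ) < (c : ℝ)⁻¹ := by positivity
    filter_upwards [h1.eventually (gt_mem_nhds hc')] with k hk
    have hM : (0 : ℝ) < (stage k).M := by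
      have := hMpos k
      have h3 : (0 : ℤ) < (stage k).M := by linarith
      exact_mod_cast h3
    have h3 : (|(d k : ℝ)| + 1) / ((stage k).M : ℝ) < (c : ℝ)⁻¹ := by
      have e : (|(d k : ℝ)| + 1) / ((stage k).M : ℝ) = |(d k : ℝ) / ((stage k).M : ℝ)| + (((stage k).M : ℝ))⁻¹ := by
        rw [abs_div, abs_of_pos hM]; field_simp
      rw [e]; exact hk
    rw [div_lt_iff₀ hM, inv_mul_eq_div, lt_div_iff₀ (by positivity)] at h3
    have h4 : ((c : ℤ) * (|d k| + 1) : ℝ) < (((stage k).M : ℤ) : ℝ) := by push_cast; linarith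
    exact_mod_cast h4
  -- the states
  obtain ⟨m, hm0, hms⟩ : ∃ m : ℕ → ℤ, m 0 = 0 ∧
      ∀ k, m (k + 1) = ((stage k).t : ℤ) + m k * (stage k).C - σ k - d k :=
    ⟨fun n => Nat.rec (0 : ℤ) (fun k r => ((stage k).t : ℤ) + r * (stage k).C - σ k - d k) n, rfl, fun k => rfl⟩
  have hmX : ∀ n, ((m n : ℤ) : ℝ) * dat.X n = ∑ k ∈ Finset.range n, ((stage k).t : ℝ) * dat.X (k + 1) -
      ∑ k ∈ Finset.range n, ((σ k : ℝ) + d k) * dat.X (k + 1) := by
    intro n
    induction n with
    | zero => simp [hm0]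
    | succ n ih =>
      rw [Finset.sum_range_succ, Finset.sum_range_succ, hms]
      push_cast
      rw [hXs n] at ih
      linear_combination ih
  have hmlim : Tendsto (fun n => ((m n : ℤ) : ℝ) * dat.X n) atTop (𝓝 0) := by
    have h1 := hsum.hasSum.tendsto_sum_nat
    have h2 := h1.sub hlim
    rw [sub_self] at h2
    exact h2.congr fun n => (hmX n).symm
  have hmlim' : Tendsto (fun n => |((m n : ℤ) : ℝ)| * dat.X n) atTop (𝓝 0) := by
    have h1 := hmlim.abs
    rw [abs_zero] at h1
    refine h1.congr fun n => ?_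
    rw [abs_mul, abs_of_pos (hXpos n)]
  have hBB : ∀ k, BB (stage (k + 1)) = BB' (stage k) := by
    intro k
    unfold BB BB'
    rw [stage_m, stage_a, stage_q]
  have hσle : ∀ k, (σ k : ℤ) ≤ (BB (stage k) - 2) * (stage k).C := by
    intro k
    have h1 : ∑ i ∈ T k, (stage k).val i ≤ ∑ i, (stage k).val i :=
      Finset.sum_le_sum_of_subset (Finset.subset_univ _)
    rw [hTs k, (stage k).total] at h1
    have h2 : ((σ k : ℕ) : ℤ) ≤ (((stage k).m + 2 * (stage k).a * (stage k).q + 1) * (stage k).C : ℕ) := by exact_mod_cast h1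
    refine h2.trans (le_of_eq ?_)
    unfold BB
    push_cast
    ring
  -- monotonicity of (|m| - B) X
  obtain ⟨K0, hK0⟩ := eventually_atTop.1 (hsmall 1 le_rfl)
  have hdM : ∀ k, K0 ≤ k → |d k| + 1 < (stage k).M := fun k hk => by
    have := hK0 k hk
    simpa using this
  have hstep : ∀ k, K0 ≤ k → (|m k| - BB (stage k)) * (stage k).C ≤ |m (k + 1)| - BB (stage (k + 1)) := by
    intro k hk
    have h1 := hdM k hk
    have h2 := num (stage k)
    have h3 := hσle k
    have h4 := hMpos k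
    rw [hBB]
    have hσ0 : (0 : ℤ) ≤ (σ k : ℤ) := by positivity
    have ht0 : (0 : ℤ) ≤ ((stage k).t : ℤ) := by positivity
    have hC0 : (0 : ℤ) ≤ ((stage k).C : ℤ) := by positivity
    have h5 : |m k| * (stage k).C ≤ |m (k + 1)| + |((stage k).t : ℤ) - σ k - d k| := by
      have e : m k * (stage k).C = m (k + 1) - (((stage k).t : ℤ) - σ k - d k) := by rw [hms]; ring
      have e2 : |m k| * (stage k).C = |m k * (stage k).C| := by rw [abs_mul, abs_of_nonneg hC0]
      rw [e2, e]
      exact abs_sub _ _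
    have h6 : |((stage k).t : ℤ) - σ k - d k| ≤ (stage k).t + (BB (stage k) - 2) * (stage k).C + (stage k).M := by
      have h7 := abs_le.1 (le_refl |d k|)
      rw [abs_le]
      constructor <;> linarith
    have h8 : (|m k| - BB (stage k)) * (stage k).C = |m k| * (stage k).C - (BB (stage k) - 2) * (stage k).C - 2 * (stage k).C := by ring
    rw [h8]
    linarith [h2.1]
  have hmono : ∀ k, K0 ≤ k → ∀ j, ((|m k| - BB (stage k) : ℤ) : ℝ) * dat.X k ≤
      ((|m (k + j)| - BB (stage (k + j)) : ℤ) : ℝ) * dat.X (k + j) := by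
    intro k hk j
    induction j with
    | zero => simp
    | succ j ih =>
      refine ih.trans ?_
      have h1 : (((|m (k + j)| - BB (stage (k + j))) * (stage (k + j)).C : ℤ) : ℝ) ≤
          ((|m (k + j + 1)| - BB (stage (k + j + 1)) : ℤ) : ℝ) := by exact_mod_cast hstep (k + j) (by omega)
      rw [hXs (k + j)]
      have h2 := mul_le_mul_of_nonneg_right h1 (hXpos (k + j + 1)).le
      refine le_trans (le_of_eq ?_) h2
      push_cast
      ring
  have hBB0 : ∀ k, 0 ≤ BB (stage k) := fun k => by unfold BB; positivity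
  have hmle : ∀ k, K0 ≤ k → |m k| ≤ BB (stage k) := by
    intro k hk
    have h1 : ((|m k| - BB (stage k) : ℤ) : ℝ) * dat.X k ≤ 0 := by
      have h2 : Tendsto (fun j => |((m (k + j) : ℤ) : ℝ)| * dat.X (k + j)) atTop (𝓝 0) := by
        have := hmlim'.comp (tendsto_add_atTop_nat k)
        refine this.congr fun j => ?_
        simp only [Function.comp, add_comm]
      refine ge_of_tendsto' h2 fun j => (hmono k hk j).trans ?_
      refine mul_le_mul_of_nonneg_right ?_ (hXpos _).le
      push_cast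
      have : (0 : ℝ) ≤ (BB (stage (k + j)) : ℝ) := by exact_mod_cast hBB0 _
      linarith
    have h3 : ((|m k| - BB (stage k) : ℤ) : ℝ) ≤ 0 := by
      by_contra h4
      push Not at h4
      have := mul_pos h4 (hXpos k)
      linarith
    have h5 : (|m k| - BB (stage k) : ℤ) ≤ 0 := by exact_mod_cast h3
    linarith
  -- the states are locked
  have heq : ∀ k, ((stage k).t : ℤ) + m k * (stage k).C = (∑ x ∈ T k, ((stage k).val x : ℤ)) + d k + m (k + 1) := by
    intro k
    have h1 : (∑ x ∈ T k, ((stage k).val x : ℤ)) = (σ k : ℤ) := by rw [← hTs k]; push_cast; rfl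
    rw [h1, hms]; ring
  have hlock : ∀ k, K0 ≤ k → ∃ f : ℤ, 0 ≤ f ∧ f ≤ (stage k).m + 1 ∧ m k = (stage k).nE (T k) * (stage k).q + f := by
    intro k hk
    have h1 : |d k| ≤ (stage k).M := by have := hdM k hk; linarith
    have h2 : |m (k + 1)| ≤ 2 * (stage k).a' * (stage k).Q + (stage k).M + 3 := by
      have := hmle (k + 1) (by omega)
      rw [hBB] at this
      exact this
    exact (stage k).state_eq (T k) (d k) (m k) (m (k + 1)) h1 h2 (heq k)
  -- the quality
  let J : ℕ → ℕ := fun k => min ((stage k).nE (T k)) (2 * (stage k).a - (stage k).nE (T k))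
  have hJe : ∀ k, J k ≤ (stage k).e := by
    intro k
    have h1 := (stage k).ha
    show min ((stage k).nE (T k)) (2 * (stage k).a - (stage k).nE (T k)) ≤ (stage k).e
    rcases min_choice ((stage k).nE (T k)) (2 * (stage k).a - (stage k).nE (T k)) with h | h <;> omega
  have hcost : ∀ k, K0 ≤ k → ((J (k + 1) : ℤ) - J k) * (stage k).M + 2 ^ ((stage k).e - J k) - 1 ≤ |d k| := by
    intro k hk
    obtain ⟨f, hf0, hf1, hf⟩ := hlock (k + 1) (by omega)
    have h1 : |d k| ≤ (stage k).M := by have := hdM k hk; linarith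
    have h2 : (stage (k + 1)).nE (T (k + 1)) ≤ 2 * (stage k).a' := by
      have := (stage (k + 1)).nE_le (T (k + 1))
      rwa [stage_a] at this
    have h3 : f ≤ (stage k).M + 1 := by rw [stage_m] at hf1; exact hf1
    have h4 : m (k + 1) = (stage (k + 1)).nE (T (k + 1)) * (stage k).Q + f := by rw [hf, stage_q]
    have h5 := (stage k).cost (T k) (d k) (m k) (m (k + 1)) h1 _ f h2 hf0 h3 h4 (heq k)
    have h6 : min ((stage (k + 1)).nE (T (k + 1))) (2 * (stage k).a' - (stage (k + 1)).nE (T (k + 1))) = J (k + 1) := by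
      show _ = min ((stage (k + 1)).nE (T (k + 1))) (2 * (stage (k + 1)).a - (stage (k + 1)).nE (T (k + 1)))
      rw [stage_a]
    rw [h6] at h5
    have h7 : (stage k).Dj (min ((stage k).nE (T k)) (2 * (stage k).a - (stage k).nE (T k))) =
      ((J k : ℤ) + 1) * (stage k).M - 2 ^ ((stage k).e - J k) := rfl
    rw [h7] at h5
    linarith
  have hpow : ∀ k, (2 : ℤ) ^ (J k) * 2 ^ ((stage k).e - J k) = (stage k).M := by
    intro k
    rw [← pow_add, Nat.add_sub_cancel' (hJe k)]
    unfold Stage.M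
    push_cast
    rfl
  have hone : ∀ k, (1 : ℤ) ≤ 2 ^ ((stage k).e - J k) := fun k => one_le_pow₀ (by norm_num)
  have hanti : ∀ k, K0 ≤ k → J (k + 1) ≤ J k := by
    intro k hk
    have h1 := hcost k hk
    have h2 := hdM k hk
    have h3 := hone k
    have h4 := hMpos k
    by_contra h5
    push Not at h5
    have h6 : (1 : ℤ) ≤ (J (k + 1) : ℤ) - J k := by omega
    nlinarith
  have hbd : ∀ k, K0 ≤ k → J k ≤ J K0 := by
    intro k hk
    induction k, hk using Nat.le_induction with
    | base => exact le_rfl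
    | succ k hk ih => exact (hanti k hk).trans ih
  obtain ⟨K1, hK1⟩ := eventually_atTop.1 (hsmall (2 ^ (J K0)) Nat.one_le_two_pow)
  have hstrict : ∀ k, max K0 K1 ≤ k → J (k + 1) + 1 ≤ J k := by
    intro k hk
    have hk0 : K0 ≤ k := (le_max_left _ _).trans hk
    have h1 := hcost k hk0
    have h2 := hK1 k ((le_max_right _ _).trans hk)
    have h3 : (2 : ℤ) ^ (J k) ≤ 2 ^ (J K0) := pow_le_pow_right₀ (by norm_num) (hbd k hk0)
    have h4 : (2 : ℤ) ^ (J k) * (|d k| + 1) < 2 ^ (J k) * 2 ^ ((stage k).e - J k) := by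
      rw [hpow k]
      refine lt_of_le_of_lt (mul_le_mul_of_nonneg_right h3 (by positivity)) ?_
      push_cast at h2
      exact h2
    have h5 : |d k| + 1 < 2 ^ ((stage k).e - J k) := lt_of_mul_lt_mul_left h4 (by positivity)
    have h6 : ((J (k + 1) : ℤ) - J k) * (stage k).M < 0 := by linarith
    have h7 := hMpos k
    by_contra h8
    have h9 : (0 : ℤ) ≤ (J (k + 1) : ℤ) - J k := by omega
    have := mul_nonneg h9 (by linarith : (0 : ℤ) ≤ (stage k).M)
    linarith
  have hfin : ∀ j, J (max K0 K1 + j) + j ≤ J (max K0 K1) := by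
    intro j
    induction j with
    | zero => simp
    | succ j ih =>
      have := hstrict (max K0 K1 + j) (by omega)
      have e : max K0 K1 + (j + 1) = max K0 K1 + j + 1 := rfl
      rw [e]
      omega
  have := hfin (J (max K0 K1) + 1)
  omega

end Ach
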