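import Pool.Agent.H674.AchF.Defs

/-! Achievement sets: the combinatorics of one stage (integers only). -/

open Filter Topology
set_option autoImplicit false
set_option relaxedAutoImplicit false

namespace Ach

/-- parameters of one stage -/
structure Stage where
  /-- number of copies of the element `C` -/
  m : ℕ
  /-- number of levels of the previous stage -/
  a : ℕ
  /-- spacing of the previous stage -/
  q : ℕ
  /-- granularity `M = 2 ^ e` -/
  e : ℕ
  /-- number of levels of this stage -/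
  a' : ℕ
  hm : 1 ≤ m
  hq : 1 ≤ q
  ha : a ≤ e
  he : 1 ≤ e
  ha' : a' + 2 ≤ 2 * 2 ^ e
  haa : a ≤ a'

namespace Stage
variable (s : Stage)

def M : ℕ := 2 ^ s.e
def Q : ℕ := (2 * s.a' + 4) * s.M
def P : ℕ := (2 * s.M + 1) * (8 * s.M)
def C : ℕ := s.P * s.Q

/-- the shift of the `i`-th pair (`i = 0, 1, …`) -/
def th (i : ℕ) : ℕ := s.M + s.M / 2 ^ (i + 1)

/-- total shift of the first `j` pairs -/
def Dj (j : ℕ) : ℤ := (j + 1) * s.M - 2 ^ (s.e - j)

/-- index type of the elements -/
abbrev I : Type := Fin s.m ⊕ (Fin s.a × Bool) ⊕ (Fin (2 * s.M + 1) × Fin (8 * s.M))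

def val : s.I → ℕ
  | Sum.inl _ => s.C
  | Sum.inr (Sum.inl (i, b)) => if b then s.q * s.C + s.th i else s.q * s.C - s.th i
  | Sum.inr (Sum.inr (r, _)) => s.Q - s.M + r

/-- the bad digit -/
def t : ℕ := (2 * s.a' + 1) * ((s.a' + 2) * s.M)

/-- number of carry elements used -/
def nE (T : Finset s.I) : ℕ := (T.filter (fun x => ∃ y, x = Sum.inr (Sum.inl y))).card

end Stage
end Ach
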